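import Pool.Agent.Lib.NFH.BasisP

/-!
MP_44a56e_nt (second proof), module Basis (about 200 lines): all of `𝓞 K` has a basis of size `|D|^(1/n)`.

PROOF of `red_basis`. `b` from `basis_prod`, `N_i = (∑_φ |φ b_i|^2)^(1/2) > 0`, `D = |discr K|`, `∏ N_i ≤ 2^(n^2) D^(1/2)`. Number the embeddings by `Fin n`; `M = (φ_σ (b_l))_{σ,l}`, `|det M| = D^(1/2)` (discriminant), `M` invertible.
Fix `i`; `ξ_σ = (M⁻¹)_{i,σ}`, so `∑_σ φ_σ(b_l) ξ_σ = δ_il`, and `∑_σ φ_σ(z) ξ_σ = b.repr z i` for every `z ∈ 𝓞 K`. Cofactors (`Matrix.inv_def`, `adjugate`; entries of column `l` of `M` are `≤ N_l` in absolute value; `Matrix.det_le`-type bound or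
Leibniz formula): `|ξ_σ| ≤ n! ∏_{l≠i} N_l / D^(1/2) ≤ C1 / N_i`, `C1 = n! 2^(n^2)`. The matrix `Mᵀ diag(ξ) M` has the entries `∑_σ φ_σ(b_a b_c) ξ_σ = b.repr (b_a * b_c) i ∈ ℤ`; its determinant is an integer, equal to `(∏ ξ_σ) (det M)^2`, so of absolute value
`∏|ξ_σ| D`. It is not `0`: if the integer matrix `(b.repr (b_a b_c) i)_{a,c}` is singular there is a nonzero rational vector in its kernel, so (clear denominators) `0 ≠ y ∈ 𝓞 K` with `b.repr (z y) i = 0` for all `z ∈ 𝓞 K`; take `z` with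
`z y = N(y)`-multiple: `z = (norm y / y)·b_i` is in `𝓞 K` (`Algebra.norm` divides; or any `z` with `z y = k b_i`, `k ∈ ℤ` nonzero): `b.repr (k b_i) i = k ≠ 0`. So `1 ≤ ∏|ξ_σ| D ≤ (C1/N_i)^n D`, `N_i ≤ C1 D^(1/n)`, and `|φ b_i| ≤ N_i`. `C = C1 ≥ 1`.
-/

set_option autoImplicit false

open MvPolynomial Module NumberField

namespace NFH

/-- The matrix of the embeddings. -/
private theorem emb_det (K : Type) [Field K] [NumberField K] (n : ℕ) (hn : finrank ℚ K = n)
    (b : Basis (Fin n) ℤ (𝓞 K)) : ∃ (g : Fin n → (K →+* ℂ)) (M : Matrix (Fin n) (Fin n) ℂ),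
      (∀ σ l, M σ l = g σ (b l : K)) ∧ M.det ^ 2 = ((discr K : ℤ) : ℂ) := by
  classical
  obtain ⟨u, hu⟩ : ∃ u : Fin n → K, ∀ i, u i = ((b i : 𝓞 K) : K) := ⟨_, fun _ => rfl⟩
  have hcard : Fintype.card (K →ₐ[ℚ] ℂ) = n := by
    rw [AlgHom.card, hn]
  let f : Fin n ≃ (K →ₐ[ℚ] ℂ) := (Fintype.equivFinOfCardEq hcard).symm
  let g : Fin n ≃ (K →+* ℂ) := f.trans (RingHom.equivRatAlgHom (R := K) (S := ℂ)).symm
  let M : Matrix (Fin n) (Fin n) ℂ := Algebra.embeddingsMatrixReindex ℚ ℂ u f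
  have hM : ∀ i j, M i j = g j (u i) := fun i j => rfl
  have hdisc : M.det ^ 2 = ((discr K : ℤ) : ℂ) := by
    rw [← Algebra.discr_eq_det_embeddingsMatrixReindex_pow_two ℚ ℂ u f]
    have h1 : Algebra.discr ℚ u = ((discr K : ℤ) : ℚ) := by
      rw [← discr_eq_discr K b]
      have h2 := Algebra.discr_localizationLocalization ℤ (nonZeroDivisors ℤ) (Rₘ := ℚ) K b
      have h3 : (b.localizationLocalization ℚ (nonZeroDivisors ℤ) K : Fin n → K) = u := by
        funext i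
        rw [Basis.localizationLocalization_apply, hu]
      rw [h3] at h2
      rw [h2]
      rfl
    rw [h1]
    simp
  refine ⟨g, M.transpose, fun σ l => ?_, ?_⟩
  · rw [Matrix.transpose_apply, hM, hu]
  · rw [Matrix.det_transpose, hdisc]

/-- The integral matrix of the `i`-th coordinate of the multiplication is nonsingular. -/
private theorem coord_det_ne (K : Type) [Field K] [NumberField K] (n : ℕ)
    (b : Basis (Fin n) ℤ (𝓞 K)) (i : Fin n) :
    (Matrix.of fun a c => b.repr (b a * b c) i : Matrix (Fin n) (Fin n) ℤ).det ≠ 0 := by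
  intro h0
  obtain ⟨v, hv, hv0⟩ := Matrix.exists_mulVec_eq_zero_iff.2 h0
  set y : 𝓞 K := ∑ c, v c • b c with hy
  have hy0 : y ≠ 0 := by
    intro h
    apply hv
    funext c
    have h1 : b.repr y c = v c := by
      rw [hy, b.repr_sum_self]
    rw [h] at h1
    simpa using h1.symm
  have h1 : ∀ a, b.repr (b a * y) i = 0 := by
    intro a
    have h2 := congrFun hv0 a
    simp only [Matrix.mulVec, dotProduct, Matrix.of_apply, Pi.zero_apply] at h2
    rw [hy, Finset.mul_sum, map_sum, Finsupp.finsetSum_apply, ← h2]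
    refine Finset.sum_congr rfl fun c _ => ?_
    rw [mul_smul_comm, map_zsmul, Finsupp.smul_apply, smul_eq_mul, mul_comm]
  have h2 : ∀ z, b.repr (z * y) i = 0 := by
    intro z
    rw [← b.sum_repr z, Finset.sum_mul, map_sum, Finsupp.finsetSum_apply]
    refine Finset.sum_eq_zero fun a _ => ?_
    rw [smul_mul_assoc, map_zsmul, Finsupp.smul_apply, h1, smul_zero]
  have h3 : ((Ideal.absNorm (Ideal.span {y}) : ℕ) : 𝓞 K) ∈ Ideal.span {y} := Ideal.absNorm_mem _
  obtain ⟨z, hz⟩ := Ideal.mem_span_singleton'.1 h3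
  have h4 : Ideal.absNorm (Ideal.span {y}) ≠ 0 := by
    intro h
    rw [Ideal.absNorm_eq_zero_iff, Ideal.span_singleton_eq_bot] at h
    exact hy0 h
  have h5 := h2 (b i * z)
  rw [mul_assoc, hz] at h5
  have h6 : b i * ((Ideal.absNorm (Ideal.span {y}) : ℕ) : 𝓞 K) =
      (Ideal.absNorm (Ideal.span {y})) • b i := by
    rw [nsmul_eq_mul, mul_comm]
  rw [h6, map_nsmul, Finsupp.smul_apply, b.repr_self, Finsupp.single_eq_same] at h5
  simp at h5
  exact hy0 h5

/-- Bound of the adjugate. -/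
private theorem adj_le {n : ℕ} (M : Matrix (Fin n) (Fin n) ℂ) (N : Fin n → ℝ) (hN : ∀ l, 0 < N l)
    (hM : ∀ σ l, ‖M σ l‖ ≤ N l) (i σ : Fin n) :
    ‖M.adjugate i σ‖ * N i ≤ (n.factorial : ℝ) * ∏ l, N l := by
  set M1 : Matrix (Fin n) (Fin n) ℂ := M.updateRow σ ((N i : ℂ) • Pi.single i 1) with hM1
  have h1 : M1.det = (N i : ℂ) * M.adjugate i σ := by
    rw [hM1, Matrix.det_updateRow_smul, Matrix.adjugate_apply]
  set M2 : Matrix (Fin n) (Fin n) ℂ := Matrix.of fun a l => M1 a l / (N l : ℂ) with hM2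
  have hNc : ∀ l, (N l : ℂ) ≠ 0 := fun l => by exact_mod_cast (hN l).ne'
  have h2 : M1 = Matrix.of fun a l => (N l : ℂ) * M2 a l := by
    ext a l
    simp only [hM2, Matrix.of_apply]
    field_simp [hNc l]
  have h3 : M1.det = (∏ l, (N l : ℂ)) * M2.det := by
    conv_lhs => rw [h2]
    exact Matrix.det_mul_row _ _
  have h4 : ‖M2.det‖ ≤ (n.factorial : ℝ) := by
    have hent : ∀ a l, (NormedField.toAbsoluteValue ℂ) (M2 a l) ≤ 1 := by
      intro a l
      change ‖M2 a l‖ ≤ 1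
      simp only [hM2, Matrix.of_apply]
      rw [norm_div, Complex.norm_real, Real.norm_eq_abs, abs_of_pos (hN l), div_le_one (hN l)]
      by_cases ha : a = σ
      · subst ha
        rw [hM1, Matrix.updateRow_self]
        by_cases hl : l = i
        · subst hl
          simp [abs_of_pos (hN l)]
        · simp [Pi.single_eq_of_ne hl, (hN l).le]
      · rw [hM1, Matrix.updateRow_ne ha]
        exact hM a l
    have h5 := Matrix.det_le (A := M2) (abv := NormedField.toAbsoluteValue ℂ) (x := 1) hent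
    have h6 : (NormedField.toAbsoluteValue ℂ) M2.det = ‖M2.det‖ := rfl
    rw [h6] at h5
    simpa using h5
  have h7 : ‖M1.det‖ = N i * ‖M.adjugate i σ‖ := by
    rw [h1, norm_mul, Complex.norm_real, Real.norm_eq_abs, abs_of_pos (hN i)]
  have h8 : ‖M1.det‖ = (∏ l, N l) * ‖M2.det‖ := by
    rw [h3, norm_mul, norm_prod]
    congr 1
    refine Finset.prod_congr rfl fun l _ => ?_
    rw [Complex.norm_real, Real.norm_eq_abs, abs_of_pos (hN l)]
  have h9 : 0 ≤ ∏ l, N l := Finset.prod_nonneg fun l _ => (hN l).le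
  rw [mul_comm, ← h7, h8, mul_comm (n.factorial : ℝ)]
  exact mul_le_mul_of_nonneg_left h4 h9

theorem red_basis (n : ℕ) (hn : 1 ≤ n) : ∃ C : ℝ, 1 ≤ C ∧ ∀ (K : Type) [Field K]
    [NumberField K], finrank ℚ K = n → ∃ b : Basis (Fin n) ℤ (𝓞 K),
      ∀ (i : Fin n) (φ : K →+* ℂ), ‖φ (b i : K)‖ ≤ C * |(discr K : ℝ)| ^ ((1 : ℝ) / n) := by
  set C : ℝ := (n.factorial : ℝ) * 2 ^ (n ^ 2) with hC
  have hfac : (1 : ℝ) ≤ n.factorial := by exact_mod_cast Nat.factorial_pos n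
  have h2pow : (1 : ℝ) ≤ 2 ^ (n ^ 2) := one_le_pow₀ (by norm_num)
  have hC1 : 1 ≤ C := one_le_mul_of_one_le_of_one_le hfac h2pow
  refine ⟨C, hC1, ?_⟩
  intro K _ _ hK
  obtain ⟨b, hb⟩ := basis_prod K n hK
  refine ⟨b, fun i φ => ?_⟩
  obtain ⟨g, M, hM, hdet⟩ := emb_det K n hK b
  set D : ℝ := |(discr K : ℝ)| with hD
  have hD1 : 1 ≤ D := by
    have h1 : (1 : ℤ) ≤ |discr K| := Int.one_le_abs (discr_ne_zero K)
    rw [hD]
    exact_mod_cast h1
  have hD0 : 0 < D := by linarith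
  set S : Fin n → ℝ := fun l => ∑ φ : K →+* ℂ, ‖φ (b l : K)‖ ^ 2 with hS
  set N : Fin n → ℝ := fun l => Real.sqrt (S l) with hN
  have hφS : ∀ l (ψ : K →+* ℂ), ‖ψ (b l : K)‖ ^ 2 ≤ S l := fun l ψ =>
    Finset.single_le_sum (f := fun ψ : K →+* ℂ => ‖ψ (b l : K)‖ ^ 2)
      (fun _ _ => by positivity) (Finset.mem_univ ψ)
  have hφN : ∀ l (ψ : K →+* ℂ), ‖ψ (b l : K)‖ ≤ N l := fun l ψ => Real.le_sqrt_of_sq_le (hφS l ψ)
  have hN0 : ∀ l, 0 < N l := by
    intro l
    have h1 : (b l : K) ≠ 0 := by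
      intro h
      exact b.ne_zero l (by exact_mod_cast h)
    exact (norm_pos_iff.2 ((map_ne_zero φ).2 h1)).trans_le (hφN l φ)
  have hdetn : ‖M.det‖ ^ 2 = D := by
    rw [← norm_pow, hdet, Complex.norm_intCast]
  have hdetn' : ‖M.det‖ = Real.sqrt D := by
    rw [← hdetn, Real.sqrt_sq (norm_nonneg _)]
  have hdet0 : M.det ≠ 0 := by
    intro h
    rw [h] at hdetn
    simp at hdetn
    linarith
  have hprodN : ∏ l, N l ≤ 2 ^ (n ^ 2) * Real.sqrt D := by
    have h1 : ∏ l, N l = Real.sqrt (∏ l, S l) := by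
      rw [Real.sqrt_prod]
      intro l _
      exact Finset.sum_nonneg fun _ _ => by positivity
    rw [h1]
    refine Real.sqrt_le_iff.2 ⟨by positivity, ?_⟩
    refine hb.trans (le_of_eq ?_)
    rw [mul_pow, Real.sq_sqrt hD0.le, ← pow_mul, mul_comm (n ^ 2) 2, pow_mul]
    norm_num
  -- the dual vector
  set ξ : Fin n → ℂ := fun σ => M⁻¹ i σ with hξ
  have hξN : ∀ σ, ‖ξ σ‖ ≤ C / N i := by
    intro σ
    have h1 := adj_le M N hN0 (fun σ l => by rw [hM]; exact hφN l (g σ)) i σ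
    have h2 : ‖ξ σ‖ = ‖M.adjugate i σ‖ / Real.sqrt D := by
      simp only [hξ]
      rw [Matrix.inv_def, Matrix.smul_apply, smul_eq_mul, norm_mul, Ring.inverse_eq_inv', norm_inv,
        hdetn', div_eq_inv_mul]
    rw [h2, div_le_div_iff₀ (Real.sqrt_pos.2 hD0) (hN0 i)]
    refine h1.trans ?_
    rw [hC, mul_assoc]
    exact mul_le_mul_of_nonneg_left hprodN (by positivity)
  have hinv : M⁻¹ * M = 1 := Matrix.nonsing_inv_mul _ (isUnit_iff_ne_zero.2 hdet0)
  have hcoord : ∀ z : 𝓞 K, ∑ σ, g σ (z : K) * ξ σ = ((b.repr z i : ℤ) : ℂ) := by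
    intro z
    have h1 : ∀ σ, g σ (z : K) = ∑ l, ((b.repr z l : ℤ) : ℂ) * M σ l := by
      intro σ
      have h2 : (z : K) = ∑ l, ((b.repr z l : ℤ) : K) * (b l : K) := by
        conv_lhs => rw [← b.sum_repr z]
        push_cast
        refine Finset.sum_congr rfl fun l _ => ?_
        simp
      rw [h2, map_sum]
      refine Finset.sum_congr rfl fun l _ => ?_
      rw [map_mul, map_intCast, hM]
    simp only [h1, Finset.sum_mul]
    rw [Finset.sum_comm]
    have h3 : ∀ l, ∑ σ, ((b.repr z l : ℤ) : ℂ) * M σ l * ξ σ =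
        ((b.repr z l : ℤ) : ℂ) * (1 : Matrix (Fin n) (Fin n) ℂ) i l := by
      intro l
      rw [← hinv, Matrix.mul_apply, Finset.mul_sum]
      refine Finset.sum_congr rfl fun σ _ => ?_
      simp only [hξ]
      ring
    simp only [h3, Matrix.one_apply]
    simp
  -- the integral matrix
  set Z : Matrix (Fin n) (Fin n) ℤ := Matrix.of fun a c => b.repr (b a * b c) i with hZ
  have hZM : Z.map (Int.cast : ℤ → ℂ) = M.transpose * Matrix.diagonal ξ * M := by
    ext a c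
    rw [Matrix.map_apply, Matrix.mul_apply]
    simp only [Matrix.mul_diagonal, Matrix.transpose_apply]
    simp only [hZ, Matrix.of_apply]
    rw [← hcoord]
    refine Finset.sum_congr rfl fun σ _ => ?_
    rw [hM, hM]
    push_cast
    rw [map_mul]
    ring
  have hZdet : ((Z.det : ℤ) : ℂ) = M.det ^ 2 * ∏ σ, ξ σ := by
    have h1 : ((Z.det : ℤ) : ℂ) = (Z.map (Int.cast : ℤ → ℂ)).det := by
      have := RingHom.map_det (Int.castRingHom ℂ) Z
      simpa using this
    rw [h1, hZM, Matrix.det_mul, Matrix.det_mul, Matrix.det_transpose, Matrix.det_diagonal]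
    ring
  have hZ1 : (1 : ℝ) ≤ ‖((Z.det : ℤ) : ℂ)‖ := by
    rw [Complex.norm_intCast]
    have h1 : (1 : ℤ) ≤ |Z.det| := Int.one_le_abs (coord_det_ne K n b i)
    exact_mod_cast h1
  have hmain : N i ^ n ≤ C ^ n * D := by
    rw [hZdet, norm_mul, norm_pow, hdetn, norm_prod] at hZ1
    have h1 : ∏ σ, ‖ξ σ‖ ≤ (C / N i) ^ n := by
      have : ∏ σ : Fin n, ‖ξ σ‖ ≤ ∏ _ : Fin n, (C / N i) :=
        Finset.prod_le_prod (fun _ _ => norm_nonneg _) (fun σ _ => hξN σ)
      rw [Finset.prod_const, Finset.card_univ, Fintype.card_fin] at this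
      exact this
    have h2 : 1 ≤ D * (C / N i) ^ n := hZ1.trans (mul_le_mul_of_nonneg_left h1 hD0.le)
    rw [div_pow, mul_div_assoc', le_div_iff₀ (pow_pos (hN0 i) n), one_mul] at h2
    linarith
  refine (hφN i φ).trans ?_
  have hn0 : n ≠ 0 := by omega
  have hpow : (C * D ^ ((1 : ℝ) / n)) ^ n = C ^ n * D := by
    rw [mul_pow, ← Real.rpow_natCast (D ^ ((1 : ℝ) / n)) n, ← Real.rpow_mul hD0.le]
    have : (1 : ℝ) / n * n = 1 := by
      field_simp
    rw [this, Real.rpow_one]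
  rw [← hpow] at hmain
  exact le_of_pow_le_pow_left₀ hn0 (by positivity) hmain

end NFH
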