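import Pool.Agent.Lib.NFH.Defs
import Pool.Agent.Lib.LatN.RedBasis

/-!
MP_44a56e_nt (second proof), module BasisP (about 180 lines): an integral basis with small product.

PROOF of `basis_prod`. Let `e` be an integral basis of `𝓞 K` indexed by `Fin n` (`RingOfIntegers.basis` reindexed), `F = EuclideanSpace ℂ (K →+* ℂ)` viewed as a real inner product space
(or `EuclideanSpace ℝ ((K →+* ℂ) × Fin 2)` with the real and imaginary parts), `T : (Fin n → ℤ) →ₗ[ℤ] F`, `T c = (φ (∑ c_i e_i))_φ`, `‖T c‖^2 = ∑_φ |φ (∑ c_i e_i)|^2`. `Emb T`: the matrix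
`M = (φ e_i)` is nonsingular: `det M ^ 2 = discr K ≠ 0` (`Algebra.discr_eq_det_embeddingsMatrixReindex_pow_two`, `NumberField.discr_eq_discr`, `NumberField.coe_discr`), a real relation between the rows is a complex one.
Gram matrix: `inner (T e_i) (T e_j) = Re ∑_φ conj (φ e_i) φ e_j` and the sum is real (complex conjugation permutes the embeddings), so the Gram matrix is `Mᴴ M` and `vsq (T ∘ single) = |det M|^2 = |discr K|`.
`LatN.exists_red_basis hT ⊤`: a basis of `⊤ ≤ Fin n → ℤ`, so (transport along `e.equivFun` and `finrank = n`) a basis `b` of `𝓞 K` with `∏ ‖T b_i‖ ≤ 2^(n^2) cov T ⊤`, `cov T ⊤ = sqrt (vsq of T on the unit vectors)` (`LatN.cov_eq`,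
any basis of `⊤`). Square it. (Lib/NF44/GramD.lean (helper79) has already proved the Gram matrix statement for subfields of `ℂ`: copy its proof.)
-/

set_option autoImplicit false

open MvPolynomial Module NumberField

namespace NFH

/-- The space of the complex embeddings, as a real inner product space. -/
private abbrev FK (K : Type) [Field K] [NumberField K] : Type := PiLp 2 fun _ : K →+* ℂ => ℂ

private theorem inner_FK (K : Type) [Field K] [NumberField K] (x y : FK K) :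
    inner ℝ x y = (∑ φ : K →+* ℂ, x φ * (starRingEnd ℂ) (y φ)).re := by
  rw [PiLp.inner_apply, Complex.re_sum]
  refine Finset.sum_congr rfl fun φ _ => ?_
  rw [Complex.inner]
  simp only [Complex.mul_re, Complex.conj_re, Complex.conj_im]
  ring

/-- The embedding of the integer vectors. -/
private noncomputable def TK (K : Type) [Field K] [NumberField K] {n : ℕ}
    (e : Basis (Fin n) ℤ (𝓞 K)) : (Fin n → ℤ) →ₗ[ℤ] FK K where
  toFun c := WithLp.toLp 2 fun φ => φ ((∑ i, c i • e i : 𝓞 K) : K)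
  map_add' := by
    intro c d
    ext φ
    simp [add_smul, Finset.sum_add_distrib]
  map_smul' := by
    intro k c
    ext φ
    simp [mul_assoc, ← Finset.mul_sum]

private theorem TK_apply (K : Type) [Field K] [NumberField K] {n : ℕ}
    (e : Basis (Fin n) ℤ (𝓞 K)) (c : Fin n → ℤ) (φ : K →+* ℂ) :
    TK K e c φ = φ ((∑ i, c i • e i : 𝓞 K) : K) := rfl

private theorem norm_TK (K : Type) [Field K] [NumberField K] {n : ℕ}
    (e : Basis (Fin n) ℤ (𝓞 K)) (c : Fin n → ℤ) :
    ‖TK K e c‖ ^ 2 = ∑ φ : K →+* ℂ, ‖φ ((∑ i, c i • e i : 𝓞 K) : K)‖ ^ 2 := by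
  rw [PiLp.norm_sq_eq_of_L2]
  rfl

private theorem TK_single (K : Type) [Field K] [NumberField K] {n : ℕ}
    (e : Basis (Fin n) ℤ (𝓞 K)) (i : Fin n) (φ : K →+* ℂ) :
    TK K e (Pi.single i 1) φ = φ (e i : K) := by
  rw [TK_apply]
  congr 2
  rw [Finset.sum_eq_single i]
  · simp
  · intro j _ hj
    simp [Pi.single_eq_of_ne hj]
  · simp

private theorem gram_TK (K : Type) [Field K] [NumberField K] (n : ℕ) (hn : finrank ℚ K = n)
    (e : Basis (Fin n) ℤ (𝓞 K)) :
    LatN.Emb (TK K e) ∧ LatN.vsq (fun i => TK K e (Pi.single i 1)) = |(discr K : ℝ)| := by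
  classical
  obtain ⟨u, hu⟩ : ∃ u : Fin n → K, ∀ i, u i = ((e i : 𝓞 K) : K) := ⟨_, fun _ => rfl⟩
  -- the embeddings
  have hcard : Fintype.card (K →ₐ[ℚ] ℂ) = n := by
    rw [AlgHom.card, hn]
  let f : Fin n ≃ (K →ₐ[ℚ] ℂ) := (Fintype.equivFinOfCardEq hcard).symm
  let g : Fin n ≃ (K →+* ℂ) := f.trans (RingHom.equivRatAlgHom (R := K) (S := ℂ)).symm
  have hgf : ∀ j x, g j x = f j x := fun j x => rfl
  let M : Matrix (Fin n) (Fin n) ℂ := Algebra.embeddingsMatrixReindex ℚ ℂ u f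
  have hM : ∀ i j, M i j = g j (u i) := fun i j => rfl
  have hdisc : M.det ^ 2 = ((discr K : ℤ) : ℂ) := by
    rw [← Algebra.discr_eq_det_embeddingsMatrixReindex_pow_two ℚ ℂ u f]
    have h1 : Algebra.discr ℚ u = ((discr K : ℤ) : ℚ) := by
      rw [← discr_eq_discr K e]
      have h2 := Algebra.discr_localizationLocalization ℤ (nonZeroDivisors ℤ) (Rₘ := ℚ) K e
      have h3 : (e.localizationLocalization ℚ (nonZeroDivisors ℤ) K : Fin n → K) = u := by
        funext i
        rw [Basis.localizationLocalization_apply, hu]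
      rw [h3] at h2
      rw [h2]
      rfl
    rw [h1]
    simp
  have hdet0 : M.det ≠ 0 := by
    intro h0
    rw [h0] at hdisc
    have h1 : ((discr K : ℤ) : ℂ) = 0 := by rw [← hdisc]; simp
    exact discr_ne_zero K (by exact_mod_cast h1)
  have hTi : ∀ i φ, TK K e (Pi.single i 1) φ = φ (u i) := by
    intro i φ
    rw [TK_single, hu]
  let G : Matrix (Fin n) (Fin n) ℝ := Matrix.gram ℝ fun i => TK K e (Pi.single i 1)
  have hG : ∀ i j, G i j = (∑ φ : K →+* ℂ, φ (u i) * (starRingEnd ℂ) (φ (u j))).re := by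
    intro i j
    change inner ℝ (TK K e (Pi.single i 1)) (TK K e (Pi.single j 1)) = _
    rw [inner_FK]
    simp only [hTi]
  have hreal : ∀ i j, ((G i j : ℝ) : ℂ) = ∑ φ : K →+* ℂ, φ (u i) * (starRingEnd ℂ) (φ (u j)) := by
    intro i j
    rw [hG, ← Complex.conj_eq_iff_re, map_sum]
    refine Fintype.sum_equiv (ComplexEmbedding.involutive_conjugate K).toPerm _ _ fun φ => ?_
    simp
  have hGM : G.map (Complex.ofRealHom) = M * M.conjTranspose := by
    ext i j
    rw [Matrix.map_apply, Matrix.mul_apply]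
    have h1 : Complex.ofRealHom (G i j) = ((G i j : ℝ) : ℂ) := rfl
    rw [h1, hreal, ← g.sum_comp]
    refine Finset.sum_congr rfl fun l _ => ?_
    rw [Matrix.conjTranspose_apply, hM, hM]
    rfl
  refine ⟨?_, ?_⟩
  · rw [LatN.Emb, Fintype.linearIndependent_iff]
    intro x hx
    have h5 : Matrix.vecMul (fun i => (x i : ℂ)) M = 0 := by
      funext j
      have h6 := congrArg (fun y : FK K => y (g j)) hx
      simp only [WithLp.ofLp_sum, WithLp.ofLp_smul, Finset.sum_apply, Pi.smul_apply, hTi,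
        WithLp.ofLp_zero, Pi.zero_apply, Complex.real_smul] at h6
      rw [Matrix.vecMul, dotProduct]
      simp only [hM]
      exact h6
    have h7 := Matrix.eq_zero_of_vecMul_eq_zero hdet0 h5
    intro i
    have h8 := congrFun h7 i
    simpa using h8
  · have h1 : ((G.det : ℝ) : ℂ) = ((|(discr K : ℝ)| : ℝ) : ℂ) := by
      have h2 : ((G.det : ℝ) : ℂ) = (G.map Complex.ofRealHom).det := by
        rw [← RingHom.mapMatrix_apply, ← RingHom.map_det]
        rfl
      rw [h2, hGM, Matrix.det_mul, Matrix.det_conjTranspose]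
      have h3 : M.det * star M.det = ((‖M.det‖ ^ 2 : ℝ) : ℂ) := by
        have := Complex.mul_conj' M.det
        push_cast
        exact this
      rw [h3]
      congr 1
      rw [← norm_pow, hdisc, Complex.norm_intCast]
    exact_mod_cast h1

theorem basis_prod (K : Type) [Field K] [NumberField K] (n : ℕ) (hn : finrank ℚ K = n) :
    ∃ b : Basis (Fin n) ℤ (𝓞 K),
      ∏ i, ∑ φ : K →+* ℂ, ‖φ (b i : K)‖ ^ 2 ≤ (4 : ℝ) ^ (n ^ 2) * |(discr K : ℝ)| := by
  classical
  have hc : Fintype.card (Free.ChooseBasisIndex ℤ (𝓞 K)) = n := by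
    rw [← finrank_eq_card_chooseBasisIndex, RingOfIntegers.rank, hn]
  let e : Basis (Fin n) ℤ (𝓞 K) := (RingOfIntegers.basis K).reindex (Fintype.equivFinOfCardEq hc)
  obtain ⟨hT, hv⟩ := gram_TK K n hn e
  obtain ⟨b, hb⟩ := LatN.exists_red_basis hT ⊤
  have hr : finrank ℤ (⊤ : Submodule ℤ (Fin n → ℤ)) = n := by
    rw [finrank_top, finrank_fintype_fun_eq_card, Fintype.card_fin]
  have hcov : LatN.cov (TK K e) ⊤ = Real.sqrt |(discr K : ℝ)| := by
    rw [LatN.cov_eq (TK K e) ((Pi.basisFun ℤ (Fin n)).map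
      (Submodule.topEquiv (R := ℤ) (M := Fin n → ℤ)).symm), ← hv]
    congr 2
    funext i
    simp
  let b' : Basis (Fin n) ℤ (𝓞 K) :=
    ((b.reindex (finCongr hr)).map
      (Submodule.topEquiv (R := ℤ) (M := Fin n → ℤ))).map e.equivFun.symm
  refine ⟨b', ?_⟩
  have hb' : ∀ i, ∑ φ : K →+* ℂ, ‖φ (b' i : K)‖ ^ 2
      = ‖TK K e (b ((finCongr hr).symm i) : Fin n → ℤ)‖ ^ 2 := by
    intro i
    rw [norm_TK]
    refine Finset.sum_congr rfl fun φ _ => ?_
    congr 4
    simp [b', Basis.equivFun_symm_apply]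
  rw [Finset.prod_congr rfl fun i _ => hb' i, Finset.prod_pow]
  have h1 : ∏ i, ‖TK K e (b ((finCongr hr).symm i) : Fin n → ℤ)‖ =
      ∏ i, ‖TK K e (b i : Fin n → ℤ)‖ :=
    Fintype.prod_equiv (finCongr hr).symm _ _ fun i => rfl
  rw [h1]
  have hb2 : ∏ i, ‖TK K e (b i : Fin n → ℤ)‖ ≤ (2 : ℝ) ^ (n ^ 2) * Real.sqrt |(discr K : ℝ)| := by
    have h2 : (2 : ℝ) ^ (finrank ℤ (⊤ : Submodule ℤ (Fin n → ℤ)) ^ 2) = (2 : ℝ) ^ (n ^ 2) := by
      rw [hr]
    rw [← h2, ← hcov]
    exact hb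
  calc (∏ i, ‖TK K e (b i : Fin n → ℤ)‖) ^ 2
      ≤ ((2 : ℝ) ^ (n ^ 2) * Real.sqrt |(discr K : ℝ)|) ^ 2 :=
        pow_le_pow_left₀ (Finset.prod_nonneg fun i _ => norm_nonneg _) hb2 2
    _ = (4 : ℝ) ^ (n ^ 2) * |(discr K : ℝ)| := by
        rw [mul_pow, Real.sq_sqrt (abs_nonneg _), ← pow_mul, mul_comm (n ^ 2) 2, pow_mul]
        norm_num

end NFH
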