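import Pool.Agent.Lib.NFH.GramL

/-!
MP_44a56e_nt (second proof), module Der (about 150 lines): primitive integers modulo `p`.

PROOF of `der_unit`. The Gram matrix is `(Tr x^(i+j))`, its determinant is `discr (1, x, .., x^(n-1))`, nonzero. So `1, x, .., x^(n-1)` are independent, `x` is a primitive element: `minpoly ℤ x` is monic of degree `n`
(`minpoly.isIntegrallyClosed_eq_field_fractions`: it maps to `minpoly ℚ (x : K)`). With the power basis `pb` of `K` with `pb.gen = x` (e.g. `Field.primitive_element..`/`PowerBasis.ofGenMemAdjoin`/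
`Algebra.adjoin.powerBasis` + `⊤`), `Algebra.discr_powerBasis_eq_norm`: `discr = ± N (aeval x (derivative (minpoly ℚ x)))`. So the integer `N = Algebra.norm ℤ (aeval x (derivative (minpoly ℤ x)))` is `± det`, prime to `p`.
`z = aeval x f'` divides its norm in `𝓞 K` (`Algebra.dvd_norm`? or `Ideal.absNorm_mem`/`RingOfIntegers.dvd_norm`: `x ∣ algebraMap _ _ (norm ℚ x)` for the ring of integers) and `u N + v p = 1`, so the class of `z` modulo `p` is a unit.
`der_inj`: `ρ` of degree `< n` with `p ∣ aeval x ρ` has all coefficients divisible by `p`: `gram_inj` with `𝒜 = Unit`, `c i = ρ.coeff i`.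
`der_surj`: `gram_surj` with `𝒜 = Unit`; reduce the coefficients modulo `p` to `[0, p)`.
-/

set_option autoImplicit false

open MvPolynomial Module NumberField

namespace NFH

private theorem dr_gram {K : Type*} [Field K] [NumberField K] (n : ℕ) (x : 𝓞 K) :
    (((gramT K fun (i : Fin n) (_ : Unit) => x ^ (i : ℕ)).det : ℤ) : ℚ) =
      Algebra.discr ℚ (fun i : Fin n => (x : K) ^ (i : ℕ)) := by
  rw [Algebra.discr_def]
  have h1 : Algebra.traceMatrix ℚ (fun i : Fin n => (x : K) ^ (i : ℕ)) =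
      (gramT K fun (i : Fin n) (_ : Unit) => x ^ (i : ℕ)).map (Int.castRingHom ℚ) := by
    ext i j
    rw [Algebra.traceMatrix_apply, Algebra.traceForm_apply, Matrix.map_apply, gramT,
      Matrix.of_apply, Finset.univ_unique, Finset.sum_singleton]
    change _ = (((Algebra.trace ℤ (𝓞 K)) (x ^ (i : ℕ) * x ^ (j : ℕ)) : ℤ) : ℚ)
    rw [Algebra.coe_trace_int]
    rfl
  rw [h1]
  exact (Int.castRingHom ℚ).map_det _

private theorem dr_deg {K : Type*} [Field K] [NumberField K] (n : ℕ) (hn : finrank ℚ K = n)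
    (x : 𝓞 K) (hx : (gramT K fun (i : Fin n) (_ : Unit) => x ^ (i : ℕ)).det ≠ 0) :
    (minpoly ℚ (x : K)).natDegree = n := by
  have hli : LinearIndependent ℚ (fun i : Fin n => (x : K) ^ (i : ℕ)) := by
    by_contra hcon
    apply hx
    have h1 := dr_gram n x
    rw [Algebra.discr_zero_of_not_linearIndependent ℚ hcon] at h1
    exact_mod_cast h1
  have hint : IsIntegral ℚ (x : K) := IsIntegral.of_finite ℚ (x : K)
  refine le_antisymm ?_ ?_
  · rw [← hn]
    exact minpoly.natDegree_le (x : K)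
  · by_contra hcon
    push Not at hcon
    have h1 := minpoly.aeval ℚ (x : K)
    rw [Polynomial.aeval_eq_sum_range' hcon, ← Fin.sum_univ_eq_sum_range
      (fun i => (minpoly ℚ (x : K)).coeff i • (x : K) ^ i) n] at h1
    have h2 := Fintype.linearIndependent_iff.1 hli _ h1
    have h3 := h2 ⟨(minpoly ℚ (x : K)).natDegree, hcon⟩
    have h4 : (minpoly ℚ (x : K)).coeff (minpoly ℚ (x : K)).natDegree = 1 :=
      (minpoly.monic hint).coeff_natDegree
    change (minpoly ℚ (x : K)).coeff (minpoly ℚ (x : K)).natDegree = 0 at h3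
    rw [h4] at h3
    exact one_ne_zero h3

private theorem dr_map {K : Type*} [Field K] [NumberField K] (x : 𝓞 K) :
    minpoly ℚ (x : K) = (minpoly ℤ x).map (algebraMap ℤ ℚ) :=
  minpoly.isIntegrallyClosed_eq_field_fractions ℚ K (RingOfIntegers.isIntegral x)

private theorem dr_norm {K : Type*} [Field K] [NumberField K] (n : ℕ) (hn : finrank ℚ K = n)
    (x : 𝓞 K) (hx : (minpoly ℚ (x : K)).natDegree = n) :
    ∃ e : ℕ, Algebra.discr ℚ (fun i : Fin n => (x : K) ^ (i : ℕ)) =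
      (-1) ^ e * Algebra.norm ℚ (Polynomial.aeval (x : K) (minpoly ℚ (x : K)).derivative) := by
  have hint : IsIntegral ℚ (x : K) := IsIntegral.of_finite ℚ (x : K)
  have htop : IntermediateField.adjoin ℚ {(x : K)} = ⊤ :=
    (Field.primitive_element_iff_minpoly_natDegree_eq ℚ (x : K)).2 (hx.trans hn.symm)
  have htop' : Algebra.adjoin ℚ {(x : K)} = ⊤ := by
    rw [← IntermediateField.adjoin_simple_toSubalgebra_of_isAlgebraic hint.isAlgebraic, htop,
      IntermediateField.top_toSubalgebra]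
  obtain ⟨pb, hpb⟩ : ∃ pb : PowerBasis ℚ K, pb.gen = (x : K) :=
    ⟨PowerBasis.ofAdjoinEqTop hint htop', PowerBasis.ofAdjoinEqTop_gen hint htop'⟩
  have hdim : pb.dim = n := by rw [← pb.finrank, hn]
  have h1 := Algebra.discr_powerBasis_eq_norm ℚ pb
  rw [hpb] at h1
  refine ⟨_, Eq.trans ?_ h1⟩
  have h2 : (fun i : Fin n => (x : K) ^ (i : ℕ)) = pb.basis ∘ (finCongr hdim.symm) := by
    funext i
    rw [Function.comp_apply, pb.basis_eq_pow, hpb]
    rfl
  rw [h2]
  exact Algebra.discr_reindex ℚ pb.basis (finCongr hdim)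

theorem der_unit {K : Type*} [Field K] [NumberField K] (n : ℕ) (hn : finrank ℚ K = n) (x : 𝓞 K)
    (hx : (gramT K fun (i : Fin n) (_ : Unit) => x ^ (i : ℕ)).det ≠ 0) :
    (minpoly ℤ x).Monic ∧ (minpoly ℤ x).natDegree = n ∧
      ∀ p : ℕ, p.Prime → ¬ (p : ℤ) ∣ (gramT K fun (i : Fin n) (_ : Unit) => x ^ (i : ℕ)).det →
        IsUnit (Ideal.Quotient.mk (Ideal.span {(p : 𝓞 K)})
          (Polynomial.aeval x (Polynomial.derivative (minpoly ℤ x)))) := by
  have hmon : (minpoly ℤ x).Monic := minpoly.monic (RingOfIntegers.isIntegral x)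
  have hdeg := dr_deg n hn x hx
  refine ⟨hmon, ?_, fun p hp hpd => ?_⟩
  · rw [dr_map, hmon.natDegree_map] at hdeg
    exact hdeg
  · set z : 𝓞 K := Polynomial.aeval x (Polynomial.derivative (minpoly ℤ x)) with hz
    obtain ⟨e, he⟩ := dr_norm n hn x hdeg
    have h1 : Polynomial.aeval (x : K) (minpoly ℚ (x : K)).derivative = (z : K) := by
      rw [dr_map, Polynomial.derivative_map, Polynomial.aeval_map_algebraMap, hz]
      exact Polynomial.aeval_algebraMap_apply K x _
    rw [h1, ← dr_gram, ← Algebra.coe_norm_int] at he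
    have h2 : (gramT K fun (i : Fin n) (_ : Unit) => x ^ (i : ℕ)).det =
        (-1) ^ e * Algebra.norm ℤ z := by exact_mod_cast he
    have h3 : ¬ (p : ℤ) ∣ Algebra.norm ℤ z := by
      intro h
      apply hpd
      rw [h2]
      exact h.mul_left _
    have h4 : IsCoprime (p : ℤ) (Algebra.norm ℤ z) :=
      (Nat.prime_iff_prime_int.1 hp).coprime_iff_not_dvd.2 h3
    obtain ⟨u, v, huv⟩ := h4
    have h5 : z ∣ ((Algebra.norm ℤ z : ℤ) : 𝓞 K) := by
      have h6 := Ideal.absNorm_mem (Ideal.span {z})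
      rw [Ideal.mem_span_singleton, Ideal.absNorm_span_singleton] at h6
      have h6' : z ∣ ((((Algebra.norm ℤ z).natAbs : ℕ) : ℤ) : 𝓞 K) := by
        rw [Int.cast_natCast]
        exact h6
      rcases Int.natAbs_eq (Algebra.norm ℤ z) with h7 | h7
      · rw [h7]
        exact h6'
      · rw [h7, Int.cast_neg, dvd_neg]
        exact h6'
    refine isUnit_of_dvd_unit (map_dvd _ h5) ?_
    refine IsUnit.of_mul_eq_one_right (Ideal.Quotient.mk _ ((v : ℤ) : 𝓞 K)) ?_
    rw [← map_mul, ← map_one (Ideal.Quotient.mk (Ideal.span {(p : 𝓞 K)})), Ideal.Quotient.eq,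
      Ideal.mem_span_singleton]
    refine ⟨-((u : ℤ) : 𝓞 K), ?_⟩
    have h8 := congrArg (Int.cast : ℤ → 𝓞 K) huv
    push_cast at h8 ⊢
    linear_combination h8

theorem der_inj {K : Type*} [Field K] [NumberField K] (n : ℕ) (x : 𝓞 K)
    (p : ℕ) (hp : p.Prime)
    (hx : ¬ (p : ℤ) ∣ (gramT K fun (i : Fin n) (_ : Unit) => x ^ (i : ℕ)).det)
    (ρ : Polynomial ℤ) (hρ : ρ.degree < n) (h : (p : 𝓞 K) ∣ Polynomial.aeval x ρ) :
    Polynomial.C (p : ℤ) ∣ ρ := by
  rw [Polynomial.C_dvd_iff_dvd_coeff]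
  intro i
  by_cases hi : i < n
  · have h1 : Polynomial.aeval x ρ = ∑ b : Fin n, ((ρ.coeff b : ℤ) : 𝓞 K) * x ^ (b : ℕ) := by
      by_cases h0 : ρ = 0
      · rw [h0]
        simp
      · have hd : ρ.natDegree < n := (Polynomial.natDegree_lt_iff_degree_lt h0).2 hρ
        rw [Polynomial.aeval_eq_sum_range' hd, ← Fin.sum_univ_eq_sum_range
          (fun i => ρ.coeff i • x ^ i) n]
        refine Finset.sum_congr rfl fun b _ => ?_
        rw [zsmul_eq_mul]
    rw [h1] at h
    exact gram_inj _ p hp hx (fun b => ρ.coeff b) (fun _ => h) ⟨i, hi⟩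
  · rw [Polynomial.coeff_eq_zero_of_degree_lt (hρ.trans_le (by exact_mod_cast not_lt.1 hi))]
    exact dvd_zero _

theorem der_surj {K : Type*} [Field K] [NumberField K] (n : ℕ) (hn : finrank ℚ K = n) (x : 𝓞 K)
    (p : ℕ) (hp : p.Prime)
    (hx : ¬ (p : ℤ) ∣ (gramT K fun (i : Fin n) (_ : Unit) => x ^ (i : ℕ)).det) (y : 𝓞 K) :
    ∃ c : Fin n → Fin p, (p : 𝓞 K) ∣ y - Polynomial.aeval x
      (∑ i, Polynomial.C ((c i : ℕ) : ℤ) * Polynomial.X ^ (i : ℕ)) := by
  obtain ⟨c, hc⟩ := gram_surj (by rw [Fintype.card_fin, hn, Fintype.card_unit, mul_one]) _ p hp hx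
    (fun _ => y)
  have hp0 : (0 : ℤ) < p := by exact_mod_cast hp.pos
  have hc' := hc ()
  refine ⟨fun i => ⟨(c i % p).toNat, ?_⟩, ?_⟩
  · have h1 := Int.emod_lt_of_pos (c i) hp0
    have h2 := Int.emod_nonneg (c i) hp0.ne'
    omega
  · have h1 : Polynomial.aeval x (∑ i : Fin n, Polynomial.C (((c i % p).toNat : ℕ) : ℤ) *
        Polynomial.X ^ (i : ℕ)) = ∑ i : Fin n, ((c i % p : ℤ) : 𝓞 K) * x ^ (i : ℕ) := by
      rw [map_sum]
      refine Finset.sum_congr rfl fun i _ => ?_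
      rw [map_mul, map_pow, Polynomial.aeval_X, Polynomial.aeval_C,
        Int.toNat_of_nonneg (Int.emod_nonneg (c i) hp0.ne')]
      rfl
    change (p : 𝓞 K) ∣ y - Polynomial.aeval x (∑ i : Fin n,
      Polynomial.C (((c i % p).toNat : ℕ) : ℤ) * Polynomial.X ^ (i : ℕ))
    rw [h1]
    have h2 : y - ∑ i : Fin n, ((c i % p : ℤ) : 𝓞 K) * x ^ (i : ℕ) =
        (y - ∑ i : Fin n, ((c i : ℤ) : 𝓞 K) * x ^ (i : ℕ)) +
          (p : 𝓞 K) * ∑ i : Fin n, ((c i / p : ℤ) : 𝓞 K) * x ^ (i : ℕ) := by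
      have h3 : ∀ i : Fin n, ((c i : ℤ) : 𝓞 K) * x ^ (i : ℕ) =
          ((c i % p : ℤ) : 𝓞 K) * x ^ (i : ℕ) + (p : 𝓞 K) * (((c i / p : ℤ) : 𝓞 K) * x ^ (i : ℕ)) := by
        intro i
        have h4 := congrArg (Int.cast : ℤ → 𝓞 K) (Int.emod_add_mul_ediv (c i) p)
        push_cast at h4
        rw [← h4]
        ring
      rw [Finset.sum_congr rfl fun i _ => h3 i, Finset.sum_add_distrib, Finset.mul_sum]
      ring
    rw [h2]
    exact dvd_add hc' (dvd_mul_right _ _)

end NFH
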