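import Pool.Agent.Lib.NFH.Defs2
import Pool.Agent.Lib.NFH.Der

/-!
MP_44a56e_nt (second proof), module Cls (about 150 lines): the class of a tuple.

PROOF of `exists_cl`. Let `g = minpoly ℤ (x 0)`, monic of degree `n` (`der_unit`). Reduce the coefficients of `g` of index `< n` modulo `p` to `[0,p)`: `c.1`, so `g - (X^n + pol c.1)` has all coefficients divisible by `p`, and
`p ∣ aeval (x 0) (X^n + pol c.1)` because `aeval (x 0) g = 0`. `c.2 j` from `der_surj` applied to `y = x j.succ` (its sum is `pol`).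
`cl_unit`: `f = X^n + pol c.1`, `g = minpoly ℤ (x 0)`. `f - g` has degree `< n` and `p ∣ aeval (x 0) (f - g)`, so `C p ∣ f - g` by `der_inj`, so `C p ∣ f' - g'` and the classes modulo `p` of `f'(x 0)` and `g'(x 0)` agree; `der_unit`.
`cl_star`: the kernel of `F ↦ aeval x F mod p` contains the generators of `clsI` (`Ideal.span_le`): `aeval x (aeval (X 0) f) = aeval (x 0) f`.
`pol_monic`: `pol c` has degree `< n`.
-/

set_option autoImplicit false

open MvPolynomial Module NumberField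

namespace NFH

private theorem cls_deg {n p : ℕ} (c : Fin n → Fin p) : (pol c).degree < (n : WithBot ℕ) :=
  Polynomial.degree_sum_fin_lt (fun i => ((c i : ℕ) : ℤ))

private theorem cls_coeff {n p : ℕ} (c : Fin n → Fin p) (k : ℕ) (hk : k < n) :
    (pol c).coeff k = ((c ⟨k, hk⟩ : ℕ) : ℤ) := by
  unfold pol
  rw [Polynomial.finsetSum_coeff]
  simp only [Polynomial.coeff_C_mul_X_pow]
  rw [Finset.sum_eq_single ⟨k, hk⟩]
  · rw [if_pos rfl]
  · intro j _ hj
    rw [if_neg]
    intro h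
    exact hj (Fin.ext h.symm)
  · intro h
    exact absurd (Finset.mem_univ _) h

private theorem cls_dvd {K : Type} [Field K] (y : 𝓞 K) (p : ℕ) (f : Polynomial ℤ)
    (h : Polynomial.C (p : ℤ) ∣ f) : (p : 𝓞 K) ∣ Polynomial.aeval y f := by
  obtain ⟨g, rfl⟩ := h
  rw [map_mul, Polynomial.aeval_C]
  exact ⟨Polynomial.aeval y g, by simp⟩

theorem exists_cl {K : Type} [Field K] [NumberField K] {n r : ℕ} (hn : finrank ℚ K = n)
    (x : Fin (r + 1) → 𝓞 K) (p : ℕ) (hp : p.Prime) (hx : ¬ (p : ℤ) ∣ det2 n x) :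
    ∃ c : Cl n r p, InCl x c := by
  have hdet : det2 n x ≠ 0 := fun h => hx (h ▸ dvd_zero _)
  obtain ⟨hmon, hdeg, -⟩ := der_unit n hn (x 0) hdet
  have hp0 : (0 : ℤ) < p := by exact_mod_cast hp.pos
  let c1 : Fin n → Fin p := fun i => ⟨((minpoly ℤ (x 0)).coeff i % p).toNat, by
    have h1 := Int.emod_nonneg ((minpoly ℤ (x 0)).coeff i) hp0.ne'
    have h2 := Int.emod_lt_of_pos ((minpoly ℤ (x 0)).coeff i) hp0
    omega⟩
  have hc1 : ∀ i, ((c1 i : ℕ) : ℤ) = (minpoly ℤ (x 0)).coeff i % p := fun i =>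
    Int.toNat_of_nonneg (Int.emod_nonneg _ hp0.ne')
  have hdvd : Polynomial.C (p : ℤ) ∣ (Polynomial.X ^ n + pol c1) - minpoly ℤ (x 0) := by
    rw [Polynomial.C_dvd_iff_dvd_coeff]
    intro i
    rw [Polynomial.coeff_sub, Polynomial.coeff_add, Polynomial.coeff_X_pow]
    rcases lt_trichotomy i n with hi | hi | hi
    · rw [if_neg hi.ne, cls_coeff c1 i hi, zero_add, hc1]
      have := Int.emod_add_mul_ediv ((minpoly ℤ (x 0)).coeff i) p
      exact ⟨-((minpoly ℤ (x 0)).coeff i / p), by simp only; linarith⟩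
    · rw [if_pos hi, Polynomial.coeff_eq_zero_of_degree_lt (by rw [hi]; exact cls_deg c1),
        hi, ← hdeg, hmon.coeff_natDegree]
      simp
    · rw [if_neg hi.ne', Polynomial.coeff_eq_zero_of_degree_lt
        ((cls_deg c1).trans (by exact_mod_cast hi)),
        Polynomial.coeff_eq_zero_of_natDegree_lt (by rw [hdeg]; exact hi)]
      simp
  choose c2 hc2 using fun j : Fin r => der_surj n hn (x 0) p hp hx (x j.succ)
  refine ⟨(c1, c2), ?_, fun j => hc2 j⟩
  have h1 := cls_dvd (x 0) p _ hdvd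
  rw [map_sub, minpoly.aeval, sub_zero] at h1
  exact h1

theorem pol_monic {n p : ℕ} (c : Fin n → Fin p) :
    (Polynomial.X ^ n + pol c).Monic ∧ (Polynomial.X ^ n + pol c).natDegree = n := by
  refine ⟨Polynomial.monic_X_pow_add (cls_deg c), ?_⟩
  apply Polynomial.natDegree_eq_of_degree_eq_some
  rw [Polynomial.degree_add_eq_left_of_degree_lt, Polynomial.degree_X_pow]
  rw [Polynomial.degree_X_pow]
  exact cls_deg c

theorem cl_unit {K : Type} [Field K] [NumberField K] {n r : ℕ} (hn : finrank ℚ K = n)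
    (x : Fin (r + 1) → 𝓞 K) (p : ℕ) (hp : p.Prime) (hx : ¬ (p : ℤ) ∣ det2 n x)
    (c : Cl n r p) (hc : InCl x c) :
    IsUnit (Ideal.Quotient.mk (Ideal.span {(p : 𝓞 K)})
      (Polynomial.aeval (x 0) (Polynomial.derivative (Polynomial.X ^ n + pol c.1)))) := by
  have hdet : det2 n x ≠ 0 := fun h => hx (h ▸ dvd_zero _)
  obtain ⟨hmon, hdeg, hun⟩ := der_unit n hn (x 0) hdet
  obtain ⟨hfm, hfd⟩ := pol_monic c.1
  have hdd : (Polynomial.X ^ n + pol c.1 - minpoly ℤ (x 0)).degree < (n : WithBot ℕ) := by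
    have h1 : (Polynomial.X ^ n + pol c.1).degree = (minpoly ℤ (x 0)).degree := by
      rw [Polynomial.degree_eq_natDegree hfm.ne_zero, Polynomial.degree_eq_natDegree hmon.ne_zero,
        hfd, hdeg]
    have h2 := Polynomial.degree_sub_lt_left h1 hfm.ne_zero (by rw [hfm.leadingCoeff, hmon.leadingCoeff])
    rwa [Polynomial.degree_eq_natDegree hfm.ne_zero, hfd] at h2
  have hdvd : (p : 𝓞 K) ∣ Polynomial.aeval (x 0) (Polynomial.X ^ n + pol c.1 - minpoly ℤ (x 0)) := by
    rw [map_sub, minpoly.aeval, sub_zero]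
    exact hc.1
  obtain ⟨ρ, hρ⟩ := der_inj n (x 0) p hp hx _ hdd hdvd
  have hf : Polynomial.X ^ n + pol c.1 = minpoly ℤ (x 0) + Polynomial.C (p : ℤ) * ρ := by
    rw [← hρ]
    ring
  have hder : Ideal.Quotient.mk (Ideal.span {(p : 𝓞 K)})
      (Polynomial.aeval (x 0) (Polynomial.derivative (Polynomial.X ^ n + pol c.1))) =
      Ideal.Quotient.mk (Ideal.span {(p : 𝓞 K)})
        (Polynomial.aeval (x 0) (Polynomial.derivative (minpoly ℤ (x 0)))) := by
    rw [Ideal.Quotient.eq, Ideal.mem_span_singleton, ← map_sub, ← Polynomial.derivative_sub]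
    apply cls_dvd
    rw [hρ, Polynomial.derivative_C_mul]
    exact dvd_mul_right _ _
  rw [hder]
  exact hun p hp hx

theorem cl_star {K : Type} [Field K] {n r p : ℕ} (x : Fin (r + 1) → 𝓞 K) (c : Cl n r p)
    (hc : InCl x c) (F : PZ (r + 1))
    (hF : F ∈ clsI p (Polynomial.X ^ n + pol c.1) (fun j => pol (c.2 j))) :
    (p : 𝓞 K) ∣ aeval x F := by
  have hle : clsI p (Polynomial.X ^ n + pol c.1) (fun j => pol (c.2 j)) ≤
      Ideal.comap (aeval x : PZ (r + 1) →ₐ[ℤ] 𝓞 K).toRingHom (Ideal.span {(p : 𝓞 K)}) := by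
    unfold clsI
    rw [Ideal.span_le]
    intro G hG
    rw [SetLike.mem_coe, Ideal.mem_comap, Ideal.mem_span_singleton]
    change (p : 𝓞 K) ∣ aeval x G
    rcases hG with (rfl | rfl) | ⟨j, rfl⟩
    · rw [map_natCast]
    · rw [← Polynomial.aeval_algHom_apply, aeval_X]
      exact hc.1
    · rw [map_sub, ← Polynomial.aeval_algHom_apply, aeval_X, aeval_X]
      exact hc.2 j
  have h1 := hle hF
  rw [Ideal.mem_comap, Ideal.mem_span_singleton] at h1
  exact h1

end NFH
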