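import Mathlib

/-!
MP_44a56e_nt (second proof), module Growth (about 150 lines): sublinear growth (real estimates).

PROOF of `growth`. Choose `θ'` with `max θ 0 < θ' < 1/2`, `a = 1/(1-θ')`, `1 < a < 2`, `d0 ≥ 1` with `A ≤ (θ' - θ) d0`. Let `H d = ∑_{e<d} h e`.
If the inequality holds for all `d ≤ d1` then for `d0 ≤ d ≤ d1`: `h d (1-θ') d ≤ H d`, i.e. `h d ≤ a H d / d`, and
`H (d+1) = H d + h d ≤ H d (1 + a/d) ≤ H d (1+1/d)^a` (Bernoulli: `one_add_mul_self_le_rpow_one_add` : `1 + a x ≤ (1+x)^a`, `a ≥ 1`), so by induction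
`H d ≤ H d0 (d/d0)^a ≤ C0 d^a` with `C0 = d0 (d0+1)^r` (as `H d0 ≤ d0 (d0+1)^r`, `d0 ≥ 1`) for `d0 ≤ d ≤ d1`, and `h d ≤ a C0 d^(a-1)`. Since
`a - 1 < 1` there is `d1 ≥ d0` with `a C0 d1^(a-1) ≤ d1` (`d1^(2-a) ≥ a C0`); it depends on `r, θ, A` only.
-/

set_option autoImplicit false

namespace NFH

theorem growth (r : ℕ) (θ A : ℝ) (hθ : θ < 1 / 2) : ∃ d1 : ℕ, ∀ h : ℕ → ℕ,
    (∀ d, h d ≤ (d + 1) ^ r) →
    (∀ d ≤ d1, (h d : ℝ) * ((1 - θ) * d - A) ≤ ∑ e ∈ Finset.range d, (h e : ℝ)) →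
    h d1 ≤ d1 := by
  obtain ⟨t, ht1, ht2⟩ := exists_between (max_lt hθ (by norm_num : (0:ℝ) < 1/2))
  have htθ : θ < t := (le_max_left _ _).trans_lt ht1
  have ht0 : 0 < t := (le_max_right _ _).trans_lt ht1
  have h1t : 0 < 1 - t := by linarith
  obtain ⟨a, ha⟩ : ∃ a : ℝ, a = 1 / (1 - t) := ⟨_, rfl⟩
  have ha1 : 1 < a := by
    rw [ha, lt_div_iff₀ h1t]; linarith
  have ha2 : a < 2 := by
    rw [ha, div_lt_iff₀ h1t]; linarith
  have hat : a * (1 - t) = 1 := by
    rw [ha]; field_simp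
  obtain ⟨d0', hd0'⟩ := exists_nat_ge (A / (t - θ))
  obtain ⟨d0, hd0⟩ : ∃ d0 : ℕ, d0 = d0' + 1 := ⟨_, rfl⟩
  have hd0A : A ≤ (t - θ) * d0 := by
    have hpos : 0 < t - θ := by linarith
    rw [div_le_iff₀ hpos] at hd0'
    rw [hd0]
    push_cast
    nlinarith
  have hd01 : (1:ℝ) ≤ d0 := by
    rw [hd0]; push_cast
    have : (0:ℝ) ≤ d0' := Nat.cast_nonneg _
    linarith
  obtain ⟨C, hC⟩ : ∃ C : ℝ, C = d0 * (d0 + 1) ^ r := ⟨_, rfl⟩
  have hC0 : 0 < C := by rw [hC]; positivity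
  have hlim : Filter.Tendsto (fun n : ℕ => ((n:ℝ)) ^ (2 - a)) Filter.atTop Filter.atTop :=
    (tendsto_rpow_atTop (by linarith)).comp tendsto_natCast_atTop_atTop
  obtain ⟨d1, hd1a, hd1b⟩ :=
    ((hlim.eventually_ge_atTop (a * C)).and (Filter.eventually_ge_atTop d0)).exists
  refine ⟨d1, fun h hr hin => ?_⟩
  -- the key inequality
  have hkey : ∀ d, d0 ≤ d → d ≤ d1 → (h d : ℝ) * d ≤ a * ∑ e ∈ Finset.range d, (h e : ℝ) := by
    intro d hd hd'
    have h1 := hin d hd'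
    have hdd : (d0 : ℝ) ≤ d := by exact_mod_cast hd
    have hh : (0:ℝ) ≤ h d := Nat.cast_nonneg _
    have h2 : (1 - t) * d ≤ (1 - θ) * d - A := by
      have : (t - θ) * d0 ≤ (t - θ) * d := mul_le_mul_of_nonneg_left hdd (by linarith)
      linarith
    have h3 : (h d : ℝ) * ((1 - t) * d) ≤ ∑ e ∈ Finset.range d, (h e : ℝ) :=
      (mul_le_mul_of_nonneg_left h2 hh).trans h1
    calc (h d : ℝ) * d = a * ((h d : ℝ) * ((1 - t) * d)) := by
          have : a * ((h d : ℝ) * ((1 - t) * d)) = (a * (1 - t)) * ((h d : ℝ) * d) := by ring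
          rw [this, hat, one_mul]
      _ ≤ _ := mul_le_mul_of_nonneg_left h3 (by linarith)
  -- induction
  have hind : ∀ d, d0 ≤ d → d ≤ d1 → ∑ e ∈ Finset.range d, (h e : ℝ) ≤ C * (d : ℝ) ^ a := by
    intro d hd
    induction d, hd using Nat.le_induction with
    | base =>
      intro _
      have h1 : ∑ e ∈ Finset.range d0, (h e : ℝ) ≤ ∑ e ∈ Finset.range d0, ((d0 : ℝ) + 1) ^ r := by
        refine Finset.sum_le_sum fun e he => ?_
        have h2 : ((h e : ℕ) : ℝ) ≤ (((e + 1) ^ r : ℕ) : ℝ) := by exact_mod_cast hr e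
        refine h2.trans ?_
        push_cast
        have h3 : (e : ℝ) ≤ d0 := by exact_mod_cast (Finset.mem_range.1 he).le
        have h4 : (0:ℝ) ≤ e := Nat.cast_nonneg _
        exact pow_le_pow_left₀ (by linarith) (by linarith) r
      rw [Finset.sum_const, Finset.card_range, nsmul_eq_mul, ← hC] at h1
      have h5 : (1:ℝ) ≤ (d0 : ℝ) ^ a := Real.one_le_rpow hd01 (by linarith)
      nlinarith
    | succ d hd ih =>
      intro hd'
      have ih' := ih (by omega)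
      have hk := hkey d hd (by omega)
      have hdd : (d0 : ℝ) ≤ d := by exact_mod_cast hd
      have hd1 : (1 : ℝ) ≤ d := hd01.trans hdd
      have hdpos : (0:ℝ) < d := by linarith
      rw [Finset.sum_range_succ]
      have hB : 1 + a * (1 / (d : ℝ)) ≤ (1 + 1 / (d : ℝ)) ^ a :=
        one_add_mul_self_le_rpow_one_add (by
          have : (0:ℝ) ≤ 1 / (d : ℝ) := by positivity
          linarith) ha1.le
      have hS : (0:ℝ) ≤ ∑ e ∈ Finset.range d, (h e : ℝ) :=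
        Finset.sum_nonneg fun _ _ => Nat.cast_nonneg _
      have h1 : (h d : ℝ) ≤ (∑ e ∈ Finset.range d, (h e : ℝ)) * (a * (1 / (d : ℝ))) := by
        have : (∑ e ∈ Finset.range d, (h e : ℝ)) * (a * (1 / (d : ℝ)))
            = (a * ∑ e ∈ Finset.range d, (h e : ℝ)) / d := by ring
        rw [this, le_div_iff₀ hdpos]
        exact hk
      calc (∑ e ∈ Finset.range d, (h e : ℝ)) + h d
          ≤ (∑ e ∈ Finset.range d, (h e : ℝ)) * (1 + a * (1 / (d : ℝ))) := by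
            rw [mul_add, mul_one]; linarith
        _ ≤ (C * (d : ℝ) ^ a) * (1 + 1 / (d : ℝ)) ^ a := by
            apply mul_le_mul ih' hB
            · have : (0:ℝ) ≤ a * (1 / (d : ℝ)) := by positivity
              linarith
            · positivity
        _ = C * ((d + 1 : ℕ) : ℝ) ^ a := by
            rw [mul_assoc, ← Real.mul_rpow hdpos.le (by positivity)]
            congr 2
            push_cast
            field_simp
  have hd1pos : (1:ℝ) ≤ d1 := by
    have : (d0 : ℝ) ≤ d1 := by exact_mod_cast hd1b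
    linarith
  have hpos : (0:ℝ) < d1 := by linarith
  have hf1 := hkey d1 hd1b le_rfl
  have hf2 := hind d1 hd1b le_rfl
  have hf3 : (h d1 : ℝ) * d1 ≤ (d1 : ℝ) * d1 := by
    calc (h d1 : ℝ) * d1 ≤ a * (C * (d1 : ℝ) ^ a) :=
          hf1.trans (mul_le_mul_of_nonneg_left hf2 (by linarith))
      _ = (a * C) * (d1 : ℝ) ^ a := by ring
      _ ≤ (d1 : ℝ) ^ (2 - a) * (d1 : ℝ) ^ a :=
          mul_le_mul_of_nonneg_right hd1a (by positivity)
      _ = (d1 : ℝ) * d1 := by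
          rw [← Real.rpow_add hpos]
          have : 2 - a + a = ((2 : ℕ) : ℝ) := by push_cast; ring
          rw [this, Real.rpow_natCast]
          ring
  have hf4 : (h d1 : ℝ) ≤ d1 := le_of_mul_le_mul_right hf3 hpos
  exact_mod_cast hf4

end NFH
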