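import Pool.Agent.Lib.NFH.ModP

/-!
MP_44a56e_nt (second proof), module Index (about 220 lines): the index bound.

NOTATION. `V_d = VZ r d` (`mem_restrictTotalDegree`: `F ∈ V_d ↔ F.totalDegree ≤ d`), `W_T = a^T ⊔ I`, `Q_T = QQ I a d T = V_d ⧸ (W_T ∩ V_d)`,
`e_t = min d (D (t/s+1) + D r)`.
PROOF of `card_le` by induction on `T`. `T = 0`: `a ^ 0 = ⊤`, the quotient is trivial (card 1, empty product).
Step `T → T+1`: claim `card Q_(T+1) ≤ p^(h e_T) * card Q_T`.
(1) Let `N` be the image of multiplication by `p` on `Q_(T+1)`. `V_d → N`, `v ↦ p [v]`, is onto and kills `W_T ∩ V_d`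
(`v = v1 + v2`, `v1 ∈ a^T`, `v2 ∈ I`: `p v1 ∈ a^(T+1)` as `p ∈ a`, `p v2 ∈ I`), so it factors over `Q_T` and `card N ≤ card Q_T`.
(2) `Q_(T+1) / N`: let `e = e_T`, `g = T/s + 1`, so `s g ≥ T + 1` (`Nat.lt_mul_div_succ`). Let `M_e` be the image of `V_e` in `PZ r ⧸ I` (finitely
generated: `V_e` is spanned by finitely many monomials, torsion free by `hsat`), `finrank = hz I e`. The map `V_e → Q_(T+1)/N` (inclusion,
`V_e ⊆ V_d` as `e ≤ d`) is onto: `v ∈ V_d`, `E` from `hexp d g v`, `E ∈ V_e` and `v - E ∈ a^(s g) ≤ a^(T+1)`; it kills `I ∩ V_e` and `p V_e`, so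
`card (Q_(T+1)/N) ≤ card (M_e / p M_e) ≤ p^(h e)` (`card_modp`).
(3) `card Q_(T+1) = card N * card (Q_(T+1)/N)` (`Submodule.card_eq_card_quotient_mul_card` / `AddSubgroup.card_eq_card_quotient_mul_card_addSubgroup`).
Finiteness along the way (a group with finite `N` and finite quotient is finite, e.g. `AddSubgroup` version of
`Finite.of_subgroup_quotient` or by the surjection from `N × quotient`). A convenient way to get (1)+(2)+(3) at once: the map
`Q_T × (M_e / p M_e) → Q_(T+1)`, given by chosen lifts, `([v],[w]) ↦ [p v + w]`, is onto: for `u ∈ V_d` choose `E ∈ V_e` with `[u] = [E]` in `Q_(T+1)`, the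
chosen lift `w ∈ V_e` of the class of `E` in `M_e/pM_e` satisfies `E - w = p w' + i`, `w' ∈ V_e`, `i ∈ I`, and `p w'` and `p v` (`v` the chosen lift of the class of `w'` in `Q_T`)
have the same class in `Q_(T+1)`.
-/

set_option autoImplicit false

open MvPolynomial Module NumberField

namespace NFH

private theorem ix_free {r : ℕ} (I : Ideal (PZ r))
    (hsat : ∀ F : PZ r, ∀ n : ℤ, n ≠ 0 → C n * F ∈ I → F ∈ I) (e : ℕ) :
    IsTorsionFree ℤ ((VZ r e).map (Ideal.Quotient.mkₐ ℤ I).toLinearMap) := by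
  refine Module.IsTorsionFree.of_smul_eq_zero fun n m h => ?_
  by_cases hn : n = 0
  · exact Or.inl hn
  · right
    obtain ⟨m, v, hv, rfl⟩ := m
    apply Subtype.ext
    have h1 : n • (Ideal.Quotient.mkₐ ℤ I) v = 0 := congrArg Subtype.val h
    rw [← map_smul] at h1
    have h2 : n • v ∈ I := Ideal.Quotient.eq_zero_iff_mem.1 h1
    have h3 : C n * v ∈ I := by
      rw [← smul_eq_C_mul]
      exact h2
    exact Ideal.Quotient.eq_zero_iff_mem.2 (hsat v n hn h3)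

private theorem ix_step {r : ℕ} (D s p : ℕ) (hs : 1 ≤ s) (hp : 0 < p) (I a : Ideal (PZ r))
    (hpa : (p : PZ r) ∈ a)
    (hsat : ∀ F : PZ r, ∀ n : ℤ, n ≠ 0 → C n * F ∈ I → F ∈ I)
    (hexp : ∀ (d g : ℕ) (F : PZ r), F.totalDegree ≤ d →
      ∃ E : PZ r, E.totalDegree ≤ min d (D * g + D * r) ∧ F - E ∈ a ^ (s * g))
    (d T : ℕ) (hfin : Finite (QQ I a d T)) :
    Finite (QQ I a d (T + 1)) ∧ Nat.card (QQ I a d (T + 1)) ≤
      Nat.card (QQ I a d T) * p ^ hz I (min d (D * (T / s + 1) + D * r)) := by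
  set e := min d (D * (T / s + 1) + D * r) with he
  have hed : e ≤ d := min_le_left _ _
  have hfree := ix_free I hsat e
  obtain ⟨hfin2, hcard2⟩ := card_modp
    (M := ((VZ r e).map (Ideal.Quotient.mkₐ ℤ I).toLinearMap)) p hp
  -- lifts
  have hl1 : ∀ q : QQ I a d T, ∃ v : VZ r d, Submodule.Quotient.mk v = q :=
    fun q => Submodule.Quotient.mk_surjective _ q
  choose l1 hl1' using hl1
  have hl2 : ∀ m : ((VZ r e).map (Ideal.Quotient.mkₐ ℤ I).toLinearMap : Submodule ℤ _) ⧸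
      LinearMap.range (LinearMap.lsmul ℤ
        ((VZ r e).map (Ideal.Quotient.mkₐ ℤ I).toLinearMap) (p : ℤ)),
      ∃ w : PZ r, ∃ hw : w ∈ VZ r e,
        Submodule.Quotient.mk (⟨Ideal.Quotient.mkₐ ℤ I w, ⟨w, hw, rfl⟩⟩ :
          ((VZ r e).map (Ideal.Quotient.mkₐ ℤ I).toLinearMap)) = m := by
    intro m
    obtain ⟨⟨m', w, hw, rfl⟩, rfl⟩ := Submodule.Quotient.mk_surjective _ m
    exact ⟨w, hw, rfl⟩
  choose l2 hl2' hl2'' using hl2
  have hmono : ∀ w : PZ r, w ∈ VZ r e → w ∈ VZ r d := by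
    intro w hw
    rw [mem_restrictTotalDegree] at hw ⊢
    exact hw.trans hed
  let f : QQ I a d T × (((VZ r e).map (Ideal.Quotient.mkₐ ℤ I).toLinearMap : Submodule ℤ _) ⧸
      LinearMap.range (LinearMap.lsmul ℤ
        ((VZ r e).map (Ideal.Quotient.mkₐ ℤ I).toLinearMap) (p : ℤ))) → QQ I a d (T + 1) :=
    fun x => Submodule.Quotient.mk ((p : ℤ) • l1 x.1 + ⟨l2 x.2, hmono _ (hl2' x.2)⟩)
  have hsurj : Function.Surjective f := by
    intro u
    obtain ⟨⟨u, hu⟩, rfl⟩ := Submodule.Quotient.mk_surjective _ u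
    obtain ⟨E, hE1, hE2⟩ := hexp d (T / s + 1) u ((mem_restrictTotalDegree _ _ _).1 hu)
    have hE : E ∈ VZ r e := (mem_restrictTotalDegree _ _ _).2 hE1
    set m : ((VZ r e).map (Ideal.Quotient.mkₐ ℤ I).toLinearMap : Submodule ℤ _) ⧸
      LinearMap.range (LinearMap.lsmul ℤ
        ((VZ r e).map (Ideal.Quotient.mkₐ ℤ I).toLinearMap) (p : ℤ)) :=
      Submodule.Quotient.mk ⟨Ideal.Quotient.mkₐ ℤ I E, ⟨E, hE, rfl⟩⟩ with hm
    have h1 := hl2'' m
    rw [hm] at h1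
    rw [← hm] at h1
    have h2 := (Submodule.Quotient.eq _).1 h1
    obtain ⟨⟨z', w', hw', rfl⟩, hz⟩ := h2
    have h3 : (p : ℤ) • (Ideal.Quotient.mkₐ ℤ I) w' =
        (Ideal.Quotient.mkₐ ℤ I) (l2 m) - (Ideal.Quotient.mkₐ ℤ I) E := congrArg Subtype.val hz
    rw [← map_smul, ← map_sub] at h3
    have h4 : (p : ℤ) • w' - (l2 m - E) ∈ I := by
      have := Ideal.Quotient.eq.1 h3
      exact this
    refine ⟨(Submodule.Quotient.mk ⟨-w', hmono _ ((VZ r e).neg_mem hw')⟩, m), ?_⟩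
    set q : QQ I a d T := Submodule.Quotient.mk ⟨-w', hmono _ ((VZ r e).neg_mem hw')⟩ with hq
    have h5 := hl1' q
    rw [hq] at h5
    rw [← hq] at h5
    have h6 := (Submodule.Quotient.eq _).1 h5
    have h7 : ((l1 q : VZ r d) : PZ r) - (-w') ∈ a ^ T ⊔ I := h6
    change (Submodule.Quotient.mk ((p : ℤ) • l1 q + ⟨l2 m, hmono _ (hl2' m)⟩) : QQ I a d (T + 1)) =
      Submodule.Quotient.mk ⟨u, hu⟩
    rw [Submodule.Quotient.eq]
    change ((p : ℤ) • ((l1 q : VZ r d) : PZ r) + l2 m) - u ∈ a ^ (T + 1) ⊔ I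
    have h8 : (p : PZ r) * (((l1 q : VZ r d) : PZ r) - (-w')) ∈ a ^ (T + 1) ⊔ I := by
      obtain ⟨y, hy, z, hz, hyz⟩ := Submodule.mem_sup.1 h7
      rw [← hyz, mul_add]
      refine Submodule.add_mem_sup ?_ (I.mul_mem_left _ hz)
      rw [pow_succ']
      exact Ideal.mul_mem_mul hpa hy
    have h9 : u - E ∈ a ^ (T + 1) ⊔ I := by
      refine Submodule.mem_sup_left (Ideal.pow_le_pow_right ?_ hE2)
      have := Nat.lt_mul_div_succ T (show 0 < s from hs)
      omega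
    have h10 : (p : ℤ) • w' - (l2 m - E) ∈ a ^ (T + 1) ⊔ I := Submodule.mem_sup_right h4
    have h11 : ((p : ℤ) • ((l1 q : VZ r d) : PZ r) + l2 m) - u =
        (p : PZ r) * (((l1 q : VZ r d) : PZ r) - (-w')) - (u - E) -
          ((p : ℤ) • w' - (l2 m - E)) := by
      rw [zsmul_eq_mul, zsmul_eq_mul, Int.cast_natCast]
      ring
    rw [h11]
    exact sub_mem (sub_mem h8 h9) h10
  refine ⟨Finite.of_surjective f hsurj, ?_⟩
  refine (Nat.card_le_card_of_surjective f hsurj).trans ?_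
  rw [Nat.card_prod]
  exact Nat.mul_le_mul_left _ hcard2

theorem card_le {r : ℕ} (D s p : ℕ) (hs : 1 ≤ s) (hp : 0 < p) (I a : Ideal (PZ r))
    (hpa : (p : PZ r) ∈ a)
    (hsat : ∀ F : PZ r, ∀ n : ℤ, n ≠ 0 → C n * F ∈ I → F ∈ I)
    (hexp : ∀ (d g : ℕ) (F : PZ r), F.totalDegree ≤ d →
      ∃ E : PZ r, E.totalDegree ≤ min d (D * g + D * r) ∧ F - E ∈ a ^ (s * g))
    (d T : ℕ) :
    Finite (QQ I a d T) ∧ Nat.card (QQ I a d T) ≤
      p ^ ∑ t ∈ Finset.range T, hz I (min d (D * (t / s + 1) + D * r)) := by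
  induction T with
  | zero =>
    have h1 : Submodule.comap (VZ r d).subtype ((a ^ 0 ⊔ I).restrictScalars ℤ) = ⊤ := by
      rw [pow_zero, Ideal.one_eq_top, top_sup_eq]
      rfl
    have h2 : Subsingleton (QQ I a d 0) := Submodule.Quotient.subsingleton_iff.2 h1
    refine ⟨inferInstance, ?_⟩
    rw [Finset.sum_range_zero, pow_zero]
    exact Finite.card_le_one_iff_subsingleton.2 h2
  | succ T ih =>
    obtain ⟨hf, hc⟩ := ih
    obtain ⟨hf', hc'⟩ := ix_step D s p hs hp I a hpa hsat hexp d T hf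
    refine ⟨hf', hc'.trans ?_⟩
    rw [Finset.sum_range_succ, pow_add]
    exact Nat.mul_le_mul_right _ hc

end NFH
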