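import Pool.Agent.Lib.NFH.HzB

/-!
MP_44a56e_nt (second proof), module Pigeon (about 100 lines): the pigeonhole step.

PROOF of `pigeon`. `S` from `exists_monomials I hsat d`. The maps `c : S → Fin (B+1)` are `(B+1)^(hz I d)` in number; send `c` to the class of
`∑_{β ∈ S} c_β Y^β ∈ V_d` in the finite group `QQ I a d T`; two different `c, c'` have the same class
(`Finite.exists_ne_map_eq_of_infinite`-style for cardinalities: `Fintype.exists_ne_map_eq_of_card_lt`). `F = ∑ (c_β - c'_β) Y^β`: coefficients in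
`[-B, B]`, in `a^T ⊔ I`, support inside `S`, and `F ∉ I` because of the last property of `S`.
-/

set_option autoImplicit false

open MvPolynomial Module NumberField

namespace NFH

theorem pigeon {r : ℕ} (I a : Ideal (PZ r))
    (hsat : ∀ F : PZ r, ∀ n : ℤ, n ≠ 0 → C n * F ∈ I → F ∈ I) (d T B : ℕ)
    (hfin : Finite (QQ I a d T)) (h : Nat.card (QQ I a d T) < (B + 1) ^ hz I d) :
    ∃ F : PZ r, F ∉ I ∧ F ∈ a ^ T ⊔ I ∧ F.totalDegree ≤ d ∧ F.support.card ≤ hz I d ∧
      ∀ β, |F.coeff β| ≤ B := by
  classical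
  obtain ⟨S, hS, hcard, hind⟩ := exists_monomials I hsat d
  let E : (S → Fin (B + 1)) → (Fin r →₀ ℕ) → ℤ := fun c β =>
    if h : β ∈ S then ((c ⟨β, h⟩ : ℕ) : ℤ) else 0
  have hE : ∀ c β, 0 ≤ E c β ∧ E c β ≤ B := by
    intro c β
    simp only [E]
    split_ifs with h
    · have := (c ⟨β, h⟩).2
      constructor
      · positivity
      · exact_mod_cast Nat.lt_succ_iff.mp this
    · exact ⟨le_refl _, by positivity⟩
  let P : (S → Fin (B + 1)) → PZ r := fun c => ∑ β ∈ S, monomial β (E c β)
  have hPd : ∀ c, P c ∈ VZ r d := by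
    intro c
    refine Submodule.sum_mem _ fun β hβ => ?_
    rw [mem_restrictTotalDegree]
    refine (totalDegree_monomial_le β _).trans ?_
    have h1 := mem_mon.mp (hS hβ)
    exact h1
  let q : (S → Fin (B + 1)) → QQ I a d T := fun c => Submodule.Quotient.mk ⟨P c, hPd c⟩
  have : Fintype (QQ I a d T) := Fintype.ofFinite _
  have hlt : Fintype.card (QQ I a d T) < Fintype.card (S → Fin (B + 1)) := by
    rw [← Nat.card_eq_fintype_card, Fintype.card_fun, Fintype.card_fin, Fintype.card_coe, hcard]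
    exact h
  obtain ⟨c, c', hne, heq⟩ := Fintype.exists_ne_map_eq_of_card_lt q hlt
  have hsub : P c - P c' = ∑ β ∈ S, monomial β (E c β - E c' β) := by
    simp only [P]
    rw [← Finset.sum_sub_distrib]
    refine Finset.sum_congr rfl fun β _ => ?_
    rw [map_sub]
  have hcoef : ∀ β, (P c - P c').coeff β = if β ∈ S then E c β - E c' β else 0 := by
    intro β
    rw [hsub, coeff_sum]
    simp only [coeff_monomial]
    rw [Finset.sum_ite_eq']
  refine ⟨P c - P c', ?_, ?_, ?_, ?_, ?_⟩
  · intro hI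
    rw [hsub] at hI
    apply hne
    funext β
    have h1 := hind (fun β => E c β - E c' β) hI β.1 β.2
    simp only [E, β.2, dif_pos] at h1
    apply Fin.ext
    have h2 : ((c ⟨β.1, β.2⟩ : ℕ) : ℤ) = ((c' ⟨β.1, β.2⟩ : ℕ) : ℤ) := by linarith
    exact_mod_cast h2
  · have h1 := (Submodule.Quotient.eq _).mp heq
    exact h1
  · have h1 : P c - P c' ∈ VZ r d := Submodule.sub_mem _ (hPd c) (hPd c')
    exact (mem_restrictTotalDegree _ _ _).mp h1
  · rw [← hcard]
    refine Finset.card_le_card fun β hβ => ?_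
    rw [MvPolynomial.mem_support_iff, hcoef] at hβ
    by_contra hcon
    rw [if_neg hcon] at hβ
    exact hβ rfl
  · intro β
    rw [hcoef]
    split_ifs
    · have h1 := hE c β
      have h2 := hE c' β
      rw [abs_le]
      constructor <;> linarith [h1.1, h1.2, h2.1, h2.2]
    · rw [abs_zero]
      positivity

end NFH
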