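import Mathlib

/-!
MP_44a56e_nt (second proof), module RealI (about 200 lines): from the pigeonhole inequality to the inequality for the Hilbert
function (real estimates, no algebra).

PROOF of `ineq_real`. `d = 0`: the left side is `≤ 0`. Let `1 ≤ d ≤ d1`, `G = ⌈d/D⌉ = (d + D - 1)/D`, `T = s G ≥ 1`, `h = h d ≥ 1`,
`B + 1 = ⌈p^T / (h R^d)⌉` (a positive integer), so `B < p^T/(h R^d)`, i.e. `h B R^d < p^T`, and `B + 1 ≥ p^T/(h R^d)`. `H` gives
`(p^T/(h R^d))^h ≤ (B+1)^h ≤ p^Σ`, `Σ = ∑_{t<T} h (min d (D(t/s+1)+Dr))`. Take logarithms to base `p` (`p ≥ 2`): `h (T - log_p(R^d) - log_p h) ≤ Σ`,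
`log_p (R^d) ≤ d / c` (`hpR`), `log_p h ≤ 1` (`h ≤ (d+1)^r ≤ (d1+1)^r ≤ p`): `h (T - d/c - 1) ≤ Σ`.
`Σ = s ∑_{g=1}^{G} h (min d (D (g + r)))` (blocks of length `s`: `Finset.sum_range` over `t = s g' + i`, or
`Finset.sum_nat_mod`/ induction on `G`: `∑_{t < s(G+1)} f (t/s) = ∑_{t < sG} f (t/s) + s f G`).
Claim `∑_{g=1}^G h(min d (D(g+r))) ≤ (r+2) h d + (1/D) ∑_{e<d} h e`: if `D (g+r+1) > d` use `≤ h d`, there are at most `r + 2` such `g ≤ G` (`g > d/D - r - 1`);
the other `g`: `D h(D(g+r)) ≤ ∑_{e ∈ [D(g+r), D(g+r+1))} h e`, disjoint intervals contained in `[0, d)`.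
Multiply `h (s G - d/c - 1) ≤ s ((r+2) h + (1/D) ∑)` by `D/s` and use `s G ≥ s d / D`, `D/s ≤ D`:
`h ((1 - (D/s)/c) d - D (r+3)) ≤ ∑_{e<d} h e`.
-/

set_option autoImplicit false

namespace NFH

private theorem ri_blk (f : ℕ → ℕ) (D : ℕ) : ∀ N : ℕ,
    ∑ e ∈ Finset.range (D * N), f e
      = ∑ q ∈ Finset.range N, ∑ j ∈ Finset.range D, f (D * q + j) := by
  intro N
  induction N with
  | zero => simp
  | succ N ih => rw [Nat.mul_succ, Finset.sum_range_add, ih, Finset.sum_range_succ]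

private theorem ri_div (F : ℕ → ℕ) (s : ℕ) (hs : 1 ≤ s) (G : ℕ) :
    ∑ t ∈ Finset.range (s * G), F (t / s) = s * ∑ g ∈ Finset.range G, F g := by
  induction G with
  | zero => simp
  | succ G ih =>
    rw [Nat.mul_succ, Finset.sum_range_add, ih, Finset.sum_range_succ, mul_add]
    congr 1
    have h1 : ∀ j ∈ Finset.range s, F ((s * G + j) / s) = F G := by
      intro j hj
      rw [Nat.mul_add_div (by omega), Nat.div_eq_of_lt (Finset.mem_range.mp hj), add_zero]
    rw [Finset.sum_congr rfl h1]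
    simp

private theorem ri_comb (r D d G : ℕ) (h : ℕ → ℕ) (hmono : Monotone h)
    (hG1 : d ≤ D * G) (hG2 : D * G ≤ d + D) :
    D * ∑ g ∈ Finset.range G, h (min d (D * (g + 1) + D * r))
      ≤ ∑ e ∈ Finset.range d, h e + D * (r + 2) * h d := by
  have h1 : ∑ e ∈ Finset.range (D * (r + 1 + G)), h (min d e)
      = ∑ q ∈ Finset.range (r + 1 + G), ∑ j ∈ Finset.range D, h (min d (D * q + j)) :=
    ri_blk (fun e => h (min d e)) D (r + 1 + G)
  have h2 : ∑ q ∈ Finset.range (r + 1 + G), D * h (min d (D * q))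
      ≤ ∑ q ∈ Finset.range (r + 1 + G), ∑ j ∈ Finset.range D, h (min d (D * q + j)) := by
    refine Finset.sum_le_sum fun q _ => ?_
    have h3 : ∑ j ∈ Finset.range D, h (min d (D * q)) = D * h (min d (D * q)) := by simp
    rw [← h3]
    exact Finset.sum_le_sum fun j _ => hmono (min_le_min le_rfl (by omega))
  have h4 : D * ∑ g ∈ Finset.range G, h (min d (D * (g + 1) + D * r))
      ≤ ∑ q ∈ Finset.range (r + 1 + G), D * h (min d (D * q)) := by
    rw [Finset.sum_range_add, Finset.mul_sum]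
    have h5 : ∑ g ∈ Finset.range G, D * h (min d (D * (g + 1) + D * r))
        = ∑ g ∈ Finset.range G, D * h (min d (D * (r + 1 + g))) := by
      refine Finset.sum_congr rfl fun g _ => ?_
      have : D * (g + 1) + D * r = D * (r + 1 + g) := by ring
      rw [this]
    rw [h5]
    exact Nat.le_add_left _ _
  have h6 : ∑ e ∈ Finset.range (D * (r + 1 + G)), h (min d e)
      ≤ ∑ e ∈ Finset.range d, h e + D * (r + 2) * h d := by
    have e1 : D * (r + 1 + G) = D * r + D + D * G := by ring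
    have e2 : D * (r + 2) = D * r + D + D := by ring
    obtain ⟨k, hk⟩ : ∃ k, D * (r + 1 + G) = d + k := ⟨D * (r + 1 + G) - d, by omega⟩
    have hk2 : k ≤ D * (r + 2) := by omega
    rw [hk, Finset.sum_range_add]
    have h7 : ∑ e ∈ Finset.range d, h (min d e) = ∑ e ∈ Finset.range d, h e := by
      refine Finset.sum_congr rfl fun e he => ?_
      rw [min_eq_right (Finset.mem_range.mp he).le]
    have h8 : ∑ j ∈ Finset.range k, h (min d (d + j)) = k * h d := by
      have h9 : ∀ j ∈ Finset.range k, h (min d (d + j)) = h d := by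
        intro j _
        rw [min_eq_left (Nat.le_add_right d j)]
      rw [Finset.sum_congr rfl h9]
      simp
    rw [h7, h8]
    exact Nat.add_le_add_left (Nat.mul_le_mul_right _ hk2) _
  calc _ ≤ _ := h4
    _ ≤ _ := h2
    _ = _ := h1.symm
    _ ≤ _ := h6

theorem ineq_real (r D s d1 : ℕ) (hD : 1 ≤ D) (hs : 1 ≤ s) (c R : ℝ) (hc : 0 < c) (hR : 1 ≤ R)
    (p : ℕ) (hp : 2 ≤ p) (hpR : R ^ c ≤ (p : ℝ)) (hp0 : (d1 + 1) ^ r ≤ p) (h : ℕ → ℕ)
    (hmono : Monotone h) (h1 : ∀ d, 1 ≤ h d) (hub : ∀ d, h d ≤ (d + 1) ^ r)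
    (H : ∀ d T B : ℕ, (h d : ℝ) * B * R ^ d < (p : ℝ) ^ T →
      (B + 1) ^ h d ≤ p ^ ∑ t ∈ Finset.range T, h (min d (D * (t / s + 1) + D * r)))
    (d : ℕ) (hd : d ≤ d1) :
    (h d : ℝ) * ((1 - ((D : ℝ) / s) / c) * d - D * (r + 3)) ≤ ∑ e ∈ Finset.range d, (h e : ℝ) := by
  have hD0 : (1 : ℝ) ≤ D := by exact_mod_cast hD
  have hs0 : (1 : ℝ) ≤ s := by exact_mod_cast hs
  have hh0 : (1 : ℝ) ≤ h d := by exact_mod_cast h1 d
  rcases Nat.eq_zero_or_pos d with rfl | hdpos
  · rw [Finset.range_zero, Finset.sum_empty]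
    refine mul_nonpos_of_nonneg_of_nonpos (by linarith) ?_
    have : (0 : ℝ) ≤ (D : ℝ) * (r + 3) := by positivity
    simp only [Nat.cast_zero, mul_zero, zero_sub]
    linarith
  -- the number of blocks
  obtain ⟨G, hG⟩ : ∃ G, G = (d + D - 1) / D := ⟨_, rfl⟩
  have hG1 : d ≤ D * G := by
    have e := Nat.div_add_mod (d + D - 1) D
    have e2 := Nat.mod_lt (d + D - 1) (by omega : 0 < D)
    rw [← hG] at e
    omega
  have hG2 : D * G ≤ d + D := by
    have e := Nat.div_add_mod (d + D - 1) D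
    rw [← hG] at e
    omega
  have hp1 : (1 : ℝ) < p := by exact_mod_cast (by omega : 1 < p)
  have hp0' : (0 : ℝ) < p := by linarith
  have hR0 : 0 < R := by linarith
  have hRd : 0 < R ^ d := pow_pos hR0 d
  have hden : 0 < (h d : ℝ) * R ^ d := by positivity
  obtain ⟨X, hX⟩ : ∃ X : ℝ, X = (p : ℝ) ^ (s * G) / ((h d : ℝ) * R ^ d) := ⟨_, rfl⟩
  have hX0 : 0 < X := by rw [hX]; positivity
  have hXmul : (h d : ℝ) * X * R ^ d = (p : ℝ) ^ (s * G) := by
    rw [hX]
    field_simp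
  obtain ⟨B, hB⟩ : ∃ B : ℕ, B = ⌈X⌉₊ - 1 := ⟨_, rfl⟩
  have hceil : 1 ≤ ⌈X⌉₊ := Nat.one_le_ceil_iff.mpr hX0
  have hB1 : B + 1 = ⌈X⌉₊ := by omega
  have hBX : (B : ℝ) < X := by
    have h2 := Nat.ceil_lt_add_one hX0.le
    rw [← hB1] at h2
    push_cast at h2
    linarith
  have hXB : X ≤ ((B + 1 : ℕ) : ℝ) := by
    rw [hB1]
    exact Nat.le_ceil X
  have hH := H d (s * G) B (by
    rw [← hXmul]
    refine mul_lt_mul_of_pos_right ?_ hRd
    exact mul_lt_mul_of_pos_left hBX (by linarith))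
  obtain ⟨S, hS⟩ : ∃ S : ℕ, S = ∑ g ∈ Finset.range G, h (min d (D * (g + 1) + D * r)) := ⟨_, rfl⟩
  have hSig : ∑ t ∈ Finset.range (s * G), h (min d (D * (t / s + 1) + D * r)) = s * S := by
    rw [hS]
    exact ri_div (fun t => h (min d (D * (t + 1) + D * r))) s hs G
  rw [hSig] at hH
  have hH2 : X ^ h d ≤ (p : ℝ) ^ (s * S) := by
    calc X ^ h d ≤ ((B + 1 : ℕ) : ℝ) ^ h d := pow_le_pow_left₀ hX0.le hXB _
      _ ≤ (p : ℝ) ^ (s * S) := by exact_mod_cast hH
  have hlog := Real.log_le_log (pow_pos hX0 _) hH2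
  rw [Real.log_pow, Real.log_pow] at hlog
  have hlp : 0 < Real.log p := Real.log_pos hp1
  have hlX : Real.log X = ((s * G : ℕ) : ℝ) * Real.log p - (Real.log (h d) + d * Real.log R) := by
    rw [hX, Real.log_div (by positivity) hden.ne', Real.log_mul (by linarith) hRd.ne',
      Real.log_pow, Real.log_pow]
  have hlR : Real.log R ≤ Real.log p / c := by
    have h3 := Real.log_le_log (Real.rpow_pos_of_pos hR0 c) hpR
    rw [Real.log_rpow hR0] at h3
    rw [le_div_iff₀ hc]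
    linarith
  have hlh : Real.log (h d) ≤ Real.log p := by
    refine Real.log_le_log (by linarith) ?_
    have h4 : h d ≤ p := (hub d).trans ((Nat.pow_le_pow_left (by omega) r).trans hp0)
    exact_mod_cast h4
  -- dividing by the logarithm
  have hmain : (h d : ℝ) * ((s : ℝ) * G - 1 - d / c) ≤ (s : ℝ) * S := by
    have h5 : (h d : ℝ) * (((s : ℝ) * G - 1 - d / c) * Real.log p) ≤ (s : ℝ) * S * Real.log p := by
      have h6 : ((s : ℝ) * G - 1 - d / c) * Real.log p ≤ Real.log X := by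
        rw [hlX]
        push_cast
        have h7 : (d : ℝ) * Real.log R ≤ d * (Real.log p / c) :=
          mul_le_mul_of_nonneg_left hlR (by positivity)
        have h8 : (d : ℝ) * (Real.log p / c) = d / c * Real.log p := by ring
        rw [h8] at h7
        linarith
      calc (h d : ℝ) * (((s : ℝ) * G - 1 - d / c) * Real.log p) ≤ (h d : ℝ) * Real.log X :=
            mul_le_mul_of_nonneg_left h6 (by linarith)
        _ ≤ ((s * S : ℕ) : ℝ) * Real.log p := hlog
        _ = (s : ℝ) * S * Real.log p := by push_cast; ring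
    rw [← mul_assoc] at h5
    exact le_of_mul_le_mul_right h5 hlp
  have hcomb := ri_comb r D d G h hmono hG1 hG2
  rw [← hS] at hcomb
  have hcomb' : (D : ℝ) * S ≤ ∑ e ∈ Finset.range d, (h e : ℝ) + D * (r + 2) * h d := by
    exact_mod_cast hcomb
  have hG1' : (d : ℝ) ≤ D * G := by exact_mod_cast hG1
  have hsD : (D : ℝ) / s ≤ D := div_le_self (by linarith) hs0
  -- final computation
  have h9 : (h d : ℝ) * ((D : ℝ) * G - D / s - D / s * (d / c)) ≤ (D : ℝ) * S := by
    have h10 := mul_le_mul_of_nonneg_left hmain (show (0 : ℝ) ≤ (D : ℝ) / s by positivity)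
    have h11 : (D : ℝ) / s * ((s : ℝ) * S) = D * S := by field_simp
    have h12 : (D : ℝ) / s * ((h d : ℝ) * ((s : ℝ) * G - 1 - d / c))
        = (h d : ℝ) * ((D : ℝ) * G - D / s - D / s * (d / c)) := by field_simp
    rw [h11, h12] at h10
    exact h10
  have h13 : (h d : ℝ) * ((d : ℝ) - D - D / s * (d / c))
      ≤ (h d : ℝ) * ((D : ℝ) * G - D / s - D / s * (d / c)) :=
    mul_le_mul_of_nonneg_left (by linarith) (by linarith)
  have h14 : (h d : ℝ) * ((1 - ((D : ℝ) / s) / c) * d - D * (r + 3))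
      = (h d : ℝ) * ((d : ℝ) - D - D / s * (d / c)) - D * (r + 2) * h d := by
    ring
  rw [h14]
  linarith

end NFH
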