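import Pool.Agent.Lib.NFH.HzB

/-!
MP_44a56e_nt (second proof), module Stab: a sublinear Hilbert function bounds the number of points.
-/

set_option autoImplicit false

open MvPolynomial Module NumberField

namespace NFH

/-- Equality of the ranks in degrees `d` and `d + 1`: an element of degree `d + 1` has a multiple
of degree `d` modulo `I`. -/
private theorem stab_step {r : ℕ} (I : Ideal (PZ r)) (d : ℕ) (h : hz I d = hz I (d + 1))
    (F : PZ r) (hF : F.totalDegree ≤ d + 1) :
    ∃ m : ℤ, m ≠ 0 ∧ ∃ v : PZ r, v.totalDegree ≤ d ∧ C m * F - v ∈ I := by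
  set φ : PZ r →ₗ[ℤ] (PZ r ⧸ I) := (Ideal.Quotient.mkₐ ℤ I).toLinearMap with hφ
  have hle : (VZ r d).map φ ≤ (VZ r (d + 1)).map φ := by
    refine Submodule.map_mono fun G hG => ?_
    rw [mem_restrictTotalDegree] at hG ⊢
    omega
  have hfin : Module.Finite ℤ ↥((VZ r (d + 1)).map φ) := Module.Finite.map _ _
  set N : Submodule ℤ ↥((VZ r (d + 1)).map φ) :=
    Submodule.comap ((VZ r (d + 1)).map φ).subtype ((VZ r d).map φ) with hN
  have hNr : finrank ℤ N = finrank ℤ ((VZ r d).map φ) :=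
    LinearEquiv.finrank_eq (Submodule.comapSubtypeEquivOfLe hle)
  have hsum := Submodule.finrank_quotient_add_finrank N
  have h0 : finrank ℤ (↥((VZ r (d + 1)).map φ) ⧸ N) = 0 := by
    have h1 : finrank ℤ ((VZ r d).map φ) = finrank ℤ ((VZ r (d + 1)).map φ) := h
    omega
  rw [Module.finrank_eq_zero_iff] at h0
  have hFm : φ F ∈ (VZ r (d + 1)).map φ :=
    Submodule.mem_map_of_mem ((mem_restrictTotalDegree _ _ _).2 hF)
  obtain ⟨m, hm, hm2⟩ := h0 (Submodule.Quotient.mk ⟨φ F, hFm⟩)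
  refine ⟨m, hm, ?_⟩
  rw [← Submodule.Quotient.mk_smul, Submodule.Quotient.mk_eq_zero, hN, Submodule.mem_comap] at hm2
  obtain ⟨v, hv, hvE⟩ := hm2
  refine ⟨v, (mem_restrictTotalDegree _ _ _).1 hv, ?_⟩
  have hvE' : φ v = m • φ F := hvE
  rw [← map_smul, smul_eq_C_mul] at hvE'
  have h3 : (Ideal.Quotient.mk I) v = (Ideal.Quotient.mk I) (C m * F) := hvE'
  exact Ideal.Quotient.eq.1 h3.symm

/-- Stabilisation: every polynomial has a multiple of degree `d` modulo `I`. -/
private theorem stab_all {r : ℕ} (I : Ideal (PZ r)) (d : ℕ) (h : hz I d = hz I (d + 1))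
    (F : PZ r) : ∃ m : ℤ, m ≠ 0 ∧ ∃ v : PZ r, v.totalDegree ≤ d ∧ C m * F - v ∈ I := by
  induction F using MvPolynomial.induction_on with
  | C a => exact ⟨1, one_ne_zero, C a, by rw [totalDegree_C]; exact Nat.zero_le _, by simp⟩
  | add p q hp hq =>
    obtain ⟨m1, h1, v1, hv1, he1⟩ := hp
    obtain ⟨m2, h2, v2, hv2, he2⟩ := hq
    refine ⟨m1 * m2, mul_ne_zero h1 h2, C m2 * v1 + C m1 * v2, ?_, ?_⟩
    · refine (totalDegree_add _ _).trans (max_le ?_ ?_)
      · refine (totalDegree_mul _ _).trans ?_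
        rw [totalDegree_C]; omega
      · refine (totalDegree_mul _ _).trans ?_
        rw [totalDegree_C]; omega
    · have h3 : C (m1 * m2) * (p + q) - (C m2 * v1 + C m1 * v2) =
          C m2 * (C m1 * p - v1) + C m1 * (C m2 * q - v2) := by
        rw [C_mul]; ring
      rw [h3]
      exact I.add_mem (I.mul_mem_left _ he1) (I.mul_mem_left _ he2)
  | mul_X p i hp =>
    obtain ⟨m, h1, v, hv, he⟩ := hp
    obtain ⟨m', h2, v', hv', he'⟩ := stab_step I d h (v * X i) (by
      refine (totalDegree_mul _ _).trans ?_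
      rw [totalDegree_X]; omega)
    refine ⟨m' * m, mul_ne_zero h2 h1, v', hv', ?_⟩
    have h3 : C (m' * m) * (p * X i) - v' = C m' * X i * (C m * p - v) + (C m' * (v * X i) - v') := by
      rw [C_mul]; ring
    rw [h3]
    exact I.add_mem (I.mul_mem_left _ he) he'

/-- Inclusion of the kernels implies equality. -/
private theorem stab_ker {r : ℕ} {K L : Type} [Field K] [NumberField K] [Field L] [NumberField L]
    (x : Fin r → 𝓞 K) (y : Fin r → 𝓞 L) (h : kerI x ≤ kerI y) : kerI y ≤ kerI x := by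
  intro F hF
  by_contra hcon
  have hne : (aeval x F : 𝓞 K) ≠ 0 := hcon
  have hFy : (aeval y F : 𝓞 L) = 0 := hF
  have hint : IsIntegral ℤ (aeval x F : 𝓞 K) := RingOfIntegers.isIntegral _
  obtain ⟨q, hq0, hq⟩ := hint.isAlgebraic.exists_nonzero_coeff_and_aeval_eq_zero
    (mem_nonZeroDivisors_of_ne_zero hne)
  have h1 : Polynomial.aeval F q ∈ kerI x := by
    change (aeval x : PZ r →ₐ[ℤ] 𝓞 K) (Polynomial.aeval F q) = 0
    rw [← Polynomial.aeval_algHom_apply]
    exact hq
  have h2 : (aeval y : PZ r →ₐ[ℤ] 𝓞 L) (Polynomial.aeval F q) = 0 := h h1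
  rw [← Polynomial.aeval_algHom_apply, hFy, Polynomial.aeval_def, Polynomial.eval₂_at_zero] at h2
  apply hq0
  rw [eq_intCast, Int.cast_eq_zero] at h2
  exact h2

theorem stab {r : ℕ} {ι : Type} [Fintype ι] (K : ι → Type) [∀ i, Field (K i)]
    [∀ i, NumberField (K i)] (x : ∀ i, Fin r → 𝓞 (K i))
    (hker : Function.Injective fun i => kerI (x i)) (d1 : ℕ)
    (h : hz (⨅ i, kerI (x i)) d1 ≤ d1) : Fintype.card ι ≤ d1 := by
  classical
  rcases isEmpty_or_nonempty ι with hι | ⟨⟨i0⟩⟩
  · rw [Fintype.card_eq_zero]; exact Nat.zero_le _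
  have hsat : ∀ F : PZ r, ∀ n : ℤ, n ≠ 0 → C n * F ∈ (⨅ i, kerI (x i)) →
      F ∈ (⨅ i, kerI (x i)) := by
    intro F n hn hF
    rw [Ideal.mem_iInf] at hF ⊢
    intro i
    have h1 : aeval (x i) (C n * F) = 0 := hF i
    rw [map_mul, aeval_C, mul_eq_zero] at h1
    rcases h1 with h1 | h1
    · exfalso
      apply hn
      rw [eq_intCast, Int.cast_eq_zero] at h1
      exact h1
    · exact h1
  have hne : (⨅ i, kerI (x i)) ≠ ⊤ := by
    intro h
    have h1 : (1 : PZ r) ∈ (⨅ i, kerI (x i)) := by rw [h]; trivial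
    rw [Ideal.mem_iInf] at h1
    have h2 : aeval (x i0) (1 : PZ r) = 0 := h1 i0
    rw [map_one] at h2
    exact one_ne_zero h2
  -- stabilisation
  obtain ⟨d, hd, hdE⟩ : ∃ d < d1, hz (⨅ i, kerI (x i)) d = hz (⨅ i, kerI (x i)) (d + 1) := by
    by_contra hcon
    push Not at hcon
    have hstep : ∀ d ≤ d1, d + 1 ≤ hz (⨅ i, kerI (x i)) d := by
      intro d
      induction d with
      | zero => intro _; exact one_le_hz _ hne hsat 0
      | succ d ih =>
        intro hd
        have h1 := ih (by omega)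
        have h2 := hcon d (by omega)
        have h3 := hz_mono _ hsat (Nat.le_succ d)
        have h4 : hz (⨅ i, kerI (x i)) d ≤ hz (⨅ i, kerI (x i)) (d + 1) := h3
        omega
    have := hstep d1 le_rfl
    omega
  -- separation
  have hsep : ∀ i k : ι, i ≠ k → ∃ F : PZ r, aeval (x i) F = 0 ∧ aeval (x k) F ≠ 0 := by
    intro i k hik
    by_contra hcon
    push Not at hcon
    have h1 : kerI (x i) ≤ kerI (x k) := fun F hF => hcon F hF
    have h2 := stab_ker (x i) (x k) h1
    exact hik (hker (le_antisymm h1 h2))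
  have hsep' : ∀ k : ι, ∃ e : PZ r, aeval (x k) e ≠ 0 ∧ ∀ i ≠ k, aeval (x i) e = 0 := by
    intro k
    have hF : ∀ i : ι, ∃ F : PZ r, aeval (x k) F ≠ 0 ∧ (i ≠ k → aeval (x i) F = 0) := by
      intro i
      by_cases hik : i = k
      · exact ⟨1, by rw [map_one]; exact one_ne_zero, fun h => absurd hik h⟩
      · obtain ⟨F, h1, h2⟩ := hsep i k hik
        exact ⟨F, h2, fun _ => h1⟩
    choose F hF1 hF2 using hF
    refine ⟨∏ i, F i, ?_, ?_⟩
    · rw [map_prod, Finset.prod_ne_zero_iff]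
      exact fun i _ => hF1 i
    · intro i hik
      rw [map_prod]
      exact Finset.prod_eq_zero (Finset.mem_univ i) (hF2 i hik)
  choose e he1 he2 using hsep'
  have hv := fun k => stab_all _ d hdE (e k)
  choose m hm v hvd hvI using hv
  have hval : ∀ i k : ι, aeval (x i) (v k) = (m k : 𝓞 (K i)) * aeval (x i) (e k) := by
    intro i k
    have h1 := (Ideal.mem_iInf.1 (hvI k)) i
    have h2 : aeval (x i) (C (m k) * e k - v k) = 0 := h1
    rw [map_sub, map_mul, aeval_C, eq_intCast, sub_eq_zero] at h2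
    exact h2.symm
  set φ : PZ r →ₗ[ℤ] (PZ r ⧸ (⨅ i, kerI (x i))) :=
    (Ideal.Quotient.mkₐ ℤ (⨅ i, kerI (x i))).toLinearMap with hφ
  have hfin : Module.Finite ℤ ↥((VZ r d).map φ) := Module.Finite.map _ _
  have hlin : LinearIndependent ℤ (fun k : ι => (⟨φ (v k), Submodule.mem_map_of_mem
      ((mem_restrictTotalDegree _ _ _).2 (hvd k))⟩ : ↥((VZ r d).map φ))) := by
    rw [Fintype.linearIndependent_iff]
    intro g hg i
    have h1 : φ (∑ k, g k • v k) = 0 := by
      have h2 := congrArg (((VZ r d).map φ).subtype) hg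
      have h6 : φ (∑ k, g k • v k) = ∑ k, g k • φ (v k) := by
        rw [map_sum]; exact Finset.sum_congr rfl fun k _ => map_smul φ _ _
      rw [h6]
      simp only [map_sum, map_smul, Submodule.subtype_apply, map_zero] at h2
      exact h2
    have h3 : (∑ k, g k • v k) ∈ (⨅ i, kerI (x i)) := by
      have h4 : (Ideal.Quotient.mk (⨅ i, kerI (x i))) (∑ k, g k • v k) = 0 := h1
      exact Ideal.Quotient.eq_zero_iff_mem.1 h4
    have h5 : aeval (x i) (∑ k, g k • v k) = 0 := (Ideal.mem_iInf.1 h3) i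
    rw [map_sum, Finset.sum_eq_single i] at h5
    · rw [map_smul, hval, zsmul_eq_mul, mul_eq_zero, mul_eq_zero] at h5
      rcases h5 with h5 | h5 | h5
      · exact Int.cast_eq_zero.1 h5
      · exact absurd (Int.cast_eq_zero.1 h5) (hm i)
      · exact absurd h5 (he1 i)
    · intro k _ hki
      rw [map_smul, hval, he2 k i hki.symm, mul_zero, smul_zero]
    · intro h; exact absurd (Finset.mem_univ i) h
  have hcard : Fintype.card ι ≤ hz (⨅ i, kerI (x i)) d := hlin.fintype_card_le_finrank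
  exact hcard.trans ((hz_mono _ hsat hd.le).trans h)

end NFH
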