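import Pool.Agent.Lib.NFH.Expand
import Pool.Agent.Lib.NFH.Index
import Pool.Agent.Lib.NFH.Pigeon
import Pool.Agent.Lib.NFH.Small
import Pool.Agent.Lib.NFH.RealI
import Pool.Agent.Lib.NFH.Growth
import Pool.Agent.Lib.NFH.Stab

/-!
MP_44a56e_nt (second proof), module Fibre: the fibre bound (assembly of section 3).
-/

set_option autoImplicit false

open MvPolynomial Module NumberField

namespace NFH

theorem fibre (r D s : ℕ) (hD : 1 ≤ D) (hs : 1 ≤ s) (c : ℝ) (hc : 2 * ((D : ℝ) / s) < c) :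
    ∃ d1 p0 : ℕ, ∀ (ι : Type) [Fintype ι] (K : ι → Type) [∀ i, Field (K i)]
      [∀ i, NumberField (K i)] (x : ∀ i, Fin r → 𝓞 (K i)) (R : ℝ) (p : ℕ) (a : Ideal (PZ r))
      (G : Fin r → PZ r), 1 ≤ R → p.Prime → p0 ≤ p → R ^ c ≤ (p : ℝ) →
      (∀ i (φ : K i →+* ℂ) (j : Fin r), ‖φ (x i j : K i)‖ ≤ R) → (p : PZ r) ∈ a →
      (∀ i, ∀ F ∈ a, (p : 𝓞 (K i)) ∣ aeval (x i) F) → (∀ j, (G j).totalDegree < D) →
      (∀ j, X j ^ D - G j ∈ a ^ s) → (Function.Injective fun i => kerI (x i)) →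
      Fintype.card ι ≤ d1 := by
  have hD0 : (0 : ℝ) < D := by exact_mod_cast hD
  have hs0 : (0 : ℝ) < s := by exact_mod_cast hs
  have hDs : (0 : ℝ) < (D : ℝ) / s := div_pos hD0 hs0
  have hc0 : 0 < c := by linarith
  have hθ : (D : ℝ) / s / c < 1 / 2 := by
    rw [div_lt_iff₀ hc0]; linarith
  obtain ⟨d1, hd1⟩ := growth r ((D : ℝ) / s / c) (D * (r + 3)) hθ
  refine ⟨d1, (d1 + 1) ^ r + 2, ?_⟩
  intro ι _ K _ _ x R p a G hR hp hpp hpR hφ hpa hpF hGd hGa hinj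
  rcases isEmpty_or_nonempty ι with hι | ⟨⟨i0⟩⟩
  · rw [Fintype.card_eq_zero]; exact Nat.zero_le _
  have hsat : ∀ F : PZ r, ∀ n : ℤ, n ≠ 0 → C n * F ∈ (⨅ i, kerI (x i)) →
      F ∈ (⨅ i, kerI (x i)) := by
    intro F n hn hF
    rw [Ideal.mem_iInf] at hF ⊢
    intro i
    have h1 : aeval (x i) (C n * F) = 0 := hF i
    rw [map_mul, aeval_C, mul_eq_zero] at h1
    rcases h1 with h1 | h1
    · exfalso
      apply hn
      rw [eq_intCast, Int.cast_eq_zero] at h1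
      exact h1
    · exact h1
  have hne : (⨅ i, kerI (x i)) ≠ ⊤ := by
    intro h
    have h1 : (1 : PZ r) ∈ (⨅ i, kerI (x i)) := by rw [h]; trivial
    rw [Ideal.mem_iInf] at h1
    have h2 : aeval (x i0) (1 : PZ r) = 0 := h1 i0
    rw [map_one] at h2
    exact one_ne_zero h2
  have hexp := expand D s hD a G hGd hGa
  have hH : ∀ d T B : ℕ, (hz (⨅ i, kerI (x i)) d : ℝ) * B * R ^ d < (p : ℝ) ^ T →
      (B + 1) ^ hz (⨅ i, kerI (x i)) d ≤
        p ^ ∑ t ∈ Finset.range T, hz (⨅ i, kerI (x i)) (min d (D * (t / s + 1) + D * r)) := by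
    intro d T B hlt
    by_contra hcon
    obtain ⟨hfin, hcard⟩ := card_le D s p hs hp.pos (⨅ i, kerI (x i)) a hpa hsat hexp d T
    obtain ⟨F, hFI, hFa, hFd, hFs, hFc⟩ := pigeon (⨅ i, kerI (x i)) a hsat d T B hfin
      (lt_of_le_of_lt hcard (not_le.1 hcon))
    apply hFI
    rw [Ideal.mem_iInf]
    intro i
    refine small (x i) R hR (hφ i) p hp.pos a (hpF i) d T B F ?_ hFd hFc ?_
    · have hle : a ^ T ⊔ (⨅ i, kerI (x i)) ≤ a ^ T ⊔ kerI (x i) :=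
        sup_le_sup_left (iInf_le (fun i => kerI (x i)) i) (a ^ T)
      exact hle hFa
    · refine lt_of_le_of_lt ?_ hlt
      have h1 : (F.support.card : ℝ) ≤ (hz (⨅ i, kerI (x i)) d : ℝ) := by exact_mod_cast hFs
      have h2 : (0 : ℝ) ≤ R ^ d := pow_nonneg (by linarith) _
      exact mul_le_mul_of_nonneg_right (mul_le_mul_of_nonneg_right h1 (Nat.cast_nonneg _)) h2
  refine stab K x hinj d1 (hd1 (hz (⨅ i, kerI (x i))) (fun d => hz_le _ d) ?_)
  intro d hd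
  exact ineq_real r D s d1 hD hs c R hc0 hR p hp.two_le hpR (by omega) _ (hz_mono _ hsat)
    (fun d => one_le_hz _ hne hsat d) (fun d => hz_le _ d) hH d hd

end NFH
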