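import Pool.Agent.Lib.NFH.GramL

/-!
MP_44a56e_nt (second proof), module JetB (about 150 lines): jets of monomials; interpolation modulo `p`.

PROOFS. `jet_eq`: `tay x (monomial β 1) = ∏_j (C (x j) + X j)^(β j)`, the coefficient of `X^α` is `∏_j (β j choose α j) x_j^(β j - α j)` (zero if some `α j > β j`, the binomial
coefficient vanishes). (Induction, or `MvPolynomial.coeff` of a product over `j` of polynomials in separate variables; e.g. prove by `Finsupp.induction` adding `single j 1`, or expand every factor by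
`add_pow`, `Finset.prod_sum`.)
`tay_map`, `jet_map`: naturality of `tay`/`jet` under ring homomorphisms (`MvPolynomial.induction_on F`, or uniqueness of ring homomorphisms out of `PZ r`).
`jet_norm`: `‖∏ (β j choose α j) z_j^(β j - α j)‖ ≤ 2^|β| R^|β|` (`Nat.choose_le_two_pow`, `R ≥ 1`, `‖z_j‖ ≤ R`).
`interp`: given `F`, put `w_α = coeff α (tay x F)`, `α ∈ mon (r+1) k`; `gram_surj` with `e i α = jet x α (b i)` gives integers `c i`; `G = ∑_i c_i Y^(b i)` has degree `≤ D0`, and
`coeff α (tay x (F - G)) = w_α - ∑ c_i jet x α (b i) ∈ p 𝓞 K`.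
-/

set_option autoImplicit false

open MvPolynomial Module NumberField

namespace NFH

private theorem prod_single_add {A : Type*} [CommRing A] {r : ℕ} (x : Fin r → A)
    (β : Fin r →₀ ℕ) (κ : Fin r → ℕ) (hκ : ∀ j, κ j ≤ β j) :
    ∏ j, ((X j : MvPolynomial (Fin r) A) ^ (κ j) * C (x j) ^ (β j - κ j) *
      ((β j).choose (κ j) : MvPolynomial (Fin r) A)) =
      monomial (Finsupp.equivFunOnFinite.symm κ)
        (∏ j, ((β j).choose (κ j) : A) * x j ^ (β j - κ j)) := by
  rw [monomial_eq, Finsupp.prod_fintype _ _ (fun i => pow_zero _), map_prod, ← Finset.prod_mul_distrib]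
  refine Finset.prod_congr rfl fun j _ => ?_
  simp only [Finsupp.equivFunOnFinite_symm_apply_apply, map_mul, map_pow, map_natCast]
  ring

theorem jet_eq {A : Type*} [CommRing A] {r : ℕ} (x : Fin r → A) (α β : Fin r →₀ ℕ) :
    jet x α β = ∏ j, ((β j).choose (α j) : A) * x j ^ (β j - α j) := by
  classical
  have h1 : tay x (monomial β 1) = ∑ κ ∈ Fintype.piFinset (fun j => Finset.range (β j + 1)),
      (monomial (Finsupp.equivFunOnFinite.symm κ)
        (∏ j, ((β j).choose (κ j) : A) * x j ^ (β j - κ j)) : MvPolynomial (Fin r) A) := by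
    unfold tay
    rw [aeval_monomial, map_one, one_mul, Finsupp.prod_fintype _ _ (fun i => pow_zero _)]
    have : ∀ j : Fin r, ((C (x j) + X j : MvPolynomial (Fin r) A)) ^ (β j) =
        ∑ k ∈ Finset.range (β j + 1), (X j : MvPolynomial (Fin r) A) ^ k *
          C (x j) ^ (β j - k) * ((β j).choose k : MvPolynomial (Fin r) A) := by
      intro j
      rw [add_comm, add_pow]
    rw [Finset.prod_congr rfl fun j _ => this j, Finset.prod_univ_sum]
    refine Finset.sum_congr rfl fun κ hκ => ?_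
    refine prod_single_add x β κ fun j => ?_
    have := Fintype.mem_piFinset.mp hκ j
    exact Nat.lt_succ_iff.mp (Finset.mem_range.mp this)
  unfold jet
  rw [h1, coeff_sum]
  simp only [coeff_monomial]
  by_cases hα : ∀ j, α j ≤ β j
  · rw [Finset.sum_eq_single (⇑α : Fin r → ℕ)]
    · have : Finsupp.equivFunOnFinite.symm (⇑α : Fin r → ℕ) = α := by
        ext j; simp
      rw [if_pos this]
    · intro κ _ hne
      rw [if_neg]
      intro h
      apply hne
      rw [← h]
      ext j; simp
    · intro h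
      exact absurd (Fintype.mem_piFinset.mpr fun j =>
        Finset.mem_range.mpr (Nat.lt_succ_of_le (hα j))) h
  · push Not at hα
    obtain ⟨j, hj⟩ := hα
    rw [Finset.sum_eq_zero, Finset.prod_eq_zero (Finset.mem_univ j)]
    · rw [Nat.choose_eq_zero_of_lt hj, Nat.cast_zero, zero_mul]
    · intro κ hκ
      rw [if_neg]
      intro h
      have h2 := Fintype.mem_piFinset.mp hκ j
      have h3 : κ j = α j := by rw [← h]; simp
      have h4 := Nat.lt_succ_iff.mp (Finset.mem_range.mp h2)
      omega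

theorem tay_map {A B : Type*} [CommRing A] [CommRing B] (φ : A →+* B) {r : ℕ} (x : Fin r → A)
    (F : PZ r) : MvPolynomial.map φ (tay x F) = tay (fun j => φ (x j)) F := by
  have h : (MvPolynomial.map φ).comp ((tay x : PZ r →ₐ[ℤ] MvPolynomial (Fin r) A) :
      PZ r →+* MvPolynomial (Fin r) A) =
      ((tay (fun j => φ (x j)) : PZ r →ₐ[ℤ] MvPolynomial (Fin r) B) :
        PZ r →+* MvPolynomial (Fin r) B) := by
    refine MvPolynomial.ringHom_ext (fun a => ?_) (fun j => ?_)
    · simp
    · simp [tay]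
  exact congrArg (fun f => f F) h

theorem jet_map {A B : Type*} [CommRing A] [CommRing B] (φ : A →+* B) {r : ℕ} (x : Fin r → A)
    (α β : Fin r →₀ ℕ) : φ (jet x α β) = jet (fun j => φ (x j)) α β := by
  unfold jet
  rw [← coeff_map, tay_map]

theorem jet_norm {r : ℕ} (z : Fin r → ℂ) (R : ℝ) (hR : 1 ≤ R) (hz : ∀ j, ‖z j‖ ≤ R)
    (α β : Fin r →₀ ℕ) : ‖jet z α β‖ ≤ 2 ^ β.degree * R ^ β.degree := by
  rw [jet_eq, norm_prod, Finsupp.degree_eq_sum, ← Finset.prod_pow_eq_pow_sum,
    ← Finset.prod_pow_eq_pow_sum, ← Finset.prod_mul_distrib]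
  refine Finset.prod_le_prod (fun j _ => norm_nonneg _) fun j _ => ?_
  rw [norm_mul, norm_pow, Complex.norm_natCast]
  have h0 : (0 : ℝ) ≤ R := by linarith
  refine mul_le_mul ?_ ?_ (pow_nonneg (norm_nonneg _) _) (by positivity)
  · exact_mod_cast Nat.choose_le_two_pow (β j) (α j)
  · exact (pow_le_pow_left₀ (norm_nonneg _) (hz j) _).trans
      (pow_le_pow_right₀ hR (Nat.sub_le _ _))

theorem interp {K : Type*} [Field K] [NumberField K] {r : ℕ} (n k D0 : ℕ)
    (hn : finrank ℚ K = n) (x : Fin (r + 1) → 𝓞 K)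
    (b : Fin n × mon (r + 1) k → (Fin (r + 1) →₀ ℕ)) (hb : ∀ i, (b i).degree ≤ D0) (p : ℕ)
    (hp : p.Prime)
    (hx : ¬ (p : ℤ) ∣ (gramT K fun (i : Fin n × mon (r + 1) k) (α : mon (r + 1) k) =>
      jet x α (b i)).det) (F : PZ (r + 1)) :
    ∃ G : PZ (r + 1), G.totalDegree ≤ D0 ∧ ∀ α : Fin (r + 1) →₀ ℕ, α.degree ≤ k →
      (p : 𝓞 K) ∣ coeff α (tay x (F - G)) := by
  have hcard : Fintype.card (Fin n × mon (r + 1) k) =
      finrank ℚ K * Fintype.card (mon (r + 1) k) := by
    rw [Fintype.card_prod, Fintype.card_fin, hn]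
  obtain ⟨c, hc⟩ := gram_surj hcard
    (fun (i : Fin n × mon (r + 1) k) (α : mon (r + 1) k) => jet x α (b i)) p hp hx
    (fun α : mon (r + 1) k => coeff (α : Fin (r + 1) →₀ ℕ) (tay x F))
  refine ⟨∑ i, monomial (b i) (c i), ?_, ?_⟩
  · refine totalDegree_finsetSum_le fun i _ => ?_
    refine (totalDegree_monomial_le _ _).trans ?_
    have := hb i
    rw [Finsupp.degree_apply] at this
    simpa [Finsupp.sum] using this
  · intro α hα
    have h1 := hc ⟨α, mem_mon.mpr hα⟩
    have h2 : coeff α (tay x (F - ∑ i, monomial (b i) (c i))) =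
        coeff α (tay x F) - ∑ i, (c i : 𝓞 K) * jet x α (b i) := by
      rw [map_sub, coeff_sub, map_sum, coeff_sum]
      congr 1
      refine Finset.sum_congr rfl fun i _ => ?_
      have h3 : (monomial (b i) (c i) : PZ (r + 1)) = (c i) • monomial (b i) 1 := by
        rw [smul_monomial, smul_eq_mul, mul_one]
      rw [h3, map_smul, coeff_smul, zsmul_eq_mul]
      rfl
    rw [h2]
    exact h1

end NFH
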