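import Pool.Agent.Lib.NFH.Multi

/-!
MP_44a56e_nt (second proof), module Leading (about 100 lines): elements of `clsI ^ k` with leading form `Y_j ^ D`.

PROOF of `leading`. `a = clsI p f q`. `hint` and `multi` (applied to `F - G`) give: every `F` is `G + u + p v`, `G ∈ V_{D0}`, `u ∈ a^k`, `v ∈ PZ (r+1)`. By induction on `i`: every `F` is
`G + u + p^i v` with `G ∈ V_{D0}`, `u ∈ a^k` (apply the statement to `v`; `p^i G' ∈ V_{D0}`). For `i = k`: `p^k v ∈ a^k` since `p ∈ a`. So every `F` is `G + u`. Apply this to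
`F = X j ^ (D0 + 1)`.
-/

set_option autoImplicit false

open MvPolynomial Module

namespace NFH

theorem leading {A : Type*} [CommRing A] {r : ℕ} (p n : ℕ) (hp : (p : A) = 0) (f : Polynomial ℤ)
    (hf : f.Monic) (hn : f.natDegree = n) (x : Fin (r + 1) → A)
    (h0 : Polynomial.aeval (x 0) f = 0)
    (hu : IsUnit (Polynomial.aeval (x 0) (Polynomial.derivative f)))
    (hinj : ∀ ρ : Polynomial ℤ, ρ.degree < n → Polynomial.aeval (x 0) ρ = 0 →
      Polynomial.C (p : ℤ) ∣ ρ) (q : Fin r → Polynomial ℤ)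
    (hq : ∀ j : Fin r, x j.succ = Polynomial.aeval (x 0) (q j)) (k D0 : ℕ)
    (hint : ∀ F : PZ (r + 1), ∃ G : PZ (r + 1), G.totalDegree ≤ D0 ∧
      ∀ α : Fin (r + 1) →₀ ℕ, α.degree < k → coeff α (tay x (F - G)) = 0) :
    ∃ G : Fin (r + 1) → PZ (r + 1), (∀ j, (G j).totalDegree < D0 + 1) ∧
      ∀ j, X j ^ (D0 + 1) - G j ∈ clsI p f q ^ k := by
  have hpa : (p : PZ (r + 1)) ∈ clsI p f q := Ideal.subset_span (Or.inl (Or.inl rfl))
  have base : ∀ F : PZ (r + 1), ∃ G : PZ (r + 1), G.totalDegree ≤ D0 ∧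
      ∃ w : PZ (r + 1), F - G - (p : PZ (r + 1)) * w ∈ clsI p f q ^ k := by
    intro F
    obtain ⟨G, hG, hG'⟩ := hint F
    have h1 := multi p n hp f hf hn x h0 hu hinj q hq k (F - G) hG'
    obtain ⟨u, hu', v, hv, huv⟩ := Submodule.mem_sup.1 h1
    obtain ⟨w, hw⟩ := Ideal.mem_span_singleton'.1 hv
    refine ⟨G, hG, w, ?_⟩
    rw [← huv, ← hw, mul_comm w, add_sub_cancel_right]
    exact hu'
  have main : ∀ (i : ℕ) (F : PZ (r + 1)), ∃ G : PZ (r + 1), G.totalDegree ≤ D0 ∧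
      ∃ w : PZ (r + 1), F - G - (p : PZ (r + 1)) ^ i * w ∈ clsI p f q ^ k := by
    intro i
    induction i with
    | zero =>
      intro F
      refine ⟨0, by simp, F, ?_⟩
      rw [pow_zero, one_mul, sub_zero, sub_self]
      exact Ideal.zero_mem _
    | succ i ih =>
      intro F
      obtain ⟨G, hG, v, hv⟩ := ih F
      obtain ⟨G', hG', w, hw⟩ := base v
      refine ⟨G + (p : PZ (r + 1)) ^ i * G', ?_, w, ?_⟩
      · have h2 : ((p : PZ (r + 1)) ^ i * G').totalDegree ≤ D0 := by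
          have h3 : (p : PZ (r + 1)) ^ i = C ((p : ℤ) ^ i) := by
            rw [map_pow, map_natCast]
          rw [h3, ← MvPolynomial.smul_eq_C_mul]
          exact (MvPolynomial.totalDegree_smul_le _ _).trans hG'
        exact (MvPolynomial.totalDegree_add _ _).trans (max_le hG h2)
      · have h4 : F - (G + (p : PZ (r + 1)) ^ i * G') - (p : PZ (r + 1)) ^ (i + 1) * w =
            (F - G - (p : PZ (r + 1)) ^ i * v) +
              (p : PZ (r + 1)) ^ i * (v - G' - (p : PZ (r + 1)) * w) := by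
          ring
        rw [h4]
        exact Ideal.add_mem _ hv (Ideal.mul_mem_left _ _ hw)
  have fin : ∀ F : PZ (r + 1), ∃ G : PZ (r + 1), G.totalDegree ≤ D0 ∧
      F - G ∈ clsI p f q ^ k := by
    intro F
    obtain ⟨G, hG, v, hv⟩ := main k F
    refine ⟨G, hG, ?_⟩
    have h5 : (p : PZ (r + 1)) ^ k * v ∈ clsI p f q ^ k :=
      Ideal.mul_mem_right _ _ (Ideal.pow_mem_pow hpa k)
    have h6 := Ideal.add_mem _ hv h5
    rwa [sub_add_cancel] at h6
  choose G hG hG' using fun j : Fin (r + 1) => fin (X j ^ (D0 + 1))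
  exact ⟨G, fun j => Nat.lt_succ_of_le (hG j), hG'⟩

end NFH
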