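import Pool.Agent.Lib.NFH.Cls
import Pool.Agent.Lib.NFH.Fibre
import Pool.Agent.Lib.NFH.Leading
import Pool.Agent.Lib.NFH.JetB

/-!
MP_44a56e_nt (second proof), module ClsFib (about 130 lines): boundedly many kernels in a class.

PROOF of `class_fibre`. `D0 = (r+1)(m-1) + m k`, `D = D0 + 1`, `s = k + 1`; `d1, p0` from `fibre (r+1) D s c`. Given the data: `ι` empty: clear. Otherwise take `i0 : ι`, `A = 𝓞 (K i0) ⧸ (p)`, `x̄` = image of `x i0`, `f = X^n + pol c.1`, `q j = pol (c.2 j)`.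
`leading p n` (with `k := k + 1`): `(p : A) = 0`; `f` monic of degree `n` (`pol_monic`); `h0`, `hq` from `InCl` (a divisibility by `p` is the vanishing in `A`; `aeval` commutes with the quotient map); `hu` from `cl_unit`; `hinj` from `der_inj` (`det2`);
`hint`: `interp` (JetB) with `n, k, D0`, its conclusion for `α.degree ≤ k`, reduced modulo `p` (`tay_map` for the quotient map). It gives `G` with `X j ^ D - G j ∈ (clsI p f q)^s`, `deg G j < D`. `(p) ∈ clsI`. `fibre` with `a = clsI p f q` (`cl_star` for every `i`).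
-/

set_option autoImplicit false

open MvPolynomial Module NumberField

namespace NFH

theorem class_fibre (n m r k : ℕ) (c : ℝ)
    (hc : 2 * ((((r + 1) * (m - 1) + m * k + 1 : ℕ) : ℝ) / ((k + 1 : ℕ) : ℝ)) < c) :
    ∃ d1 p0 : ℕ, ∀ (b : Fin n × mon (r + 1) k → (Fin (r + 1) →₀ ℕ)),
      (∀ i, (b i).degree ≤ (r + 1) * (m - 1) + m * k) →
      ∀ (ι : Type) [Fintype ι] (K : ι → Type) [∀ i, Field (K i)] [∀ i, NumberField (K i)]
        (x : ∀ i, Fin (r + 1) → 𝓞 (K i)) (R : ℝ) (p : ℕ), 1 ≤ R → p.Prime → p0 ≤ p →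
        R ^ c ≤ (p : ℝ) → (∀ i, finrank ℚ (K i) = n) →
        (∀ i (φ : K i →+* ℂ) (j : Fin (r + 1)), ‖φ (x i j : K i)‖ ≤ R) →
        (∀ i, ¬ (p : ℤ) ∣ det1 b (x i)) → (∀ i, ¬ (p : ℤ) ∣ det2 n (x i)) →
        ∀ cl : Cl n r p, (∀ i, InCl (x i) cl) → (Function.Injective fun i => kerI (x i)) →
        Fintype.card ι ≤ d1 := by
  obtain ⟨d1, p0, hfib⟩ := fibre (r + 1) ((r + 1) * (m - 1) + m * k + 1) (k + 1)
    (Nat.succ_le_succ (Nat.zero_le _)) (Nat.succ_le_succ (Nat.zero_le _)) c hc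
  refine ⟨d1, p0, ?_⟩
  intro b hb ι _ K _ _ x R p hR hp hpp hpR hn hφ hdet1 hdet2 cl hcl hinj
  rcases isEmpty_or_nonempty ι with hι | ⟨⟨i0⟩⟩
  · rw [Fintype.card_eq_zero]; exact Nat.zero_le _
  obtain ⟨hmon, hdeg⟩ := pol_monic cl.1
  have hev : ∀ F : Polynomial ℤ, Polynomial.aeval
      (Ideal.Quotient.mk (Ideal.span {(p : 𝓞 (K i0))}) (x i0 0)) F =
      Ideal.Quotient.mk (Ideal.span {(p : 𝓞 (K i0))}) (Polynomial.aeval (x i0 0) F) := by
    intro F
    exact Polynomial.aeval_algHom_apply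
      (Ideal.Quotient.mkₐ ℤ (Ideal.span {(p : 𝓞 (K i0))})) (x i0 0) F
  have hz : ∀ y : 𝓞 (K i0), Ideal.Quotient.mk (Ideal.span {(p : 𝓞 (K i0))}) y = 0 ↔
      (p : 𝓞 (K i0)) ∣ y := by
    intro y
    rw [Ideal.Quotient.eq_zero_iff_mem, Ideal.mem_span_singleton]
  have hp0 : ((p : ℕ) : 𝓞 (K i0) ⧸ Ideal.span {(p : 𝓞 (K i0))}) = 0 := by
    have h := (hz (p : 𝓞 (K i0))).2 (dvd_refl _)
    rwa [map_natCast] at h
  obtain ⟨G, hG, hG'⟩ := leading (A := 𝓞 (K i0) ⧸ Ideal.span {(p : 𝓞 (K i0))}) (r := r) p n hp0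
    (Polynomial.X ^ n + pol cl.1) hmon hdeg
    (fun j => Ideal.Quotient.mk (Ideal.span {(p : 𝓞 (K i0))}) (x i0 j))
    (by
      exact (hev _).trans ((hz _).2 (hcl i0).1))
    (by
      have h := cl_unit (hn i0) (x i0) p hp (hdet2 i0) cl (hcl i0)
      rw [← hev] at h
      exact h)
    (by
      intro ρ hρ h
      have h' : Polynomial.aeval
        (Ideal.Quotient.mk (Ideal.span {(p : 𝓞 (K i0))}) (x i0 0)) ρ = 0 := h
      rw [hev, hz] at h'
      exact der_inj n (x i0 0) p hp (hdet2 i0) ρ hρ h')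
    (fun j => pol (cl.2 j))
    (by
      intro j
      have h : Ideal.Quotient.mk (Ideal.span {(p : 𝓞 (K i0))}) (x i0 j.succ) =
          Ideal.Quotient.mk (Ideal.span {(p : 𝓞 (K i0))})
            (Polynomial.aeval (x i0 0) (pol (cl.2 j))) := by
        rw [← sub_eq_zero, ← map_sub, hz]
        exact (hcl i0).2 j
      exact h.trans (hev _).symm)
    (k + 1) ((r + 1) * (m - 1) + m * k)
    (by
      intro F
      obtain ⟨G, hG, hG'⟩ := interp n k ((r + 1) * (m - 1) + m * k) (hn i0) (x i0) b hb p hp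
        (hdet1 i0) F
      refine ⟨G, hG, fun α hα => ?_⟩
      have h1 := tay_map (Ideal.Quotient.mk (Ideal.span {(p : 𝓞 (K i0))})) (x i0) (F - G)
      rw [← h1, coeff_map, hz]
      exact hG' α (Nat.lt_succ_iff.1 hα))
  exact hfib ι K x R p (clsI p (Polynomial.X ^ n + pol cl.1) fun j => pol (cl.2 j)) G hR hp hpp hpR
    hφ (Ideal.subset_span (Or.inl (Or.inl rfl))) (fun i F hF => cl_star (x i) cl (hcl i) F hF)
    hG hG' hinj

end NFH
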