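import Pool.Agent.Lib.NFH.Defs

/-!
MP_44a56e_nt (second proof), module EmbC (about 60 lines): subfields of `ℂ` isomorphic to a given one.

PROOF of `card_iso_le`. `L ≃ K` gives an embedding `K →ₐ[ℚ] ℂ` with range `L` (`e : K ≃ₐ L`, `L.val.comp e`), and `L = AlgHom.fieldRange` of it; so the set is contained in the range of `ψ ↦ ψ.fieldRange` on `K →ₐ[ℚ] ℂ`, which has `finrank = n` elements
(`AlgHom.card`, `K` finite-dimensional because `n ≥ 1`).
-/

set_option autoImplicit false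

open Module

namespace NFH

theorem card_iso_le (K : IntermediateField ℚ ℂ) (n : ℕ) (hn : finrank ℚ K = n) (h1 : 1 ≤ n) :
    {L : IntermediateField ℚ ℂ | Nonempty (K ≃ₐ[ℚ] L)}.Finite ∧
      {L : IntermediateField ℚ ℂ | Nonempty (K ≃ₐ[ℚ] L)}.ncard ≤ n := by
  have : FiniteDimensional ℚ K := FiniteDimensional.of_finrank_pos (by omega)
  have hcard : Nat.card (K →ₐ[ℚ] ℂ) = n := by
    rw [Nat.card_eq_fintype_card, AlgHom.card, hn]
  have hsub : {L : IntermediateField ℚ ℂ | Nonempty (K ≃ₐ[ℚ] L)} ⊆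
      (fun ψ : K →ₐ[ℚ] ℂ => ψ.fieldRange) '' Set.univ := by
    rintro L ⟨e⟩
    refine ⟨L.val.comp (e : K →ₐ[ℚ] L), Set.mem_univ _, ?_⟩
    ext x
    constructor
    · rintro ⟨y, rfl⟩
      exact (e y).2
    · intro hx
      refine ⟨e.symm ⟨x, hx⟩, ?_⟩
      have h2 : e (e.symm ⟨x, hx⟩) = ⟨x, hx⟩ := e.apply_symm_apply _
      exact congrArg Subtype.val h2
  have hfu : ((fun ψ : K →ₐ[ℚ] ℂ => ψ.fieldRange) '' Set.univ).Finite := Set.toFinite _
  refine ⟨hfu.subset hsub, ?_⟩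
  calc _ ≤ ((fun ψ : K →ₐ[ℚ] ℂ => ψ.fieldRange) '' Set.univ).ncard :=
        Set.ncard_le_ncard hsub hfu
    _ ≤ (Set.univ : Set (K →ₐ[ℚ] ℂ)).ncard := Set.ncard_image_le Set.finite_univ
    _ = n := by rw [Set.ncard_univ, hcard]

end NFH
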