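import Pool.Agent.Lib.NFH.Defs

/-!
MP_44a56e_nt (second proof), module Iso (about 120 lines): the kernel determines the field.

PROOF. `prim_of_det`: the nonvanishing of the determinant means that `1, z, .., z^(n-1)` are linearly independent over `ℚ` (a relation `∑ c_i z^i = 0` gives `∑ c_i Tr(z^i z^j) = 0`, a kernel vector of the matrix), `n = finrank`, so
`ℚ⟮z⟯ = ⊤` (degree `≥ n`).
`iso_of_ker`: `kerI x = kerI y` implies that an integer polynomial in one variable (`aeval (X 0)`) vanishes at `x 0` iff it vanishes at `y 0`; so the minimal polynomials over `ℚ` of `x 0` and `y 0` agree (clear denominators, or `minpoly ℤ`: `minpoly.isIntegrallyClosed_eq_field_fractions'`), and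
`K = ℚ(x 0) ≃ ℚ[t]/minpoly ≃ ℚ(y 0) = L` (`IntermediateField.adjoinRootEquivAdjoin`, `AlgEquiv.ofTop`, or `PowerBasis.equivOfMinpoly`).
-/

set_option autoImplicit false

open MvPolynomial Module NumberField

namespace NFH

theorem prim_of_det (K : Type) [Field K] [NumberField K] (n : ℕ) (hn : finrank ℚ K = n)
    (z : 𝓞 K) (hz : (gramT K (fun (i : Fin n) (_ : Unit) => z ^ (i : ℕ))).det ≠ 0) :
    IntermediateField.adjoin ℚ {(z : K)} = ⊤ := by
  have hint : IsIntegral ℚ (z : K) := IsIntegral.tower_top (RingOfIntegers.isIntegral_coe z)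
  have hdeg : n ≤ (minpoly ℚ (z : K)).natDegree := by
    by_contra hlt
    rw [not_le] at hlt
    apply hz
    have hdet : ((gramT K (fun (i : Fin n) (_ : Unit) => z ^ (i : ℕ))).map
        (Int.castRingHom ℚ)).det = 0 := by
      rw [← Matrix.exists_mulVec_eq_zero_iff]
      refine ⟨fun i => (minpoly ℚ (z : K)).coeff i, ?_, ?_⟩
      · intro h0
        have h1 := congrFun h0 ⟨(minpoly ℚ (z : K)).natDegree, hlt⟩
        have h2 : (minpoly ℚ (z : K)).coeff (minpoly ℚ (z : K)).natDegree = 1 :=
          (minpoly.monic hint).coeff_natDegree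
        simp only [Pi.zero_apply] at h1
        rw [h2] at h1
        exact one_ne_zero h1
      · funext i
        simp only [Matrix.mulVec, dotProduct, Matrix.map_apply, gramT, Matrix.of_apply,
          Finset.univ_unique, Finset.sum_const, Finset.card_singleton, one_smul, Pi.zero_apply,
          eq_intCast]
        have h3 : ∀ j : Fin n, (((Algebra.trace ℤ (𝓞 K)) (z ^ (i : ℕ) * z ^ (j : ℕ)) : ℤ) : ℚ) *
            (minpoly ℚ (z : K)).coeff j =
            Algebra.trace ℚ K ((minpoly ℚ (z : K)).coeff j • ((z : K) ^ (i : ℕ) * (z : K) ^ (j : ℕ))) := by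
          intro j
          rw [Algebra.coe_trace_int, map_smul, smul_eq_mul, mul_comm]
          simp
        rw [Finset.sum_congr rfl (fun j _ => h3 j), ← map_sum]
        have h4 : ∑ j : Fin n, (minpoly ℚ (z : K)).coeff j • ((z : K) ^ (i : ℕ) * (z : K) ^ (j : ℕ)) =
            (z : K) ^ (i : ℕ) * Polynomial.aeval (z : K) (minpoly ℚ (z : K)) := by
          rw [Polynomial.aeval_eq_sum_range' hlt, Finset.mul_sum, Finset.sum_range]
          apply Finset.sum_congr rfl
          intro j _
          rw [mul_smul_comm]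
        rw [h4, minpoly.aeval, mul_zero, map_zero]
    rw [← RingHom.mapMatrix_apply, ← RingHom.map_det] at hdet
    have : ((gramT K (fun (i : Fin n) (_ : Unit) => z ^ (i : ℕ))).det : ℚ) = 0 := by
      simpa using hdet
    exact_mod_cast this
  apply IntermediateField.eq_of_le_of_finrank_le le_top
  rw [IntermediateField.finrank_top', hn, IntermediateField.adjoin.finrank hint]
  exact hdeg

private theorem iso_aeval {r : ℕ} {K : Type} [Field K] [NumberField K] (x : Fin (r + 1) → 𝓞 K)
    (P : Polynomial ℤ) :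
    aeval x (Polynomial.aeval (X 0 : PZ (r + 1)) P) = Polynomial.aeval (x 0) P := by
  rw [← Polynomial.aeval_algHom_apply, aeval_X]

theorem iso_of_ker {r : ℕ} (K L : Type) [Field K] [NumberField K] [Field L] [NumberField L]
    (x : Fin (r + 1) → 𝓞 K) (y : Fin (r + 1) → 𝓞 L)
    (hx : IntermediateField.adjoin ℚ {(x 0 : K)} = ⊤)
    (hy : IntermediateField.adjoin ℚ {(y 0 : L)} = ⊤) (h : kerI x = kerI y) :
    Nonempty (K ≃ₐ[ℚ] L) := by
  have hiz : IsIntegral ℤ (x 0 : K) := RingOfIntegers.isIntegral_coe (x 0)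
  have hix : IsIntegral ℚ (x 0 : K) := IsIntegral.tower_top hiz
  have hiy : IsIntegral ℚ (y 0 : L) := IsIntegral.tower_top (RingOfIntegers.isIntegral_coe (y 0))
  have key : ∀ P : Polynomial ℤ, Polynomial.aeval (x 0) P = 0 → Polynomial.aeval (y 0) P = 0 := by
    intro P hP
    have h1 : Polynomial.aeval (X 0 : PZ (r + 1)) P ∈ kerI x := by
      rw [RingHom.mem_ker]
      show aeval x (Polynomial.aeval (X 0 : PZ (r + 1)) P) = 0
      rw [iso_aeval, hP]
    rw [h, RingHom.mem_ker] at h1
    have h2 : aeval y (Polynomial.aeval (X 0 : PZ (r + 1)) P) = 0 := h1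
    rwa [iso_aeval] at h2
  have hmin : minpoly ℚ (x 0 : K) = minpoly ℚ (y 0 : L) := by
    apply minpoly.eq_of_irreducible_of_monic (minpoly.irreducible hix) _ (minpoly.monic hix)
    rw [minpoly.isIntegrallyClosed_eq_field_fractions' ℚ hiz, Polynomial.aeval_map_algebraMap]
    have h1 : Polynomial.aeval (x 0) (minpoly ℤ (x 0 : K)) = 0 := by
      apply RingOfIntegers.coe_injective
      show algebraMap (𝓞 K) K (Polynomial.aeval (x 0) (minpoly ℤ (x 0 : K))) = algebraMap (𝓞 K) K 0
      rw [← Polynomial.aeval_algebraMap_apply, map_zero]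
      exact minpoly.aeval ℤ (x 0 : K)
    have h2 := key _ h1
    have h3 : algebraMap (𝓞 L) L (Polynomial.aeval (y 0) (minpoly ℤ (x 0 : K))) = 0 := by
      rw [h2, map_zero]
    rwa [← Polynomial.aeval_algebraMap_apply] at h3
  have ex : Nonempty (K ≃ₐ[ℚ] AdjoinRoot (minpoly ℚ (x 0 : K))) :=
    ⟨((IntermediateField.topEquiv (F := ℚ) (E := K)).symm.trans
      (IntermediateField.equivOfEq hx.symm)).trans
      (IntermediateField.adjoinRootEquivAdjoin ℚ hix).symm⟩
  have ey : Nonempty (L ≃ₐ[ℚ] AdjoinRoot (minpoly ℚ (y 0 : L))) :=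
    ⟨((IntermediateField.topEquiv (F := ℚ) (E := L)).symm.trans
      (IntermediateField.equivOfEq hy.symm)).trans
      (IntermediateField.adjoinRootEquivAdjoin ℚ hiy).symm⟩
  rw [hmin] at ex
  obtain ⟨e1⟩ := ex
  obtain ⟨e2⟩ := ey
  exact ⟨e1.trans e2.symm⟩

end NFH
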