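import Mathlib

/-!
# Number fields of given degree and bounded discriminant (MP_44a56e_nt), second proof: definitions
-/

set_option autoImplicit false

open MvPolynomial Module NumberField

namespace NFH

/-- The polynomial ring in `r` variables over `ℤ`. -/
abbrev PZ (r : ℕ) : Type := MvPolynomial (Fin r) ℤ

/-- The polynomials of total degree at most `d`. -/
noncomputable abbrev VZ (r d : ℕ) : Submodule ℤ (PZ r) := restrictTotalDegree (Fin r) ℤ d

/-- The Hilbert function of `ℤ[Y] / I`: the rank of the image of the polynomials of degree at most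
`d`. -/
noncomputable def hz {r : ℕ} (I : Ideal (PZ r)) (d : ℕ) : ℕ :=
  finrank ℤ ((VZ r d).map (Ideal.Quotient.mkₐ ℤ I).toLinearMap)

/-- The exponents of the monomials in `r` variables of degree at most `j`. -/
noncomputable def mon (r j : ℕ) : Finset (Fin r →₀ ℕ) :=
  (Finset.range (j + 1)).biUnion fun d => Finset.univ.finsuppAntidiag d

theorem mem_mon {r j : ℕ} {I : Fin r →₀ ℕ} : I ∈ mon r j ↔ I.degree ≤ j := by
  simp only [mon, Finset.mem_biUnion, Finset.mem_range, Finset.mem_finsuppAntidiag,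
    Finset.subset_univ, and_true, exists_eq_right', Finsupp.degree_eq_sum]
  exact Nat.lt_succ_iff

/-- The Taylor expansion `F (x + Z)` of `F` at the point `x`, a polynomial in `Z`. -/
noncomputable def tay {A : Type*} [CommRing A] {r : ℕ} (x : Fin r → A) :
    PZ r →ₐ[ℤ] MvPolynomial (Fin r) A :=
  aeval (fun j => C (x j) + X j)

/-- The coefficient of `Z ^ α` in the Taylor expansion of the monomial `Y ^ β` at `x`. -/
noncomputable def jet {A : Type*} [CommRing A] {r : ℕ} (x : Fin r → A) (α β : Fin r →₀ ℕ) : A :=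
  coeff α (tay x (monomial β 1))

/-- The Gram matrix of vectors of algebraic integers for the form `Tr (∑ u_a v_a)`. -/
noncomputable def gramT (K : Type*) [Field K] [NumberField K] {𝒜 ℬ : Type*} [Fintype 𝒜]
    (e : ℬ → 𝒜 → 𝓞 K) : Matrix ℬ ℬ ℤ :=
  Matrix.of fun b b' => Algebra.trace ℤ (𝓞 K) (∑ a, e b a * e b' a)

/-- The polynomials of degree at most `d` modulo `a ^ T + I`. -/
noncomputable abbrev QQ {r : ℕ} (I a : Ideal (PZ r)) (d T : ℕ) : Type :=
  ↥(VZ r d) ⧸ Submodule.comap (VZ r d).subtype ((a ^ T ⊔ I).restrictScalars ℤ)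

/-- The ideal `(p, f(Y_0), Y_j - q_j(Y_0))` of a class. -/
noncomputable def clsI {r : ℕ} (p : ℕ) (f : Polynomial ℤ) (q : Fin r → Polynomial ℤ) :
    Ideal (PZ (r + 1)) :=
  Ideal.span ({(p : PZ (r + 1)), Polynomial.aeval (X 0 : PZ (r + 1)) f} ∪
    Set.range fun j : Fin r => (X j.succ : PZ (r + 1)) - Polynomial.aeval (X 0 : PZ (r + 1)) (q j))

/-- The kernel of the evaluation of integer polynomials at a tuple of algebraic integers. -/
noncomputable abbrev kerI {r : ℕ} {K : Type*} [Field K] (x : Fin r → 𝓞 K) : Ideal (PZ r) :=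
  RingHom.ker (aeval x : PZ r →ₐ[ℤ] 𝓞 K)

end NFH
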