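import Pool.Agent.Lib.NFH.Defs

/-!
# Number fields of given degree and bounded discriminant (MP_44a56e_nt), second proof: more definitions
-/

set_option autoImplicit false

open MvPolynomial Module NumberField

namespace NFH

/-- The polynomial with the coefficients `c`. -/
noncomputable def pol {n p : ℕ} (c : Fin n → Fin p) : Polynomial ℤ :=
  ∑ i, Polynomial.C ((c i : ℕ) : ℤ) * Polynomial.X ^ (i : ℕ)

/-- The type of the classes at the prime `p`. -/
abbrev Cl (n r p : ℕ) : Type := (Fin n → Fin p) × (Fin r → Fin n → Fin p)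

/-- The tuple `x` belongs to the class `c` modulo `p`. -/
def InCl {K : Type} [Field K] {n r p : ℕ} (x : Fin (r + 1) → 𝓞 K) (c : Cl n r p) : Prop :=
  (p : 𝓞 K) ∣ Polynomial.aeval (x 0) (Polynomial.X ^ n + pol c.1) ∧
    ∀ j : Fin r, (p : 𝓞 K) ∣ x j.succ - Polynomial.aeval (x 0) (pol (c.2 j))

/-- The first determinant of the tuple `x`: jets of the monomials with exponents `b`. -/
noncomputable def det1 {K : Type} [Field K] [NumberField K] {n r k : ℕ}
    (b : Fin n × mon (r + 1) k → (Fin (r + 1) →₀ ℕ)) (x : Fin (r + 1) → 𝓞 K) : ℤ :=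
  (gramT K (fun (i : Fin n × mon (r + 1) k) (α : mon (r + 1) k) => jet x α.1 (b i))).det

/-- The second determinant of the tuple `x`: powers of the first coordinate. -/
noncomputable def det2 {K : Type} [Field K] [NumberField K] (n : ℕ) {r : ℕ}
    (x : Fin (r + 1) → 𝓞 K) : ℤ :=
  (gramT K (fun (i : Fin n) (_ : Unit) => x 0 ^ (i : ℕ))).det

/-- The number fields in `ℂ` of degree `n` with discriminant at most `X` in absolute value. -/
def FS (n : ℕ) (X : ℝ) : Set (IntermediateField ℚ ℂ) :=
  {K | finrank ℚ K = n ∧ ∃ _ : NumberField K, |(discr K : ℝ)| ≤ X}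

end NFH
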