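import Pool.Agent.Lib.NFH.Defs2
import Pool.Agent.Lib.NFH.JetB

/-!
MP_44a56e_nt (second proof), module DeltaB (about 100 lines): a bound for the two determinants.

PROOF of `delta_bound`. `D0` bounds the degrees of the `b i`. For `1 ≤ R` and `|φ (x j)| ≤ R`: `|φ (jet x α β)| ≤ 2^D0 R^D0` (`jet_map` for `φ` composed with `𝓞 K → K`, `jet_norm`, monotone in the degree), `|φ (x_0^i)| ≤ R^n`. `gram_bound` (GramL) for both:
`|det1| ≤ N! (n N' (2R)^(2 D0))^N`, `N = card (Fin n × mon)`, `|det2| ≤ n! (n R^(2n))^n`. The product is `≤ A R^a` with `A, a` depending on `n, r, k, D0` only.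
-/

set_option autoImplicit false

open MvPolynomial Module NumberField

namespace NFH

theorem delta_bound (n r k D0 : ℕ) : ∃ A a : ℕ, ∀ (b : Fin n × mon (r + 1) k →
    (Fin (r + 1) →₀ ℕ)), (∀ i, (b i).degree ≤ D0) → ∀ (K : Type) [Field K] [NumberField K],
    finrank ℚ K = n → ∀ (x : Fin (r + 1) → 𝓞 K) (R : ℝ), 1 ≤ R →
    (∀ (φ : K →+* ℂ) (j : Fin (r + 1)), ‖φ (x j : K)‖ ≤ R) →
    |((det1 b x * det2 n x : ℤ) : ℝ)| ≤ A * R ^ a := by
  set N : ℕ := Fintype.card (Fin n × mon (r + 1) k) with hN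
  set M : ℕ := Fintype.card (mon (r + 1) k) with hM
  refine ⟨(N.factorial * (n * M * 4 ^ D0) ^ N) * (n.factorial * n ^ n), 2 * D0 * N + 2 * n * n, ?_⟩
  intro b hb K _ _ hn x R hR hx
  have hR0 : (0 : ℝ) ≤ R := by linarith
  have h1 : |((det1 b x : ℤ) : ℝ)| ≤
      ((N.factorial * (n * M * 4 ^ D0) ^ N : ℕ) : ℝ) * R ^ (2 * D0 * N) := by
    have h2 := gram_bound (fun (i : Fin n × mon (r + 1) k) (α : mon (r + 1) k) =>
      jet x α.1 (b i)) (2 ^ D0 * R ^ D0) (by positivity) (by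
        intro φ i α
        have h3 : φ ((jet x α.1 (b i) : 𝓞 K) : K) =
            jet (fun j => φ (x j : K)) α.1 (b i) := by
          have h4 := jet_map (φ.comp (algebraMap (𝓞 K) K)) x α.1 (b i)
          exact h4
        show ‖φ ((jet x α.1 (b i) : 𝓞 K) : K)‖ ≤ _
        rw [h3]
        refine le_trans (jet_norm _ R hR (fun j => hx φ j) _ _) ?_
        exact mul_le_mul (pow_le_pow_right₀ (by norm_num) (hb i)) (pow_le_pow_right₀ hR (hb i))
          (by positivity) (by positivity))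
    unfold det1
    refine le_trans h2 (le_of_eq ?_)
    rw [hn, ← hN, ← hM]
    push_cast
    have h5 : (4 : ℝ) ^ D0 = (2 ^ D0) ^ 2 := by
      rw [← pow_mul, mul_comm D0 2, pow_mul]; norm_num
    rw [h5]
    ring
  have h2 : |((det2 n x : ℤ) : ℝ)| ≤ ((n.factorial * n ^ n : ℕ) : ℝ) * R ^ (2 * n * n) := by
    have h2 := gram_bound (fun (i : Fin n) (_ : Unit) => x 0 ^ (i : ℕ)) (R ^ n)
      (by positivity) (by
        intro φ i _
        have h3 : φ ((x 0 ^ (i : ℕ) : 𝓞 K) : K) = (φ (x 0 : K)) ^ (i : ℕ) := by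
          simp
        show ‖φ ((x 0 ^ (i : ℕ) : 𝓞 K) : K)‖ ≤ _
        rw [h3, norm_pow]
        refine le_trans (pow_le_pow_left₀ (norm_nonneg _) (hx φ 0) _) ?_
        exact pow_le_pow_right₀ hR i.2.le)
    unfold det2
    refine le_trans h2 (le_of_eq ?_)
    rw [hn, Fintype.card_fin]
    simp only [Fintype.card_unit]
    push_cast
    ring
  push_cast
  rw [abs_mul]
  refine le_trans (mul_le_mul h1 h2 (abs_nonneg _) (by positivity)) (le_of_eq ?_)
  push_cast
  ring

end NFH
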