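import Pool.Agent.Lib.NFH.Defs

/-!
MP_44a56e_nt (second proof), module Expand (about 150 lines): the `F`-adic expansion.

PROOF of `expand` by strong induction on `d` (all `g` and `F`). It is enough to treat a monomial `Y^β` with `|β| ≤ d` (a general `F` is
an integer combination of such: `F = ∑ β ∈ F.support, monomial β (coeff)`, `totalDegree` of sums/multiples by constants; `a ^ _` is an
ideal). `g = 0`: take `E = 0` (`a ^ 0 = ⊤`). `g ≥ 1`. If all `β j < D` then `|β| ≤ D r`, take `E = Y^β`. Otherwise `β j ≥ D` for some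
`j`; `M = Y^(β - D e_j)`, `Y^β = M X_j^D = M (X_j^D - G_j) + M G_j`, `|β - D e_j| ≤ d - D`.
* induction (`d - D`, `g - 1`) for `M`: `E'` of degree `≤ min (d-D) (D (g-1) + D r)` with `M - E' ∈ a^(s(g-1))`; so
  `(M - E')(X_j^D - G_j) ∈ a^(s g)` and `E' (X_j^D - G_j)` has degree `≤ D + min (d-D) (D(g-1)+D r) = min d (D g + D r)`
  (`totalDegree (X_j^D - G_j) ≤ D`).
* induction (`d - 1`, `g`) for `M G_j` (degree `≤ (d - D) + (D - 1)`): `E''`.
`E = E' (X_j^D - G_j) + E''`.
-/

set_option autoImplicit false

open MvPolynomial Module NumberField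

namespace NFH

private def PP {r : ℕ} (D s : ℕ) (a : Ideal (PZ r)) (d g : ℕ) (F : PZ r) : Prop :=
  ∃ E : PZ r, E.totalDegree ≤ min d (D * g + D * r) ∧ F - E ∈ a ^ (s * g)

private theorem PP_zero {r : ℕ} (D s : ℕ) (a : Ideal (PZ r)) (d g : ℕ) : PP D s a d g 0 := by
  refine ⟨0, ?_, ?_⟩
  · rw [totalDegree_zero]
    exact Nat.zero_le _
  · rw [sub_zero]
    exact Ideal.zero_mem _

private theorem PP_add {r : ℕ} {D s : ℕ} {a : Ideal (PZ r)} {d g : ℕ} {F F' : PZ r}
    (h : PP D s a d g F) (h' : PP D s a d g F') : PP D s a d g (F + F') := by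
  obtain ⟨E, h1, h2⟩ := h
  obtain ⟨E', h1', h2'⟩ := h'
  refine ⟨E + E', (totalDegree_add E E').trans (max_le h1 h1'), ?_⟩
  have h3 : F + F' - (E + E') = (F - E) + (F' - E') := by ring
  rw [h3]
  exact Ideal.add_mem _ h2 h2'

private theorem PP_C {r : ℕ} {D s : ℕ} {a : Ideal (PZ r)} {d g : ℕ} {F : PZ r} (c : ℤ)
    (h : PP D s a d g F) : PP D s a d g (C c * F) := by
  obtain ⟨E, h1, h2⟩ := h
  refine ⟨C c * E, ?_, ?_⟩
  · refine (totalDegree_mul _ _).trans ?_
    rw [totalDegree_C, zero_add]
    exact h1
  · have h3 : C c * F - C c * E = C c * (F - E) := by ring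
    rw [h3]
    exact Ideal.mul_mem_left _ _ h2

private theorem PP_of_mono {r : ℕ} {D s : ℕ} {a : Ideal (PZ r)} {d g : ℕ}
    (h : ∀ β : Fin r →₀ ℕ, β.degree ≤ d → PP D s a d g (monomial β 1)) (F : PZ r)
    (hd : F.totalDegree ≤ d) : PP D s a d g F := by
  have h1 : ∀ S : Finset (Fin r →₀ ℕ), S ⊆ F.support →
      PP D s a d g (∑ v ∈ S, monomial v (coeff v F)) := by
    intro S
    induction S using Finset.induction_on with
    | empty =>
      intro _
      rw [Finset.sum_empty]
      exact PP_zero D s a d g
    | insert v S hv ih =>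
      intro hS
      rw [Finset.sum_insert hv]
      refine PP_add ?_ (ih (fun x hx => hS (Finset.mem_insert_of_mem hx)))
      have h2 : monomial v (coeff v F) = C (coeff v F) * monomial v 1 := by
        rw [C_mul_monomial, mul_one]
      rw [h2]
      refine PP_C _ (h v (le_trans ?_ hd))
      exact le_totalDegree (hS (Finset.mem_insert_self v S))
  have h3 := h1 F.support (Finset.Subset.refl _)
  rw [support_sum_monomial_coeff] at h3
  exact h3

theorem expand {r : ℕ} (D s : ℕ) (hD : 1 ≤ D) (a : Ideal (PZ r)) (G : Fin r → PZ r)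
    (hG : ∀ j, (G j).totalDegree < D) (hF : ∀ j, X j ^ D - G j ∈ a ^ s) (d g : ℕ) (F : PZ r)
    (hd : F.totalDegree ≤ d) :
    ∃ E : PZ r, E.totalDegree ≤ min d (D * g + D * r) ∧ F - E ∈ a ^ (s * g) := by
  have key : ∀ d g : ℕ, ∀ F : PZ r, F.totalDegree ≤ d → PP D s a d g F := by
    intro d
    induction d using Nat.strong_induction_on with
    | _ d ih =>
      intro g F hd
      refine PP_of_mono (fun β hβ => ?_) F hd
      rcases Nat.eq_zero_or_pos g with hg | hg
      · refine ⟨0, ?_, ?_⟩
        · rw [totalDegree_zero]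
          exact Nat.zero_le _
        · rw [hg, mul_zero, pow_zero, Ideal.one_eq_top]
          exact Submodule.mem_top
      by_cases hall : ∀ j, β j < D
      · refine ⟨monomial β 1, ?_, ?_⟩
        · have h1 : (monomial β (1 : ℤ)).totalDegree = β.degree :=
            totalDegree_monomial _ one_ne_zero
          rw [h1]
          refine le_min hβ ?_
          rw [Finsupp.degree_eq_sum]
          have h2 : ∑ j, β j ≤ ∑ _j : Fin r, D := Finset.sum_le_sum (fun j _ => (hall j).le)
          rw [Finset.sum_const, Finset.card_univ, Fintype.card_fin, smul_eq_mul] at h2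
          calc ∑ j, β j ≤ r * D := h2
            _ = D * r := mul_comm _ _
            _ ≤ D * g + D * r := Nat.le_add_left _ _
        · rw [sub_self]
          exact Ideal.zero_mem _
      · push Not at hall
        obtain ⟨j, hj⟩ := hall
        have hsub : Finsupp.single j D ≤ β := Finsupp.single_le_iff.2 hj
        obtain ⟨γ, hγ⟩ := exists_add_of_le hsub
        have hdeg : D + γ.degree = β.degree := by
          rw [hγ, map_add, Finsupp.degree_single]
        have hdD : D ≤ d := by omega
        have hmon : (monomial β (1 : ℤ) : PZ r) = monomial γ 1 * X j ^ D := by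
          rw [X_pow_eq_monomial, monomial_mul, mul_one, hγ, add_comm]
        have hM : (monomial γ (1 : ℤ) : PZ r).totalDegree = γ.degree :=
          totalDegree_monomial _ one_ne_zero
        obtain ⟨E1, h1, h2⟩ := ih (d - D) (by omega) (g - 1) (monomial γ 1) (by omega)
        obtain ⟨E2, h3, h4⟩ := ih (d - 1) (by omega) g (monomial γ 1 * G j) (by
          refine (totalDegree_mul _ _).trans ?_
          have := hG j
          omega)
        have hsplit : D * g = D * (g - 1) + D := by
          have h5 : g = (g - 1) + 1 := by omega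
          conv_lhs => rw [h5]
          ring
        have hsplit' : s * g = s * (g - 1) + s := by
          have h5 : g = (g - 1) + 1 := by omega
          conv_lhs => rw [h5]
          ring
        have hX : (X j ^ D - G j : PZ r).totalDegree ≤ D := by
          refine (totalDegree_sub _ _).trans (max_le ?_ (hG j).le)
          exact (totalDegree_X_pow _ _).le
        refine ⟨E1 * (X j ^ D - G j) + E2, ?_, ?_⟩
        · refine (totalDegree_add _ _).trans (max_le ((totalDegree_mul _ _).trans ?_) ?_)
          · rw [le_min_iff] at h1 ⊢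
            omega
          · rw [le_min_iff] at h3 ⊢
            omega
        · have h5 : (monomial β (1 : ℤ) : PZ r) - (E1 * (X j ^ D - G j) + E2) =
              (monomial γ 1 - E1) * (X j ^ D - G j) + (monomial γ 1 * G j - E2) := by
            rw [hmon]
            ring
          rw [h5]
          refine Ideal.add_mem _ ?_ h4
          rw [hsplit', pow_add]
          exact Ideal.mul_mem_mul h2 (hF j)
  exact key d g F hd

end NFH
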