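import Pool.Agent.Lib.NFH.Defs

/-!
MP_44a56e_nt (second proof), module Primes (about 50 lines): primes not dividing a bounded integer.

PROOF. `exists_primes`: Bertrand (`Nat.exists_prime_lt_and_le_two_mul`) for `2^i Y`: a prime `p i` with `2^i Y < p i ≤ 2^(i+1) Y`; strictly increasing. `exists_not_dvd`: otherwise the product of the `k` distinct primes `p i` divides `Δ`
(`Finset.prod_primes_dvd` or coprimality), and it is `≥ Y^k > |Δ|`, so `Δ = 0`.
-/

set_option autoImplicit false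

open MvPolynomial Module NumberField

namespace NFH

theorem exists_primes (Y : ℕ) (hY : 1 ≤ Y) : ∃ p : ℕ → ℕ, (∀ i, (p i).Prime) ∧
    Function.Injective p ∧ ∀ i, Y ≤ p i ∧ p i ≤ 2 ^ (i + 1) * Y := by
  have hex : ∀ i : ℕ, ∃ q : ℕ, q.Prime ∧ 2 ^ i * Y < q ∧ q ≤ 2 * (2 ^ i * Y) := fun i =>
    Nat.exists_prime_lt_and_le_two_mul (2 ^ i * Y) (by positivity)
  choose p hp hlt hle using hex
  refine ⟨p, hp, ?_, fun i => ⟨?_, ?_⟩⟩
  · refine StrictMono.injective (strictMono_nat_of_lt_succ fun i => ?_)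
    refine (hle i).trans_lt (lt_of_eq_of_lt ?_ (hlt (i + 1)))
    ring
  · refine le_trans ?_ (hlt i).le
    exact Nat.le_mul_of_pos_left _ (by positivity)
  · refine (hle i).trans (le_of_eq ?_)
    ring

theorem exists_not_dvd (Y k : ℕ) (p : ℕ → ℕ) (hp : ∀ i, (p i).Prime)
    (hinj : Function.Injective p) (hY : ∀ i, Y ≤ p i) (Δ : ℤ) (hΔ : Δ ≠ 0)
    (hlt : |Δ| < (Y : ℤ) ^ k) : ∃ i < k, ¬ ((p i : ℤ) ∣ Δ) := by
  by_contra hcon
  push Not at hcon
  have hdvd : (∏ i ∈ Finset.range k, (p i : ℤ)) ∣ |Δ| := by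
    refine Finset.prod_dvd_of_coprime ?_ fun i hi => ?_
    · intro i _ j _ hij
      exact Nat.isCoprime_iff_coprime.2 ((Nat.coprime_primes (hp i) (hp j)).2 (hinj.ne hij))
    · exact (dvd_abs _ _).2 (hcon i (Finset.mem_range.1 hi))
  have h1 : (∏ i ∈ Finset.range k, (p i : ℤ)) ≤ |Δ| :=
    Int.le_of_dvd (abs_pos.2 hΔ) hdvd
  have h2 : (Y : ℤ) ^ k ≤ ∏ i ∈ Finset.range k, (p i : ℤ) := by
    have : (Y : ℤ) ^ k = ∏ _i ∈ Finset.range k, (Y : ℤ) := by simp
    rw [this]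
    exact Finset.prod_le_prod (fun i _ => by positivity) fun i _ => by exact_mod_cast hY i
  omega

end NFH
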