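import Pool.Agent.Lib.NFH.Tuple
import Pool.Agent.Lib.NFH.Primes
import Pool.Agent.Lib.NFH.ClsFib
import Pool.Agent.Lib.NFH.DeltaB
import Pool.Agent.Lib.NFH.CountC

/-!
MP_44a56e_nt (second proof), module Final (about 250 lines): the theorem.

PROOF of `main`. `c = 2 m + ε/(r+1)` (`≥ 2`), `k` so large that `2 ((r+1)(m-1) + m k + 1)/(k+1) < c` (the left side tends to `2m`). `D0 = (r+1)(m-1) + m k`. `(C0, b)` from `tuple n m r k`, `(d1, p0)` from `class_fibre n m r k c`, `(A, a)` from `delta_bound n r k D0`. `k0 = a + 1`.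
`X ≥ 1`: `R = C1 X^(1/n)` with `C1 = max(C0, A + 1, p0 + 1)`, so `R ≥ 1`, `R ≥ p0`, `R > A`; `Y = ⌈R^c⌉₊`, `R ≤ R^c ≤ Y ≤ R^c + 1 ≤ 2 R^c` (`c ≥ 1`). `p` from `exists_primes Y`. For `K ∈ FS n X` (a number field) choose `x K` from `tuple` (for other `K` anything, e.g. `0`):
conjugates `≤ C0 |D|^(1/n) ≤ R`, `det1 ≠ 0`, `det2 ≠ 0`, so `Δ = det1 * det2 ≠ 0`, `|Δ| ≤ A R^a < R^(a+1) ≤ Y^k0`; `exists_not_dvd`: an index `i K < k0` with `p (i K) ∤ Δ`, so it divides neither `det1` nor `det2`; `exists_cl`: a class `cl K : Cl n r (p (i K))`.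
For `i < k0` and `cl : Cl n r (p i)` let `S_(i,cl)` be the set of the `K ∈ FS n X` with `i K = i`, `InCl (x K) cl` and `p i ∤ det1, det2`. `count_fields` (`hprim` from `prim_of_det`; `hd` from `class_fibre` applied to the family indexed by the finset, `K ↦ K`, `R^c ≤ Y ≤ p i`, `p0 ≤ p i`):
`S_(i,cl)` is finite, `ncard ≤ d1 n`. `FS n X = ⋃_{i<k0} ⋃_cl S_(i,cl)`, the number of classes is `(p i)^(n + r n) ≤ (2^(k0) Y)^(n(r+1))` (`Fintype.card` of the `Π` types), so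
`ncard (FS n X) ≤ k0 (2^(k0) Y)^(n(r+1)) d1 n ≤ C' R^(c n (r+1)) = C'' X^(c (r+1)) = C'' X^(2 m (r+1) + ε)`.
`final`: `r ≥ 1` written as `r' + 1`.
-/

set_option autoImplicit false

open MvPolynomial Module NumberField

namespace NFH

private theorem exists_k (m r : ℕ) (hm : 1 ≤ m) (ε : ℝ) (hε : 0 < ε) : ∃ k : ℕ,
    2 * ((((r + 1) * (m - 1) + m * k + 1 : ℕ) : ℝ) / ((k + 1 : ℕ) : ℝ)) <
      2 * (m : ℝ) + ε / ((r + 1 : ℕ) : ℝ) := by
  obtain ⟨k, hk⟩ := exists_nat_gt (2 * (((r + 1) * (m - 1) + 1 : ℕ) : ℝ) * ((r + 1 : ℕ) : ℝ) / ε)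
  refine ⟨k, ?_⟩
  have hk1 : (0 : ℝ) < ((k + 1 : ℕ) : ℝ) := by positivity
  have hr1 : (0 : ℝ) < ((r + 1 : ℕ) : ℝ) := by positivity
  rw [div_lt_iff₀ hε] at hk
  have h1 : (((r + 1) * (m - 1) + m * k + 1 : ℕ) : ℝ) ≤
      (((r + 1) * (m - 1) + 1 : ℕ) : ℝ) + (m : ℝ) * ((k + 1 : ℕ) : ℝ) := by
    have h2 : (r + 1) * (m - 1) + m * k + 1 ≤ ((r + 1) * (m - 1) + 1) + m * (k + 1) := by
      have : m * (k + 1) = m * k + m := by ring
      omega
    exact_mod_cast h2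
  have h3 : (((r + 1) * (m - 1) + m * k + 1 : ℕ) : ℝ) / ((k + 1 : ℕ) : ℝ) ≤
      (((r + 1) * (m - 1) + 1 : ℕ) : ℝ) / ((k + 1 : ℕ) : ℝ) + m := by
    rw [div_add' _ _ _ hk1.ne']
    exact div_le_div_of_nonneg_right h1 hk1.le
  have h4 : 2 * ((((r + 1) * (m - 1) + 1 : ℕ) : ℝ) / ((k + 1 : ℕ) : ℝ)) <
      ε / ((r + 1 : ℕ) : ℝ) := by
    rw [mul_div_assoc', div_lt_div_iff₀ hk1 hr1]
    have h5 : (k : ℝ) * ε ≤ ε * ((k + 1 : ℕ) : ℝ) := by
      push_cast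
      nlinarith
    linarith
  linarith

private theorem card_Cl (n r p : ℕ) : Fintype.card (Cl n r p) = p ^ (n * (r + 1)) := by
  simp only [Cl, Fintype.card_prod, Fintype.card_fun, Fintype.card_fin]
  rw [← pow_mul, ← pow_add]
  congr 1
  ring

private theorem exists_x (n m r k : ℕ) (C0 X R : ℝ) (hC0 : 1 ≤ C0) (hn : 1 ≤ n) (hX : 1 ≤ X)
    (hR : C0 * X ^ ((1 : ℝ) / n) ≤ R)
    (b : Fin n × mon (r + 1) k → (Fin (r + 1) →₀ ℕ))
    (ht : ∀ (K : Type) [Field K] [NumberField K], finrank ℚ K = n →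
        ∃ x : Fin (r + 1) → 𝓞 K,
          (∀ (φ : K →+* ℂ) (j : Fin (r + 1)),
            ‖φ (x j : K)‖ ≤ C0 * |(discr K : ℝ)| ^ ((1 : ℝ) / n)) ∧
          (gramT K (fun (i : Fin n × mon (r + 1) k) (α : mon (r + 1) k) =>
            jet x α.1 (b i))).det ≠ 0 ∧
          (gramT K (fun (i : Fin n) (_ : Unit) => x 0 ^ (i : ℕ))).det ≠ 0)
    (K : IntermediateField ℚ ℂ) : ∃ x : Fin (r + 1) → 𝓞 K, K ∈ FS n X →
      ∃ _ : NumberField K, finrank ℚ K = n ∧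
        (∀ (φ : K →+* ℂ) (j : Fin (r + 1)), ‖φ (x j : K)‖ ≤ R) ∧ det1 b x ≠ 0 ∧
          det2 n x ≠ 0 := by
  by_cases hK : K ∈ FS n X
  · obtain ⟨h1, h2, h3⟩ := hK
    obtain ⟨x, hx1, hx2, hx3⟩ := ht K (by convert h1)
    refine ⟨x, fun _ => ⟨h2, h1, ?_, hx2, hx3⟩⟩
    intro φ j
    refine (hx1 φ j).trans (le_trans ?_ hR)
    refine mul_le_mul_of_nonneg_left ?_ (by linarith)
    exact Real.rpow_le_rpow (abs_nonneg _) h3 (by positivity)
  · exact ⟨0, fun h => absurd h hK⟩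

theorem main (n m r : ℕ) (hn : 1 ≤ n) (hm : 1 ≤ m) (h : n ≤ m ^ (r + 1)) (ε : ℝ) (hε : 0 < ε) :
    ∃ C : ℝ, 0 < C ∧ ∀ X : ℝ, 1 ≤ X → (FS n X).Finite ∧
      ((FS n X).ncard : ℝ) ≤ C * X ^ (2 * (m : ℝ) * ((r + 1 : ℕ) : ℝ) + ε) := by
  classical
  obtain ⟨k, hk⟩ := exists_k m r hm ε hε
  obtain ⟨C0, b, hC0, hb, ht⟩ := tuple n m r k hn hm h
  set c : ℝ := 2 * (m : ℝ) + ε / ((r + 1 : ℕ) : ℝ) with hc
  obtain ⟨d1, p0, hfib⟩ := class_fibre n m r k c hk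
  obtain ⟨A, a, hdel⟩ := delta_bound n r k ((r + 1) * (m - 1) + m * k)
  have hfib' := hfib b hb
  have hdel' := hdel b hb
  have hm1 : (1 : ℝ) ≤ (m : ℝ) := by exact_mod_cast hm
  have hc1 : 1 ≤ c := by
    have : 0 < ε / ((r + 1 : ℕ) : ℝ) := by positivity
    linarith
  set C1 : ℝ := C0 + A + 1 + p0 with hC1
  have hA0 : (0 : ℝ) ≤ (A : ℝ) := Nat.cast_nonneg A
  have hp00 : (0 : ℝ) ≤ (p0 : ℝ) := Nat.cast_nonneg p0
  have hC1pos : 0 < C1 := by linarith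
  set N : ℕ := n * (r + 1) with hN
  have hn0 : (0 : ℝ) < (n : ℝ) := by exact_mod_cast hn
  refine ⟨((a + 1 : ℕ) : ℝ) * ((((2 : ℝ) ^ (a + 2)) ^ N * C1 ^ (c * N)) * ((d1 * n : ℕ) : ℝ)) + 1,
    by positivity, fun X hX => ?_⟩
  have hX0 : (0 : ℝ) < X := by linarith
  set R : ℝ := C1 * X ^ ((1 : ℝ) / n) with hR
  have hX1 : 1 ≤ X ^ ((1 : ℝ) / n) := Real.one_le_rpow hX (by positivity)
  have hRC : C1 ≤ R := by
    rw [hR]
    nlinarith
  have hR1 : 1 ≤ R := by linarith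
  have hR0 : 0 < R := by linarith
  have hRc : R ≤ R ^ c := by
    conv_lhs => rw [← Real.rpow_one R]
    exact Real.rpow_le_rpow_of_exponent_le hR1 hc1
  set Y : ℕ := ⌈R ^ c⌉₊ with hY
  have hYge : R ^ c ≤ (Y : ℝ) := Nat.le_ceil _
  have hYR : R ≤ (Y : ℝ) := hRc.trans hYge
  have hY1 : 1 ≤ Y := by
    have : (1 : ℝ) ≤ (Y : ℝ) := by linarith
    exact_mod_cast this
  have hYle : (Y : ℝ) ≤ 2 * R ^ c := by
    have h1 := (Nat.ceil_lt_add_one (show 0 ≤ R ^ c by positivity)).le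
    linarith
  obtain ⟨p, hp1, hp2, hp3⟩ := exists_primes Y hY1
  have hRC0 : C0 * X ^ ((1 : ℝ) / n) ≤ R := by
    rw [hR]
    exact mul_le_mul_of_nonneg_right (by linarith) (by positivity)
  choose x hx using exists_x n m r k C0 X R hC0 hn hX hRC0 b ht
  set Sf : ∀ i : ℕ, Cl n r (p i) → Set (IntermediateField ℚ ℂ) := fun i cl =>
    {K | K ∈ FS n X ∧ ∃ _ : NumberField K, ¬ (p i : ℤ) ∣ det1 b (x K) ∧
      ¬ (p i : ℤ) ∣ det2 n (x K) ∧ InCl (x K) cl} with hSf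
  have hcount : ∀ (i : ℕ) (cl : Cl n r (p i)), (Sf i cl).Finite ∧ (Sf i cl).ncard ≤ d1 * n := by
    intro i cl
    refine count_fields n r d1 hn (Sf i cl) (fun K hK => hK.1.1) x ?_ ?_
    · intro K hK
      obtain ⟨hK0, hK1, hK2, hK3⟩ := hx K hK.1
      have := prim_of_det K n (by convert hK1) (x K 0) hK3.2
      convert this
    · intro ι hι hinj
      have hNF : ∀ K : {K // K ∈ ι}, NumberField (K.1 : IntermediateField ℚ ℂ) := by
        intro K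
        obtain ⟨hK0, -⟩ := hx K.1 (hι K.1 K.2).1
        exact hK0
      have h1 := hfib' {K // K ∈ ι} (fun K => (K.1 : IntermediateField ℚ ℂ))
        (fun K => x K.1) R (p i) hR1 (hp1 i) (by
          have h2 : (p0 : ℝ) ≤ (p i : ℝ) := by
            have h3 : (Y : ℝ) ≤ (p i : ℝ) := by exact_mod_cast (hp3 i).1
            linarith
          exact_mod_cast h2) (by
          have h3 : (Y : ℝ) ≤ (p i : ℝ) := by exact_mod_cast (hp3 i).1
          linarith) (by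
          intro K
          convert (hι K.1 K.2).1.1) (by
          intro K φ j
          obtain ⟨hK0, hK1, hK2, hK3⟩ := hx K.1 (hι K.1 K.2).1
          exact hK2 φ j) (by
          intro K
          obtain ⟨hK0, hK1, hK2, hK3, hK4⟩ := hι K.1 K.2
          exact hK2) (by
          intro K
          obtain ⟨hK0, hK1, hK2, hK3, hK4⟩ := hι K.1 K.2
          exact hK3) cl (by
          intro K
          obtain ⟨hK0, hK1, hK2, hK3, hK4⟩ := hι K.1 K.2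
          exact hK4) (by
          intro K L hKL
          exact Subtype.ext (hinj K.1 K.2 L.1 L.2 hKL))
      rw [Fintype.card_coe] at h1
      exact h1
  have hcover : ∀ K ∈ FS n X, ∃ i < a + 1, ∃ cl : Cl n r (p i), K ∈ Sf i cl := by
    intro K hK
    obtain ⟨hK0, hK1, hK2, hK3, hK4⟩ := hx K hK
    have h1 := hdel' K (by convert hK1) (x K) R hR1 hK2
    have h2 : (A : ℝ) * R ^ a < R ^ (a + 1) := by
      rw [pow_succ, mul_comm]
      exact mul_lt_mul_of_pos_left (by linarith) (by positivity)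
    have h3 : R ^ (a + 1) ≤ (Y : ℝ) ^ (a + 1) := pow_le_pow_left₀ hR0.le hYR _
    have h4 : |det1 b (x K) * det2 n (x K)| < (Y : ℤ) ^ (a + 1) := by
      have h5 : |((det1 b (x K) * det2 n (x K) : ℤ) : ℝ)| < (Y : ℝ) ^ (a + 1) := by linarith
      exact_mod_cast h5
    obtain ⟨i, hi, hdvd⟩ := exists_not_dvd Y (a + 1) p hp1 hp2 (fun i => (hp3 i).1)
      (det1 b (x K) * det2 n (x K)) (mul_ne_zero hK3 hK4) h4
    have h6 : ¬ (p i : ℤ) ∣ det1 b (x K) := fun h => hdvd (Dvd.dvd.mul_right h _)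
    have h7 : ¬ (p i : ℤ) ∣ det2 n (x K) := fun h => hdvd (Dvd.dvd.mul_left h _)
    obtain ⟨cl, hcl⟩ := exists_cl (by convert hK1) (x K) (p i) (hp1 i) h7
    exact ⟨i, hi, cl, hK, hK0, h6, h7, hcl⟩
  set F : Finset (IntermediateField ℚ ℂ) := (Finset.range (a + 1)).biUnion
    (fun i => (Finset.univ : Finset (Cl n r (p i))).biUnion
      (fun cl => (hcount i cl).1.toFinset)) with hF
  have hsub : FS n X ⊆ (F : Set (IntermediateField ℚ ℂ)) := by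
    intro K hK
    obtain ⟨i, hi, cl, hcl⟩ := hcover K hK
    rw [Finset.mem_coe, hF, Finset.mem_biUnion]
    refine ⟨i, Finset.mem_range.2 hi, ?_⟩
    rw [Finset.mem_biUnion]
    refine ⟨cl, Finset.mem_univ _, ?_⟩
    rw [Set.Finite.mem_toFinset]
    exact hcl
  have hFcard : F.card ≤ (a + 1) * (((2 ^ (a + 1) * Y) ^ N) * (d1 * n)) := by
    rw [hF]
    have h1 := Finset.card_biUnion_le_card_mul (Finset.range (a + 1))
      (fun i => (Finset.univ : Finset (Cl n r (p i))).biUnion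
        (fun cl => (hcount i cl).1.toFinset)) (((2 ^ (a + 1) * Y) ^ N) * (d1 * n)) (by
        intro i hi
        rw [Finset.mem_range] at hi
        have h2 := Finset.card_biUnion_le_card_mul (Finset.univ : Finset (Cl n r (p i)))
          (fun cl => (hcount i cl).1.toFinset) (d1 * n) (by
            intro cl _
            have h3 := (hcount i cl).2
            rw [Set.ncard_eq_toFinset_card _ (hcount i cl).1] at h3
            exact h3)
        refine h2.trans (Nat.mul_le_mul_right _ ?_)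
        rw [Finset.card_univ, card_Cl]
        refine Nat.pow_le_pow_left ((hp3 i).2.trans (Nat.mul_le_mul_right _ ?_)) _
        exact Nat.pow_le_pow_right (by norm_num) (by omega))
    rw [Finset.card_range] at h1
    exact h1
  have hfin : (FS n X).Finite := F.finite_toSet.subset hsub
  refine ⟨hfin, ?_⟩
  have h1 : (FS n X).ncard ≤ F.card := by
    have := Set.ncard_le_ncard hsub F.finite_toSet
    rw [Set.ncard_coe_finset] at this
    exact this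
  have h2 : ((FS n X).ncard : ℝ) ≤
      ((a + 1 : ℕ) : ℝ) * ((((2 : ℝ) ^ (a + 1) * Y) ^ N) * ((d1 * n : ℕ) : ℝ)) := by
    exact_mod_cast h1.trans hFcard
  refine h2.trans ?_
  have h3 : ((2 : ℝ) ^ (a + 1) * Y) ^ N ≤ ((2 : ℝ) ^ (a + 2)) ^ N * C1 ^ (c * N) *
      X ^ (2 * (m : ℝ) * ((r + 1 : ℕ) : ℝ) + ε) := by
    have h4 : (2 : ℝ) ^ (a + 1) * Y ≤ (2 : ℝ) ^ (a + 2) * R ^ c := by
      calc (2 : ℝ) ^ (a + 1) * Y ≤ (2 : ℝ) ^ (a + 1) * (2 * R ^ c) :=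
            mul_le_mul_of_nonneg_left hYle (by positivity)
        _ = (2 : ℝ) ^ (a + 2) * R ^ c := by ring
    have h5 : ((2 : ℝ) ^ (a + 1) * Y) ^ N ≤ ((2 : ℝ) ^ (a + 2) * R ^ c) ^ N :=
      pow_le_pow_left₀ (by positivity) h4 _
    refine h5.trans (le_of_eq ?_)
    rw [mul_pow, ← Real.rpow_natCast (R ^ c) N, ← Real.rpow_mul hR0.le, hR,
      Real.mul_rpow hC1pos.le (by positivity), ← Real.rpow_mul hX0.le]
    have h6 : (1 : ℝ) / n * (c * (N : ℝ)) = 2 * (m : ℝ) * ((r + 1 : ℕ) : ℝ) + ε := by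
      rw [hc, hN]
      push_cast
      field_simp
    rw [h6]
    ring
  have h7 : (0 : ℝ) ≤ X ^ (2 * (m : ℝ) * ((r + 1 : ℕ) : ℝ) + ε) := by positivity
  calc ((a + 1 : ℕ) : ℝ) * ((((2 : ℝ) ^ (a + 1) * Y) ^ N) * ((d1 * n : ℕ) : ℝ))
      ≤ ((a + 1 : ℕ) : ℝ) * ((((2 : ℝ) ^ (a + 2)) ^ N * C1 ^ (c * N) *
        X ^ (2 * (m : ℝ) * ((r + 1 : ℕ) : ℝ) + ε)) * ((d1 * n : ℕ) : ℝ)) :=
        mul_le_mul_of_nonneg_left (mul_le_mul_of_nonneg_right h3 (by positivity)) (by positivity)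
    _ = ((a + 1 : ℕ) : ℝ) * ((((2 : ℝ) ^ (a + 2)) ^ N * C1 ^ (c * N)) * ((d1 * n : ℕ) : ℝ)) *
        X ^ (2 * (m : ℝ) * ((r + 1 : ℕ) : ℝ) + ε) := by ring
    _ ≤ (((a + 1 : ℕ) : ℝ) * ((((2 : ℝ) ^ (a + 2)) ^ N * C1 ^ (c * N)) * ((d1 * n : ℕ) : ℝ)) + 1) *
        X ^ (2 * (m : ℝ) * ((r + 1 : ℕ) : ℝ) + ε) :=
        mul_le_mul_of_nonneg_right (by linarith) h7

theorem final (n m r : ℕ) (hn : 1 ≤ n) (hm : 1 ≤ m) (hr : 1 ≤ r) (h : n ≤ m ^ r) (ε : ℝ)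
    (hε : 0 < ε) :
    ∃ C : ℝ, 0 < C ∧ ∀ X : ℝ, 1 ≤ X →
      {K : IntermediateField ℚ ℂ | finrank ℚ K = n ∧
        ∃ _ : NumberField K, |(discr K : ℝ)| ≤ X}.Finite ∧
      ({K : IntermediateField ℚ ℂ | finrank ℚ K = n ∧
        ∃ _ : NumberField K, |(discr K : ℝ)| ≤ X}.ncard : ℝ) ≤
        C * X ^ (2 * (m : ℝ) * (r : ℝ) + ε) := by
  obtain ⟨r', rfl⟩ : ∃ r', r = r' + 1 := ⟨r - 1, by omega⟩
  exact main n m r' hn hm h ε hε

end NFH
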