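import Pool.Agent.Lib.NFH.Final

/-!
MP_44a56e_nt (second proof), module FinalI: the theorem for isomorphism classes of number fields.
-/

set_option autoImplicit false

open MvPolynomial Module NumberField

namespace NFH

theorem final_iso (n m r : ℕ) (hn : 1 ≤ n) (hm : 1 ≤ m) (hr : 1 ≤ r) (h : n ≤ m ^ r) (ε : ℝ)
    (hε : 0 < ε) :
    ∃ C : ℝ, 0 < C ∧ ∀ X : ℝ, 1 ≤ X →
      Finite (Quot (fun K L : {K : IntermediateField ℚ ℂ // finrank ℚ K = n ∧
        ∃ (h0 : CharZero K) (h : FiniteDimensional ℚ K),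
          |((@NumberField.discr K _ { to_charZero := h0, to_finiteDimensional := h } : ℤ) : ℝ)|
            ≤ X} => Nonempty (K.1 ≃ₐ[ℚ] L.1))) ∧
      (Nat.card (Quot (fun K L : {K : IntermediateField ℚ ℂ // finrank ℚ K = n ∧
        ∃ (h0 : CharZero K) (h : FiniteDimensional ℚ K),
          |((@NumberField.discr K _ { to_charZero := h0, to_finiteDimensional := h } : ℤ) : ℝ)|
            ≤ X} => Nonempty (K.1 ≃ₐ[ℚ] L.1))) : ℝ) ≤ C * X ^ (2 * (m : ℝ) * (r : ℝ) + ε) := by
  obtain ⟨C, hC, hX⟩ := final n m r hn hm hr h ε hε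
  refine ⟨C, hC, fun X hX1 => ?_⟩
  obtain ⟨hfin, hcard⟩ := hX X hX1
  have hsub : ∀ K : IntermediateField ℚ ℂ, (finrank ℚ K = n ∧
      ∃ (h0 : CharZero K) (h : FiniteDimensional ℚ K),
        |((@NumberField.discr K _ { to_charZero := h0, to_finiteDimensional := h } : ℤ) : ℝ)|
          ≤ X) → K ∈ {K : IntermediateField ℚ ℂ | finrank ℚ K = n ∧
        ∃ _ : NumberField K, |(discr K : ℝ)| ≤ X} := by
    rintro K ⟨h1, h0, h2, h3⟩
    exact ⟨h1, { to_charZero := h0, to_finiteDimensional := h2 }, h3⟩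
  have hfin' : {K : IntermediateField ℚ ℂ | finrank ℚ K = n ∧
      ∃ (h0 : CharZero K) (h : FiniteDimensional ℚ K),
        |((@NumberField.discr K _ { to_charZero := h0, to_finiteDimensional := h } : ℤ) : ℝ)|
          ≤ X}.Finite := hfin.subset fun K hK => hsub K hK
  have hF : Finite {K : IntermediateField ℚ ℂ // finrank ℚ K = n ∧
      ∃ (h0 : CharZero K) (h : FiniteDimensional ℚ K),
        |((@NumberField.discr K _ { to_charZero := h0, to_finiteDimensional := h } : ℤ) : ℝ)|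
          ≤ X} := hfin'
  refine ⟨inferInstance, le_trans ?_ hcard⟩
  have h1 := Nat.card_le_card_of_surjective _ (Quot.mk_surjective (r := fun K L :
    {K : IntermediateField ℚ ℂ // finrank ℚ K = n ∧
      ∃ (h0 : CharZero K) (h : FiniteDimensional ℚ K),
        |((@NumberField.discr K _ { to_charZero := h0, to_finiteDimensional := h } : ℤ) : ℝ)|
          ≤ X} => Nonempty (K.1 ≃ₐ[ℚ] L.1)))
  have h2 := Set.ncard_le_ncard (fun K hK => hsub K hK : {K : IntermediateField ℚ ℂ |
    finrank ℚ K = n ∧ ∃ (h0 : CharZero K) (h : FiniteDimensional ℚ K),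
      |((@NumberField.discr K _ { to_charZero := h0, to_finiteDimensional := h } : ℤ) : ℝ)|
        ≤ X} ⊆ {K : IntermediateField ℚ ℂ | finrank ℚ K = n ∧
        ∃ _ : NumberField K, |(discr K : ℝ)| ≤ X}) hfin
  rw [← Nat.card_coe_set_eq] at h2
  exact_mod_cast h1.trans h2

end NFH
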