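import Pool.Agent.Lib.NFH.GramL

/-!
MP_44a56e_nt (second proof), module GramDet: the Gram matrix of the powers of a primitive integer.
-/

set_option autoImplicit false

open MvPolynomial Module NumberField

namespace NFH

theorem vander (K : Type) [Field K] [NumberField K] (n : ℕ) (σ : Fin n ≃ (K →+* ℂ))
    (z : 𝓞 K) (hz : Function.Injective fun i => σ i (z : K)) :
    (gramT K (fun (i : Fin n) (_ : Unit) => z ^ (i : ℕ))).det ≠ 0 := by
  refine gram_det_ne (fun (i : Fin n) (_ : Unit) => z ^ (i : ℕ))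
    (σ.trans (Equiv.prodPUnit.{0} (K →+* ℂ)).symm) ?_
  have h : (Matrix.of fun i j : Fin n =>
      ((σ.trans (Equiv.prodPUnit.{0} (K →+* ℂ)).symm) i).1
        (((z ^ (j : ℕ) : 𝓞 K)) : K)) = Matrix.vandermonde fun i => σ i (z : K) := by
    ext i j
    simp [Matrix.vandermonde_apply]
  have h2 := Matrix.det_vandermonde_ne_zero_iff.2 hz
  rw [← h] at h2
  exact h2

end NFH
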