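import Pool.Agent.Lib.NFH.Defs

/-!
MP_44a56e_nt (second proof), module GramL (about 200 lines): Gram matrices of vectors of algebraic integers for the trace form.

NOTATION. `n = finrank ℚ K = card (K →+* ℂ)`, `A` the complex matrix with rows `(φ, a)`, columns `b`, entries `φ (e b a)`; it is square by `hcard`. `AᵀA` is `gramT K e` mapped to `ℂ`
(`Algebra.trace_eq_sum_embeddings`, trace over `ℤ` of `𝓞 K` = trace over `ℚ` of `K`: `Algebra.trace_localization`/`Algebra.coe_trace_int`/`NumberField.RingOfIntegers` lemma). So `det (gramT) = ± (det A)^2`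
up to reindexing, and `det (gramT) ≠ 0` iff `A` invertible.
`gram_det_ne`: the converse used for the construction: if the columns are such that `A` (for SOME bijection of the row set with `ℬ`) has nonzero determinant then `gramT` has nonzero determinant.
`gram_surj`: `M = gramT K e`, `δ = det M`. `β_b = Tr(∑_a e_b a w_a) ∈ ℤ`, `c' = adjugate M *ᵥ β`. Then `M c' = δ β`; in complex terms `Aᵀ (δ ŵ - A c') = δ β - M c' = 0` with `ŵ = (φ w_a)`; `Aᵀ` is invertible, so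
`δ w_a = ∑_b c'_b e_b a` for all `a` (apply `φ` injective). Choose `δ'` with `δ δ' = 1 mod p`, `c_b = δ' c'_b`: `w_a - ∑ c_b e_b a = (1 - δ δ') w_a`.
`gram_inj`: `∑ c_b e_b a = p z_a`: pair with `e_b'`: `(M c)_b' = p Tr(∑ e_b' a z_a)`, so `δ c = adjugate M (M c) ∈ p ℤ^ℬ`, `p ∤ δ` prime, so `p ∣ c_b`.
`gram_bound`: entries are integers of absolute value `≤ n * card 𝒜 * B^2` (trace = sum over the embeddings); `Matrix.det_apply` and the triangle inequality.
-/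

set_option autoImplicit false

open MvPolynomial Module NumberField

namespace NFH

private theorem tr_eq {K : Type*} [Field K] [NumberField K] (x : 𝓞 K) :
    ((Algebra.trace ℤ (𝓞 K) x : ℤ) : ℂ) = ∑ φ : K →+* ℂ, φ (x : K) := by
  have h1 : ((Algebra.trace ℤ (𝓞 K) x : ℤ) : ℚ) = Algebra.trace ℚ K (x : K) :=
    Algebra.coe_trace_int x
  have h2 := trace_eq_sum_embeddings (K := ℚ) (L := K) ℂ (x := (x : K))
  rw [← h1] at h2
  have h3 : ((Algebra.trace ℤ (𝓞 K) x : ℤ) : ℂ) =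
      algebraMap ℚ ℂ ((Algebra.trace ℤ (𝓞 K) x : ℤ) : ℚ) := by simp
  rw [h3, h2]
  exact (Fintype.sum_equiv (RingHom.equivRatAlgHom (R := K) (S := ℂ)) (fun φ => φ (x : K))
    (fun σ => σ (x : K)) (fun φ => rfl)).symm

/-- The square matrix of the embeddings. -/
private noncomputable def AA {K : Type*} [Field K] [NumberField K] {𝒜 ℬ : Type*}
    (e : ℬ → 𝒜 → 𝓞 K) (u : ℬ ≃ (K →+* ℂ) × 𝒜) : Matrix ℬ ℬ ℂ :=
  Matrix.of fun i j : ℬ => (u i).1 (e j (u i).2 : K)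

private theorem sum_u {K : Type*} [Field K] [NumberField K] {𝒜 ℬ : Type*} [Fintype 𝒜]
    [Fintype ℬ] (u : ℬ ≃ (K →+* ℂ) × 𝒜) (x y : 𝒜 → 𝓞 K) :
    ∑ i : ℬ, (u i).1 (x (u i).2 : K) * (u i).1 (y (u i).2 : K) =
      ((Algebra.trace ℤ (𝓞 K) (∑ a, x a * y a) : ℤ) : ℂ) := by
  rw [tr_eq, Fintype.sum_equiv u _ (fun q : (K →+* ℂ) × 𝒜 => q.1 (x q.2 : K) * q.1 (y q.2 : K))
    (fun i => rfl), Fintype.sum_prod_type]
  refine Finset.sum_congr rfl (fun φ _ => ?_)
  simp only [map_sum, map_mul]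

private theorem gram_map {K : Type*} [Field K] [NumberField K] {𝒜 ℬ : Type*} [Fintype 𝒜]
    [Fintype ℬ] (e : ℬ → 𝒜 → 𝓞 K) (u : ℬ ≃ (K →+* ℂ) × 𝒜) :
    (gramT K e).map (Int.castRingHom ℂ) = (AA e u).transpose * AA e u := by
  ext b b'
  rw [Matrix.mul_apply]
  have h1 := sum_u u (e b) (e b')
  exact h1.symm

private theorem gram_det {K : Type*} [Field K] [NumberField K] {𝒜 ℬ : Type*} [Fintype 𝒜]
    [Fintype ℬ] [DecidableEq ℬ] (e : ℬ → 𝒜 → 𝓞 K) (u : ℬ ≃ (K →+* ℂ) × 𝒜) :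
    ((gramT K e).det : ℂ) = (AA e u).det ^ 2 := by
  have h1 := (Int.castRingHom ℂ).map_det (gramT K e)
  rw [RingHom.mapMatrix_apply, gram_map e u, Matrix.det_mul, Matrix.det_transpose, ← sq] at h1
  exact h1

theorem gram_det_ne {K : Type*} [Field K] [NumberField K] {𝒜 ℬ : Type*} [Fintype 𝒜] [Fintype ℬ]
    [DecidableEq ℬ] (e : ℬ → 𝒜 → 𝓞 K) (u : ℬ ≃ (K →+* ℂ) × 𝒜)
    (h : (Matrix.of fun i j : ℬ => (u i).1 (e j (u i).2 : K)).det ≠ 0) :
    (gramT K e).det ≠ 0 := by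
  intro h0
  have h1 := gram_det e u
  rw [h0, Int.cast_zero] at h1
  exact h (pow_eq_zero_iff (two_ne_zero) |>.1 h1.symm)

theorem gram_surj {K : Type*} [Field K] [NumberField K] {𝒜 ℬ : Type*} [Fintype 𝒜] [Fintype ℬ]
    [DecidableEq ℬ] (hcard : Fintype.card ℬ = finrank ℚ K * Fintype.card 𝒜) (e : ℬ → 𝒜 → 𝓞 K)
    (p : ℕ) (hp : p.Prime) (hdet : ¬ (p : ℤ) ∣ (gramT K e).det) (w : 𝒜 → 𝓞 K) :
    ∃ c : ℬ → ℤ, ∀ a, (p : 𝓞 K) ∣ w a - ∑ b, (c b : 𝓞 K) * e b a := by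
  have hc : Fintype.card ℬ = Fintype.card ((K →+* ℂ) × 𝒜) := by
    rw [Fintype.card_prod, NumberField.Embeddings.card, hcard]
  obtain ⟨u⟩ : Nonempty (ℬ ≃ (K →+* ℂ) × 𝒜) := ⟨Fintype.equivOfCardEq hc⟩
  set M := gramT K e with hM
  set δ := M.det with hδ
  have hδ0 : δ ≠ 0 := fun h => hdet (h ▸ dvd_zero _)
  have hA0 : (AA e u).det ≠ 0 := by
    intro h0
    have h1 := gram_det e u
    rw [h0, zero_pow two_ne_zero] at h1
    exact hδ0 (by exact_mod_cast h1)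
  set β : ℬ → ℤ := fun b => Algebra.trace ℤ (𝓞 K) (∑ a, e b a * w a) with hβ
  set c' : ℬ → ℤ := M.adjugate.mulVec β with hc'
  have hMc : M.mulVec c' = δ • β := by
    rw [hc', Matrix.mulVec_mulVec, Matrix.mul_adjugate, Matrix.smul_mulVec, Matrix.one_mulVec]
  set wh : ℬ → ℂ := fun i => (u i).1 (w (u i).2 : K) with hwh
  set v : ℬ → ℂ := (δ : ℂ) • wh - (AA e u).mulVec (fun b => (c' b : ℂ)) with hv
  have hv0 : v = 0 := by
    apply Matrix.eq_zero_of_mulVec_eq_zero (M := (AA e u).transpose)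
    · rw [Matrix.det_transpose]
      exact hA0
    · rw [hv, Matrix.mulVec_sub, Matrix.mulVec_smul, Matrix.mulVec_mulVec, ← gram_map e u,
        sub_eq_zero]
      funext b
      have h1 : ((AA e u).transpose.mulVec wh) b = (β b : ℂ) := by
        have h2 := sum_u u (e b) w
        exact h2
      have h3 : ((gramT K e).map (Int.castRingHom ℂ)).mulVec (fun b => (c' b : ℂ)) b =
          (((M.mulVec c') b : ℤ) : ℂ) := by
        unfold Matrix.mulVec dotProduct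
        push_cast
        rfl
      rw [Pi.smul_apply, h1, h3, hMc, Pi.smul_apply, smul_eq_mul, smul_eq_mul]
      push_cast
      rfl
  have hw : ∀ a, (δ : 𝓞 K) * w a = ∑ b, (c' b : 𝓞 K) * e b a := by
    intro a
    obtain ⟨φ⟩ : Nonempty (K →+* ℂ) := inferInstance
    have h1 := congrFun hv0 (u.symm (φ, a))
    rw [hv, Pi.sub_apply, Pi.smul_apply, Pi.zero_apply, sub_eq_zero] at h1
    have h2 : wh (u.symm (φ, a)) = φ (w a : K) := by
      rw [hwh]
      simp only [Equiv.apply_symm_apply]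
    have h3 : (AA e u).mulVec (fun b => (c' b : ℂ)) (u.symm (φ, a)) =
        ∑ b, φ (e b a : K) * (c' b : ℂ) := by
      unfold Matrix.mulVec dotProduct AA
      simp only [Matrix.of_apply, Equiv.apply_symm_apply]
    rw [h2, h3, smul_eq_mul] at h1
    have h4 : φ (((δ : 𝓞 K) * w a : 𝓞 K) : K) =
        φ ((∑ b, (c' b : 𝓞 K) * e b a : 𝓞 K) : K) := by
      simp only [map_mul, map_sum, map_intCast]
      rw [h1]
      exact Finset.sum_congr rfl (fun b _ => mul_comm _ _)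
    exact NumberField.RingOfIntegers.ext (φ.injective h4)
  have hcop : IsCoprime (p : ℤ) δ :=
    (Nat.prime_iff_prime_int.1 hp).irreducible.coprime_iff_not_dvd.2 hdet
  obtain ⟨s, t, hst⟩ := hcop
  refine ⟨fun b => t * c' b, fun a => ?_⟩
  have h5 : ∑ b, ((t * c' b : ℤ) : 𝓞 K) * e b a = (t : 𝓞 K) * ((δ : 𝓞 K) * w a) := by
    rw [hw a, Finset.mul_sum]
    refine Finset.sum_congr rfl (fun b _ => ?_)
    push_cast
    ring
  have h6 : ((s : 𝓞 K) * (p : 𝓞 K) + (t : 𝓞 K) * (δ : 𝓞 K)) = 1 := by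
    have := congrArg (fun z : ℤ => (z : 𝓞 K)) hst
    push_cast at this
    exact this
  rw [h5]
  refine ⟨(s : 𝓞 K) * w a, ?_⟩
  calc w a - (t : 𝓞 K) * ((δ : 𝓞 K) * w a)
      = ((s : 𝓞 K) * (p : 𝓞 K) + (t : 𝓞 K) * (δ : 𝓞 K)) * w a -
        (t : 𝓞 K) * ((δ : 𝓞 K) * w a) := by rw [h6, one_mul]
    _ = (p : 𝓞 K) * ((s : 𝓞 K) * w a) := by ring

theorem gram_inj {K : Type*} [Field K] [NumberField K] {𝒜 ℬ : Type*} [Fintype 𝒜] [Fintype ℬ]
    [DecidableEq ℬ] (e : ℬ → 𝒜 → 𝓞 K) (p : ℕ) (hp : p.Prime)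
    (hdet : ¬ (p : ℤ) ∣ (gramT K e).det) (c : ℬ → ℤ)
    (h : ∀ a, (p : 𝓞 K) ∣ ∑ b, (c b : 𝓞 K) * e b a) (b : ℬ) : (p : ℤ) ∣ c b := by
  choose z hz using h
  have h1 : (gramT K e).mulVec c =
      (p : ℤ) • (fun b' => Algebra.trace ℤ (𝓞 K) (∑ a, e b' a * z a)) := by
    funext b'
    have h2 : (gramT K e).mulVec c b' = Algebra.trace ℤ (𝓞 K)
        (∑ b, (c b) • ∑ a, e b' a * e b a) := by
      rw [map_sum]
      unfold Matrix.mulVec dotProduct
      refine Finset.sum_congr rfl (fun b _ => ?_)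
      rw [map_zsmul, smul_eq_mul, mul_comm]
      rfl
    have h3 : ∑ b, (c b) • ∑ a, e b' a * e b a = (p : ℤ) • ∑ a, e b' a * z a := by
      have h4 : ∀ a, e b' a * ((p : 𝓞 K) * z a) = ∑ b, (c b) • (e b' a * e b a) := by
        intro a
        rw [← hz a, Finset.mul_sum]
        refine Finset.sum_congr rfl (fun b _ => ?_)
        rw [zsmul_eq_mul]
        ring
      simp only [Finset.smul_sum]
      rw [Finset.sum_comm]
      refine Finset.sum_congr rfl (fun a _ => ?_)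
      rw [← h4 a, zsmul_eq_mul]
      push_cast
      ring
    rw [h2, h3, map_zsmul, Pi.smul_apply]
  have h5 : (gramT K e).adjugate.mulVec ((gramT K e).mulVec c) = (gramT K e).det • c := by
    rw [Matrix.mulVec_mulVec, Matrix.adjugate_mul, Matrix.smul_mulVec, Matrix.one_mulVec]
  rw [h1, Matrix.mulVec_smul] at h5
  have h6 := congrFun h5 b
  rw [Pi.smul_apply, Pi.smul_apply, smul_eq_mul, smul_eq_mul] at h6
  have h7 : (p : ℤ) ∣ (gramT K e).det * c b := ⟨_, h6.symm⟩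
  exact ((Nat.prime_iff_prime_int.1 hp).dvd_or_dvd h7).resolve_left hdet

theorem gram_bound {K : Type*} [Field K] [NumberField K] {𝒜 ℬ : Type*} [Fintype 𝒜] [Fintype ℬ]
    [DecidableEq ℬ] (e : ℬ → 𝒜 → 𝓞 K) (B : ℝ) (hB : 0 ≤ B)
    (h : ∀ (φ : K →+* ℂ) b a, ‖φ (e b a : K)‖ ≤ B) :
    |((gramT K e).det : ℝ)| ≤ (Fintype.card ℬ).factorial *
      (finrank ℚ K * Fintype.card 𝒜 * B ^ 2) ^ Fintype.card ℬ := by
  have h1 : ∀ b b', |((gramT K e b b' : ℤ) : ℝ)| ≤ finrank ℚ K * Fintype.card 𝒜 * B ^ 2 := by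
    intro b b'
    have h2 : ((gramT K e b b' : ℤ) : ℂ) = ∑ φ : K →+* ℂ, φ ((∑ a, e b a * e b' a : 𝓞 K) : K) :=
      tr_eq _
    have h3 : |((gramT K e b b' : ℤ) : ℝ)| = ‖((gramT K e b b' : ℤ) : ℂ)‖ := by
      rw [Complex.norm_intCast]
    rw [h3, h2]
    refine le_trans (norm_sum_le _ _) ?_
    have h4 : ∀ φ ∈ (Finset.univ : Finset (K →+* ℂ)),
        ‖φ ((∑ a, e b a * e b' a : 𝓞 K) : K)‖ ≤ Fintype.card 𝒜 * B ^ 2 := by
      intro φ _
      simp only [map_sum, map_mul]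
      refine le_trans (norm_sum_le _ _) ?_
      have h5 : ∀ a ∈ (Finset.univ : Finset 𝒜), ‖φ (e b a : K) * φ (e b' a : K)‖ ≤ B ^ 2 := by
        intro a _
        rw [norm_mul, sq]
        exact mul_le_mul (h φ b a) (h φ b' a) (norm_nonneg _) hB
      refine le_trans (Finset.sum_le_sum h5) ?_
      rw [Finset.sum_const, nsmul_eq_mul, Finset.card_univ]
    refine le_trans (Finset.sum_le_sum h4) ?_
    rw [Finset.sum_const, nsmul_eq_mul, Finset.card_univ, NumberField.Embeddings.card]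
    rw [mul_assoc]
  have h6 := Matrix.det_le (A := (gramT K e).map (Int.castRingHom ℝ))
    (abv := (AbsoluteValue.abs : AbsoluteValue ℝ ℝ)) (x := finrank ℚ K * Fintype.card 𝒜 * B ^ 2)
    (fun i j => h1 i j)
  have h7 := (Int.castRingHom ℝ).map_det (gramT K e)
  rw [RingHom.mapMatrix_apply] at h7
  rw [← h7, nsmul_eq_mul] at h6
  exact h6

end NFH
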