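import Pool.Agent.Lib.NFH.GridA

/-!
MP_44a56e_nt (second proof), module Grid (about 120 lines): monomials with independent jets.

PROOF of `grid`. Choose `n` distinct points `v_1..v_n` in `Fin r → Fin m` (`n ≤ m^r`, an embedding `Fin n ↪ (Fin r → Fin m)`). The linear map from the polynomials of degree `≤ D0 = r(m-1) + m k` (spanned by the monomials `Y^β`, `|β| ≤ D0`) to `ℚ^(Fin n × mon r k)`,
`F ↦ (coeff α F(v_i + Z))`, is onto by `grid_jets` (extend a target by `0` on the other grid points). So the images of the monomials span; a spanning family contains a basis: there is `b : Fin n × mon r k → exponents` of degree `≤ D0` whose images are a basis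
(`exists_linearIndependent'`, `Module.Basis.ofSpan…`/`Submodule.exists_fun_fin_finrank_span_eq`, cardinality `= n card (mon r k)`), so the matrix over `ℚ` has nonzero determinant. Its entries are the images of the integers `jet (v_i) α (b j)`
(`tay` over `ℤ` mapped to `ℚ`; `MvPolynomial.map`), `Matrix.det` commutes with `Int.cast` (`RingHom.map_det`).
-/

set_option autoImplicit false

open MvPolynomial Module NumberField

namespace NFH

private theorem jet_cast {r : ℕ} (v : Fin r → ℤ) (α β : Fin r →₀ ℕ) :
    ((jet v α β : ℤ) : ℚ) =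
      coeff α (aeval (fun j => C ((v j : ℤ) : ℚ) + X j) (monomial β (1 : ℚ)) :
        MvPolynomial (Fin r) ℚ) := by
  have h : (MvPolynomial.map (Int.castRingHom ℚ)) (tay v (monomial β 1)) =
      (aeval (fun j => C ((v j : ℤ) : ℚ) + X j) (monomial β (1 : ℚ)) :
        MvPolynomial (Fin r) ℚ) := by
    rw [tay, aeval_monomial, aeval_monomial, Finsupp.prod, Finsupp.prod, map_mul, map_prod]
    simp
  rw [← h, coeff_map, jet]
  simp

theorem grid (n m r k : ℕ) (hm : 1 ≤ m) (h : n ≤ m ^ r) :
    ∃ (v : Fin n → Fin r → ℤ) (b : Fin n × mon r k → (Fin r →₀ ℕ)),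
      Function.Injective v ∧ (∀ i, (b i).degree ≤ r * (m - 1) + m * k) ∧
      (Matrix.of fun i j : Fin n × mon r k =>
        (jet (v i.1) i.2.1 (b j) : ℤ)).det ≠ 0 := by
  classical
  obtain ⟨e⟩ : Nonempty (Fin n ↪ (Fin r → Fin m)) :=
    Function.Embedding.nonempty_of_card_le (by simpa using h)
  set v : Fin n → Fin r → ℤ := fun i j => ((e i j : ℕ) : ℤ) with hv
  have hvinj : Function.Injective v := by
    intro i i' hii
    apply e.injective
    funext j
    have := congrFun hii j
    simp only [hv] at this
    exact Fin.ext (by exact_mod_cast this)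
  set D0 := r * (m - 1) + m * k with hD0
  set φ : mon r D0 → (Fin n × mon r k → ℚ) := fun β i => ((jet (v i.1) i.2.1 β.1 : ℤ) : ℚ)
    with hφ
  have hspan : Submodule.span ℚ (Set.range φ) = ⊤ := by
    rw [eq_top_iff]
    intro w _
    obtain ⟨F, hF, hFw⟩ := grid_jets m r k hm
      (Function.extend e (fun i => fun α => w (i, α)) 0)
    have hw : w = ∑ β : mon r D0, coeff β.1 F • φ β := by
      funext ⟨i, α⟩
      have h1 := hFw (e i) α
      rw [e.injective.extend_apply] at h1
      rw [← h1]
      have h2 : F = ∑ β : mon r D0, monomial β.1 (coeff β.1 F) := by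
        rw [Finset.sum_coe_sort (mon r D0) (fun β => monomial β (coeff β F))]
        conv_lhs => rw [F.as_sum]
        refine Finset.sum_subset ?_ ?_
        · intro β hβ
          rw [mem_mon]
          refine le_trans ?_ hF
          rw [Finsupp.degree]
          exact le_totalDegree hβ
        · intro β _ hβ
          rw [notMem_support_iff.1 hβ, monomial_zero]
      conv_lhs => rw [h2]
      rw [map_sum, coeff_sum, Finset.sum_apply]
      refine Finset.sum_congr rfl fun β _ => ?_
      rw [Pi.smul_apply, hφ]
      simp only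
      rw [jet_cast]
      have h3 : (monomial β.1 (coeff β.1 F) : MvPolynomial (Fin r) ℚ) =
          coeff β.1 F • monomial β.1 1 := by
        rw [smul_monomial]; simp
      rw [h3, map_smul, coeff_smul]
      simp [hv]
    rw [hw]
    exact Submodule.sum_mem _ fun β _ => Submodule.smul_mem _ _
      (Submodule.subset_span ⟨β, rfl⟩)
  obtain ⟨κ, a, hainj, haspan, hali⟩ := exists_linearIndependent' ℚ φ
  rw [hspan] at haspan
  set B : Basis κ ℚ (Fin n × mon r k → ℚ) := Basis.mk hali (by rw [haspan]) with hB
  haveI : Fintype κ := FiniteDimensional.fintypeBasisIndex B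
  have hcard : Fintype.card κ = Fintype.card (Fin n × mon r k) := by
    rw [← Module.finrank_eq_card_basis B, Module.finrank_fintype_fun_eq_card]
  set σ : (Fin n × mon r k) ≃ κ := Fintype.equivOfCardEq hcard.symm with hσ
  refine ⟨v, fun j => (a (σ j)).1, hvinj, fun j => mem_mon.1 (a (σ j)).2, ?_⟩
  set M : Matrix (Fin n × mon r k) (Fin n × mon r k) ℤ :=
    Matrix.of fun i j => (jet (v i.1) i.2.1 (a (σ j)).1 : ℤ) with hM
  intro hdet
  have hMQ : (M.map (Int.castRingHom ℚ)).det = 0 := by
    have := RingHom.map_det (Int.castRingHom ℚ) M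
    rw [hdet, map_zero] at this
    exact this.symm
  have hli : LinearIndependent ℚ (M.map (Int.castRingHom ℚ)).col := by
    have : (M.map (Int.castRingHom ℚ)).col = (φ ∘ a) ∘ σ := by
      funext j i
      simp [hM, hφ, Matrix.col]
    rw [this]
    exact hali.comp _ σ.injective
  rw [Matrix.linearIndependent_cols_iff_isUnit, Matrix.isUnit_iff_isUnit_det, hMQ] at hli
  exact not_isUnit_zero hli

end NFH
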