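import Pool.Agent.Lib.NFH.Defs

/-!
MP_44a56e_nt (second proof), module GridA (about 200 lines): Hermite interpolation on a grid.

PROOF of `grid_jets`. `J F v α = coeff α (F (v + Z))`, linear in `F`. For `v ∈ {0..m-1}^r` let `L_v = ∏_j ∏_{a<m, a≠v_j} (Y_j - a)/(v_j - a)`, of degree `≤ r (m-1)`, `L_v(v') = δ`. `f_j = ∏_{a<m} (Y_j - a)`; `f_j (v_j + Z_j) = Z_j u_j(Z_j)` with `u_j(0) ≠ 0`.
For `γ` with `|γ| = g`: `F = f^γ L_v` (`∏_j f_j^(γ_j) L_v`) has degree `≤ m g + r (m-1)`; at every grid point `v'` all jets of order `< g` vanish (`F(v'+Z)` is divisible by `Z^γ`) and the jets of order exactly `g` are `0` except `α = γ` at `v' = v`, where it is `∏ u_j(0)^(γ_j) ≠ 0`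
(`F (v' + Z) = Z^γ * (…)`, and the constant term of the cofactor is `∏ u_j(0)^γ_j L_v(v')`). Induction on `k`: `k = 0`: `F = ∑_v w v 0 L_v`. Step `k → k+1`: `F` for `k` (restrict `w`), then add
`∑_{v, |γ| = k+1} (w v γ - J F v γ) / (∏ u_j(0)^(γ_j)) f^γ L_v`; jets of order `≤ k` are unchanged, those of order `k+1` are corrected. Degree `≤ r (m-1) + m (k+1)`.
`J` here is with rational coefficients: `aeval (fun j => C (v_j) + X j) F`.
-/

set_option autoImplicit false

open MvPolynomial Module NumberField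

namespace NFH

private theorem totalDegree_X_sub_C {r : ℕ} (j : Fin r) (c : ℚ) :
    (X j - C c : MvPolynomial (Fin r) ℚ).totalDegree ≤ 1 := by
  refine (totalDegree_sub _ _).trans ?_
  simp

private theorem jets_factor (m r : ℕ) (v : Fin r → Fin m) (γ : Fin r →₀ ℕ)
    (v' : Fin r → Fin m) :
    ∃ H : MvPolynomial (Fin r) ℚ,
      (aeval (fun j => C (((v' j : ℕ) : ℚ)) + X j)
        ((∏ j, (∏ a : Fin m, (X j - C ((a : ℕ) : ℚ))) ^ γ j) *
          ∏ j : Fin r, ∏ a ∈ Finset.univ.erase (v j), (X j - C ((a : ℕ) : ℚ))) :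
            MvPolynomial (Fin r) ℚ) = monomial γ 1 * H ∧
      constantCoeff H = (∏ j, (∏ a ∈ Finset.univ.erase (v' j),
        (((v' j : ℕ) : ℚ) - ((a : ℕ) : ℚ))) ^ γ j) *
          ∏ j, ∏ a ∈ Finset.univ.erase (v j), (((v' j : ℕ) : ℚ) - ((a : ℕ) : ℚ)) := by
  classical
  refine ⟨(∏ j, (∏ a ∈ Finset.univ.erase (v' j),
      (C ((v' j : ℕ) : ℚ) + X j - C ((a : ℕ) : ℚ))) ^ γ j) *
      ∏ j, ∏ a ∈ Finset.univ.erase (v j),
        (C ((v' j : ℕ) : ℚ) + X j - C ((a : ℕ) : ℚ)), ?_, ?_⟩
  · have h1 : ∀ j : Fin r, (∏ a : Fin m, (C ((v' j : ℕ) : ℚ) + X j - C ((a : ℕ) : ℚ)) :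
        MvPolynomial (Fin r) ℚ) = X j * ∏ a ∈ Finset.univ.erase (v' j),
          (C ((v' j : ℕ) : ℚ) + X j - C ((a : ℕ) : ℚ)) := by
      intro j
      rw [← Finset.mul_prod_erase Finset.univ (fun a : Fin m =>
        (C ((v' j : ℕ) : ℚ) + X j - C ((a : ℕ) : ℚ) : MvPolynomial (Fin r) ℚ))
        (Finset.mem_univ (v' j))]
      congr 1
      ring
    have h2 : (monomial γ 1 : MvPolynomial (Fin r) ℚ) = ∏ j, X j ^ γ j := by
      rw [monomial_eq, C_1, one_mul, Finsupp.prod_fintype]
      intro i; simp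
    rw [map_mul, map_prod, map_prod, h2, ← mul_assoc]
    refine congrArg₂ (· * ·) ?_ ?_
    · rw [← Finset.prod_mul_distrib]
      refine Finset.prod_congr rfl fun j _ => ?_
      rw [map_pow, map_prod, ← mul_pow, ← h1 j]
      congr 1
      refine Finset.prod_congr rfl fun a _ => ?_
      simp
    · refine Finset.prod_congr rfl fun j _ => ?_
      rw [map_prod]
      refine Finset.prod_congr rfl fun a _ => ?_
      simp
  · simp only [map_mul, map_prod, map_pow, map_sub, map_add, constantCoeff_C, constantCoeff_X,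
      add_zero]

private theorem jets_one (m r : ℕ) (v : Fin r → Fin m) (γ : Fin r →₀ ℕ) :
    ∃ G : MvPolynomial (Fin r) ℚ, G.totalDegree ≤ r * (m - 1) + m * γ.degree ∧
      ∀ (v' : Fin r → Fin m) (α : Fin r →₀ ℕ), α.degree ≤ γ.degree →
        coeff α (aeval (fun j => C (((v' j : ℕ) : ℚ)) + X j) G : MvPolynomial (Fin r) ℚ) =
          if v' = v ∧ α = γ then 1 else 0 := by
  classical
  set G : MvPolynomial (Fin r) ℚ := ((∏ j, (∏ a : Fin m, (X j - C ((a : ℕ) : ℚ))) ^ γ j) *
          ∏ j : Fin r, ∏ a ∈ Finset.univ.erase (v j), (X j - C ((a : ℕ) : ℚ))) with hG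
  have hdeg : G.totalDegree ≤ r * (m - 1) + m * γ.degree := by
    rw [hG]
    refine (totalDegree_mul _ _).trans ?_
    rw [add_comm]
    refine add_le_add ?_ ?_
    · refine (totalDegree_finsetProd _ _).trans ?_
      refine (Finset.sum_le_card_nsmul _ _ (m - 1) ?_).trans ?_
      · intro j _
        refine (totalDegree_finsetProd _ _).trans ?_
        refine (Finset.sum_le_card_nsmul _ _ 1 fun a _ => totalDegree_X_sub_C j _).trans ?_
        rw [Finset.card_erase_of_mem (Finset.mem_univ _)]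
        simp
      · simp
    · refine (totalDegree_finsetProd _ _).trans ?_
      rw [Finsupp.degree_eq_sum, Finset.mul_sum]
      refine Finset.sum_le_sum fun j _ => ?_
      refine (totalDegree_pow _ _).trans ?_
      rw [mul_comm]
      refine Nat.mul_le_mul_right _ ?_
      refine (totalDegree_finsetProd _ _).trans ?_
      refine (Finset.sum_le_card_nsmul _ _ 1 fun a _ => totalDegree_X_sub_C j _).trans ?_
      simp
  -- the value of the constant term
  obtain ⟨H0, h0, h0c⟩ := jets_factor m r v γ v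
  have hne : constantCoeff H0 ≠ 0 := by
    rw [h0c]
    have hk : ∀ j : Fin r, (∏ a ∈ Finset.univ.erase (v j),
        (((v j : ℕ) : ℚ) - ((a : ℕ) : ℚ))) ≠ 0 := by
      intro j
      rw [Finset.prod_ne_zero_iff]
      intro a ha
      rw [sub_ne_zero]
      intro h
      exact (Finset.ne_of_mem_erase ha) (Fin.ext (by exact_mod_cast h.symm))
    refine mul_ne_zero ?_ ?_
    · exact Finset.prod_ne_zero_iff.2 fun j _ => pow_ne_zero _ (hk j)
    · exact Finset.prod_ne_zero_iff.2 fun j _ => hk j
  refine ⟨C (constantCoeff H0)⁻¹ * G, ?_, ?_⟩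
  · refine (totalDegree_mul _ _).trans ?_
    rw [totalDegree_C, zero_add]
    exact hdeg
  · intro v' α hα
    obtain ⟨H, hH, hHc⟩ := jets_factor m r v γ v'
    rw [map_mul, hG, hH]
    have hC : (aeval (fun j => C (((v' j : ℕ) : ℚ)) + X j) (C (constantCoeff H0)⁻¹ :
        MvPolynomial (Fin r) ℚ) : MvPolynomial (Fin r) ℚ) = C (constantCoeff H0)⁻¹ := by
      rw [aeval_C, algebraMap_eq]
    rw [hC, coeff_C_mul, coeff_monomial_mul']
    by_cases hle : γ ≤ α
    · have hαγ : α = γ := by
        have h1 : (α - γ).degree = 0 := by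
          have h2 : α = γ + (α - γ) := (add_tsub_cancel_of_le hle).symm
          have h3 : α.degree = γ.degree + (α - γ).degree := by
            conv_lhs => rw [h2]
            exact map_add _ _ _
          omega
        have h4 : α - γ = 0 := (Finsupp.degree_eq_zero_iff _).1 h1
        exact le_antisymm (tsub_eq_zero_iff_le.1 h4) hle
      subst hαγ
      rw [if_pos le_rfl, tsub_self, one_mul, ← constantCoeff_eq]
      by_cases hv : v' = v
      · subst hv
        rw [if_pos ⟨rfl, rfl⟩, hHc, ← h0c]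
        exact inv_mul_cancel₀ hne
      · rw [if_neg (fun h => hv h.1), hHc]
        obtain ⟨j, hj⟩ := Function.ne_iff.1 hv
        have : (∏ j, ∏ a ∈ Finset.univ.erase (v j), (((v' j : ℕ) : ℚ) - ((a : ℕ) : ℚ))) = 0 := by
          refine Finset.prod_eq_zero (Finset.mem_univ j) ?_
          refine Finset.prod_eq_zero (i := v' j) ?_ (sub_self _)
          exact Finset.mem_erase.2 ⟨hj, Finset.mem_univ _⟩
        rw [this, mul_zero, mul_zero]
    · rw [if_neg hle, mul_zero, if_neg]
      rintro ⟨-, rfl⟩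
      exact hle le_rfl

private theorem jets_all (m r : ℕ) (w : (Fin r → Fin m) → (Fin r →₀ ℕ) → ℚ) (k : ℕ) :
    ∃ F : MvPolynomial (Fin r) ℚ, F.totalDegree ≤ r * (m - 1) + m * (k - 1) ∧
      ∀ (v : Fin r → Fin m) (α : Fin r →₀ ℕ), α.degree < k →
        coeff α (aeval (fun j => C (((v j : ℕ) : ℚ)) + X j) F : MvPolynomial (Fin r) ℚ) =
          w v α := by
  classical
  induction k with
  | zero => exact ⟨0, by simp, fun v α h => absurd h (Nat.not_lt_zero _)⟩
  | succ k ih =>
    obtain ⟨F, hF, hFw⟩ := ih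
    choose G hG hGw using fun (v : Fin r → Fin m) (γ : Fin r →₀ ℕ) => jets_one m r v γ
    set c : (Fin r → Fin m) → (Fin r →₀ ℕ) → ℚ := fun v γ =>
      w v γ - coeff γ (aeval (fun j => C (((v j : ℕ) : ℚ)) + X j) F : MvPolynomial (Fin r) ℚ)
      with hc
    set S : Finset (Fin r →₀ ℕ) := (mon r k).filter fun γ => γ.degree = k with hS
    have hmemS : ∀ γ, γ ∈ S ↔ γ.degree = k := by
      intro γ
      rw [hS, Finset.mem_filter, mem_mon]
      constructor
      · exact fun h => h.2
      · exact fun h => ⟨h.le, h⟩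
    refine ⟨F + ∑ v, ∑ γ ∈ S, C (c v γ) * G v γ, ?_, ?_⟩
    · refine (totalDegree_add _ _).trans (max_le ?_ ?_)
      · refine hF.trans ?_
        gcongr
        omega
      · refine totalDegree_finsetSum_le fun v _ => ?_
        refine totalDegree_finsetSum_le fun γ hγ => ?_
        refine (totalDegree_mul _ _).trans ?_
        rw [totalDegree_C, zero_add]
        refine (hG v γ).trans ?_
        rw [(hmemS γ).1 hγ]
        simp
    · intro v α hα
      rw [map_add, coeff_add, map_sum, coeff_sum]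
      have h1 : ∀ v' : Fin r → Fin m,
          coeff α (aeval (fun j => C (((v j : ℕ) : ℚ)) + X j) (∑ γ ∈ S, C (c v' γ) * G v' γ) :
            MvPolynomial (Fin r) ℚ) = ∑ γ ∈ S, c v' γ * (if v = v' ∧ α = γ then 1 else 0) := by
        intro v'
        rw [map_sum, coeff_sum]
        refine Finset.sum_congr rfl fun γ hγ => ?_
        rw [map_mul, aeval_C, algebraMap_eq, coeff_C_mul, hGw]
        rw [(hmemS γ).1 hγ]
        omega
      rw [Finset.sum_congr rfl fun v' _ => h1 v']
      rcases Nat.lt_or_ge α.degree k with hlt | hge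
      · rw [hFw v α hlt]
        rw [Finset.sum_eq_zero, add_zero]
        intro v' _
        refine Finset.sum_eq_zero fun γ hγ => ?_
        rw [if_neg, mul_zero]
        rintro ⟨-, rfl⟩
        rw [(hmemS α).1 hγ] at hlt
        exact lt_irrefl _ hlt
      · have hαk : α.degree = k := by omega
        rw [Finset.sum_eq_single v]
        · rw [Finset.sum_eq_single α]
          · rw [if_pos ⟨rfl, rfl⟩, mul_one, hc]
            ring
          · intro γ _ hne
            rw [if_neg, mul_zero]
            rintro ⟨-, h⟩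
            exact hne h.symm
          · intro h
            exact absurd ((hmemS α).2 hαk) h
        · intro v' _ hne
          refine Finset.sum_eq_zero fun γ _ => ?_
          rw [if_neg, mul_zero]
          rintro ⟨h, -⟩
          exact hne h.symm
        · intro h
          exact absurd (Finset.mem_univ _) h

theorem grid_jets (m r k : ℕ) (hm : 1 ≤ m) (w : (Fin r → Fin m) → mon r k → ℚ) :
    ∃ F : MvPolynomial (Fin r) ℚ, F.totalDegree ≤ r * (m - 1) + m * k ∧
      ∀ (v : Fin r → Fin m) (α : mon r k),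
        coeff α.1 (aeval (fun j => C (((v j : ℕ) : ℚ)) + X j) F : MvPolynomial (Fin r) ℚ) =
          w v α := by
  classical
  obtain ⟨F, hF, hFw⟩ := jets_all m r
    (fun v α => if h : α ∈ mon r k then w v ⟨α, h⟩ else 0) (k + 1)
  refine ⟨F, by simpa using hF, fun v α => ?_⟩
  rw [hFw v α.1 (Nat.lt_succ_of_le (mem_mon.1 α.2)), dif_pos α.2]

end NFH
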