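import Pool.Agent.Lib.NFH.Defs

/-!
MP_44a56e_nt (second proof), module HzB (about 150 lines): elementary properties of the Hilbert function.

PROOFS. `V_d = VZ r d` is spanned by the monomials with exponent in `mon r d` (`MvPolynomial.restrictTotalDegree`, `restrictSupport`,
`basisRestrictSupport`), so it is a finitely generated `ℤ`-module, and so is its image.
`hz_mono`: the image of `V_d` is contained in that of `V_e`; `finrank` is monotone for submodules of a finitely generated torsion free `ℤ`-module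
(`Submodule.finrank_mono` or `LinearMap.finrank_le_finrank_of_injective`).
`one_le_hz`: `1 ∉ I`, the image of `1 ∈ V_0` is nonzero in a torsion free module, so the rank is positive (`Module.finrank_pos` for
torsion free, or linear independence of one element).
`hz_le`: `finrank` of the image `≤` number of generators `= card (mon r d) ≤ (d+1)^r` (exponents have all entries `≤ d`).
`exists_monomials`: the images of the monomials `Y^β`, `β ∈ mon r d`, span the image `M` of `V_d`; choose a maximal independent subset `S` (over `ℤ`,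
`exists_linearIndependent` style, or a basis of `ℚ ⊗ M`); its cardinality is the rank `hz I d`.
-/

set_option autoImplicit false

open MvPolynomial Module NumberField

namespace NFH

private theorem hzb_tf {r : ℕ} (I : Ideal (PZ r))
    (hsat : ∀ F : PZ r, ∀ n : ℤ, n ≠ 0 → C n * F ∈ I → F ∈ I) :
    Module.IsTorsionFree ℤ (PZ r ⧸ I) := by
  constructor
  intro n hn a b hab
  have hn0 : n ≠ 0 := hn.ne_zero
  obtain ⟨F, rfl⟩ := Ideal.Quotient.mk_surjective a
  obtain ⟨G, rfl⟩ := Ideal.Quotient.mk_surjective b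
  have h1 : n • Ideal.Quotient.mk I F = n • Ideal.Quotient.mk I G := hab
  rw [Ideal.Quotient.eq]
  apply hsat _ n hn0
  rw [← Ideal.Quotient.eq_zero_iff_mem, map_mul, map_sub, mul_sub, sub_eq_zero]
  have h2 : ∀ P : PZ r, Ideal.Quotient.mk I (C n) * Ideal.Quotient.mk I P =
      n • Ideal.Quotient.mk I P := by
    intro P
    rw [← map_mul, zsmul_eq_mul, ← map_intCast (Ideal.Quotient.mk I), ← map_mul]
    congr 2
  rw [h2, h2, h1]

private theorem hzb_span {r : ℕ} (I : Ideal (PZ r)) (d : ℕ) :
    (VZ r d).map (Ideal.Quotient.mkₐ ℤ I).toLinearMap =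
      Submodule.span ℤ ((fun β : Fin r →₀ ℕ => Ideal.Quotient.mk I (monomial β (1 : ℤ))) ''
        (mon r d : Set (Fin r →₀ ℕ))) := by
  have h1 : VZ r d = Submodule.span ℤ ((fun β : Fin r →₀ ℕ => (monomial β (1 : ℤ) : PZ r)) ''
      (mon r d : Set (Fin r →₀ ℕ))) := by
    have h2 := restrictSupport_eq_span (R := ℤ) {n : Fin r →₀ ℕ | (n.sum fun _ e => e) ≤ d}
    have h3 : {n : Fin r →₀ ℕ | (n.sum fun _ e => e) ≤ d} = (mon r d : Set (Fin r →₀ ℕ)) := by
      ext n
      rw [Finset.mem_coe, mem_mon]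
      rfl
    have h4 : VZ r d = restrictSupport ℤ {n : Fin r →₀ ℕ | (n.sum fun _ e => e) ≤ d} := rfl
    rw [h4, h2, h3]
  rw [h1, Submodule.map_span, Set.image_image]
  rfl

private theorem hzb_card (r d : ℕ) : (mon r d).card ≤ (d + 1) ^ r := by
  classical
  have h1 : (mon r d).card ≤ (Fintype.piFinset fun _ : Fin r => Finset.range (d + 1)).card := by
    refine Finset.card_le_card_of_injOn (fun β : Fin r →₀ ℕ => (β : Fin r → ℕ)) ?_ ?_
    · intro β hβ
      have hβ' : β.degree ≤ d := mem_mon.mp (Finset.mem_coe.mp hβ)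
      refine Finset.mem_coe.mpr (Fintype.mem_piFinset.mpr fun i => ?_)
      rw [Finset.mem_range]
      exact Nat.lt_succ_of_le ((Finsupp.le_degree i β).trans hβ')
    · intro β _ γ _ h
      exact DFunLike.coe_injective h
  rwa [Fintype.card_piFinset_const, Finset.card_range] at h1

theorem hz_mono {r : ℕ} (I : Ideal (PZ r))
    (hsat : ∀ F : PZ r, ∀ n : ℤ, n ≠ 0 → C n * F ∈ I → F ∈ I) : Monotone (hz I) := by
  intro d e hde
  unfold hz
  have hle : VZ r d ≤ VZ r e := by
    intro F hF
    rw [mem_restrictTotalDegree] at hF ⊢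
    exact hF.trans hde
  exact Submodule.finrank_mono (Submodule.map_mono hle)

theorem one_le_hz {r : ℕ} (I : Ideal (PZ r)) (hI : I ≠ ⊤)
    (hsat : ∀ F : PZ r, ∀ n : ℤ, n ≠ 0 → C n * F ∈ I → F ∈ I) (d : ℕ) : 1 ≤ hz I d := by
  have htf := hzb_tf I hsat
  unfold hz
  have h1 : (1 : PZ r ⧸ I) ∈ (VZ r d).map (Ideal.Quotient.mkₐ ℤ I).toLinearMap := by
    refine Submodule.mem_map.mpr ⟨1, ?_, map_one (Ideal.Quotient.mkₐ ℤ I)⟩
    rw [mem_restrictTotalDegree]
    simp
  have h2 : (1 : PZ r ⧸ I) ≠ 0 := by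
    intro h
    apply hI
    rw [Ideal.eq_top_iff_one, ← Ideal.Quotient.eq_zero_iff_mem, map_one]
    exact h
  have h3 : Nontrivial ((VZ r d).map (Ideal.Quotient.mkₐ ℤ I).toLinearMap) :=
    ⟨⟨⟨1, h1⟩, 0, fun h => h2 (congrArg Subtype.val h)⟩⟩
  exact Module.finrank_pos

theorem hz_le {r : ℕ} (I : Ideal (PZ r)) (d : ℕ) : hz I d ≤ (d + 1) ^ r := by
  classical
  unfold hz
  rw [hzb_span]
  have h1 := finrank_span_finset_le_card (R := ℤ)
    ((mon r d).image fun β : Fin r →₀ ℕ => Ideal.Quotient.mk I (monomial β (1 : ℤ)))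
  rw [Finset.coe_image] at h1
  exact h1.trans (Finset.card_image_le.trans (hzb_card r d))

theorem exists_monomials {r : ℕ} (I : Ideal (PZ r))
    (hsat : ∀ F : PZ r, ∀ n : ℤ, n ≠ 0 → C n * F ∈ I → F ∈ I) (d : ℕ) :
    ∃ S : Finset (Fin r →₀ ℕ), S ⊆ mon r d ∧ S.card = hz I d ∧
      ∀ c : (Fin r →₀ ℕ) → ℤ, (∑ β ∈ S, monomial β (c β)) ∈ I → ∀ β ∈ S, c β = 0 := by
  classical
  have htf := hzb_tf I hsat
  let v : (mon r d) → PZ r ⧸ I := fun β => Ideal.Quotient.mk I (monomial β.1 (1 : ℤ))
  obtain ⟨s, hs, hs2⟩ := exists_maximal_linearIndepOn ℤ v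
  have hM : (VZ r d).map (Ideal.Quotient.mkₐ ℤ I).toLinearMap = Submodule.span ℤ (Set.range v) := by
    rw [hzb_span]
    congr 1
    ext x
    constructor
    · rintro ⟨β, hβ, rfl⟩
      exact ⟨⟨β, hβ⟩, rfl⟩
    · rintro ⟨β, rfl⟩
      exact ⟨β.1, β.2, rfl⟩
  have hfr : finrank ℤ (Submodule.span ℤ (v '' s)) = Fintype.card s := by
    have h := finrank_span_eq_card (R := ℤ) (b := fun x : s => v x) hs
    rwa [← Set.image_eq_range] at h
  choose! a ha using hs2
  have hN0 : ∀ i, (if i ∈ s then (1 : ℤ) else a i) ≠ 0 := by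
    intro i
    split_ifs with h
    · exact one_ne_zero
    · exact (ha i h).1
  obtain ⟨N, hN⟩ : ∃ N : ℤ, N = ∏ i, (if i ∈ s then (1 : ℤ) else a i) := ⟨_, rfl⟩
  have hNne : N ≠ 0 := by
    rw [hN]
    exact Finset.prod_ne_zero_iff.mpr fun i _ => hN0 i
  have hNv : ∀ i, N • v i ∈ Submodule.span ℤ (v '' s) := by
    intro i
    rw [hN, ← Finset.prod_erase_mul _ _ (Finset.mem_univ i), mul_smul]
    refine Submodule.smul_mem _ _ ?_
    split_ifs with h
    · rw [one_smul]
      exact Submodule.subset_span ⟨i, h, rfl⟩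
    · exact (ha i h).2
  have hNM : ∀ x ∈ Submodule.span ℤ (Set.range v), N • x ∈ Submodule.span ℤ (v '' s) := by
    intro x hx
    induction hx using Submodule.span_induction with
    | mem x h =>
      obtain ⟨i, rfl⟩ := h
      exact hNv i
    | zero =>
      rw [smul_zero]
      exact Submodule.zero_mem _
    | add x y _ _ hx hy =>
      rw [smul_add]
      exact Submodule.add_mem _ hx hy
    | smul c x _ hx =>
      rw [smul_comm]
      exact Submodule.smul_mem _ _ hx
  have hcard : Fintype.card s = hz I d := by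
    unfold hz
    rw [hM]
    have hfin1 : Module.Finite ℤ (Submodule.span ℤ (v '' s)) :=
      Module.Finite.span_of_finite ℤ (Set.toFinite _)
    have hfin2 : Module.Finite ℤ (Submodule.span ℤ (Set.range v)) :=
      Module.Finite.span_of_finite ℤ (Set.toFinite _)
    apply le_antisymm
    · rw [← hfr]
      exact Submodule.finrank_mono (Submodule.span_mono (Set.image_subset_range v s))
    · rw [← hfr]
      let g : Submodule.span ℤ (Set.range v) →ₗ[ℤ] Submodule.span ℤ (v '' s) :=
        LinearMap.codRestrict _ (N • (Submodule.span ℤ (Set.range v)).subtype)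
          (fun x => hNM x.1 x.2)
      refine LinearMap.finrank_le_finrank_of_injective (f := g) ?_
      intro x y hxy
      have h1 : N • x.1 = N • y.1 := congrArg Subtype.val hxy
      exact Subtype.ext (smul_right_injective _ hNne h1)
  refine ⟨Finset.univ.map ⟨fun i : s => i.1.1, fun i j h => Subtype.ext (Subtype.ext h)⟩,
    ?_, ?_, ?_⟩
  · intro β hβ
    obtain ⟨i, -, rfl⟩ := Finset.mem_map.mp hβ
    exact i.1.2
  · rw [Finset.card_map, Finset.card_univ, hcard]
  · intro c hc β hβ
    obtain ⟨i, -, rfl⟩ := Finset.mem_map.mp hβ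
    rw [Finset.sum_map, ← Ideal.Quotient.eq_zero_iff_mem, map_sum] at hc
    have h1 := Fintype.linearIndependent_iff.mp hs (fun i => c i.1.1) ?_ i
    · exact h1
    · rw [← hc]
      refine Finset.sum_congr rfl fun j _ => ?_
      change c j.1.1 • Ideal.Quotient.mk I (monomial j.1.1 (1 : ℤ)) =
        Ideal.Quotient.mk I (monomial j.1.1 (c j.1.1))
      rw [zsmul_eq_mul, ← map_intCast (Ideal.Quotient.mk I), ← map_mul]
      congr 1
      rw [← zsmul_eq_mul, ← map_zsmul]
      congr 1
      simp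

end NFH
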