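import Pool.Agent.Lib.NFH.Defs

/-!
MP_44a56e_nt (second proof), module ModP (about 80 lines): reduction modulo `p` of a finitely generated torsion free group.

PROOF of `card_modp`. `M` is free of rank `h` (`Module.free_of_finite_type_torsion_free'` or the current name), basis
`b : Basis (Fin h) ℤ M` (`Module.finBasis`/`Module.finBasisOfFinrankEq`). The map `(Fin h → Fin p) → M ⧸ (p • ⊤)`, `c ↦ class of
∑ c_i b_i`, is onto (write `z_i = p (z_i / p) + z_i % p`). So finite and at most `p ^ h` elements (`Nat.card_le_card_of_surjective`,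
`Nat.card_fun`).
-/

set_option autoImplicit false

open MvPolynomial Module NumberField

namespace NFH

theorem card_modp {M : Type*} [AddCommGroup M] [Module.Finite ℤ M] [IsTorsionFree ℤ M] (p : ℕ)
    (hp : 0 < p) :
    Finite (M ⧸ LinearMap.range (LinearMap.lsmul ℤ M (p : ℤ))) ∧
      Nat.card (M ⧸ LinearMap.range (LinearMap.lsmul ℤ M (p : ℤ))) ≤ p ^ finrank ℤ M := by
  set n := finrank ℤ M with hn
  let b : Basis (Fin n) ℤ M := Module.finBasis ℤ M
  let f : (Fin n → Fin p) → M ⧸ LinearMap.range (LinearMap.lsmul ℤ M (p : ℤ)) :=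
    fun c => Submodule.Quotient.mk (∑ i, ((c i : ℕ) : ℤ) • b i)
  have hf : Function.Surjective f := by
    intro x
    obtain ⟨m, rfl⟩ := Submodule.Quotient.mk_surjective _ x
    have hp0 : (0 : ℤ) < p := by exact_mod_cast hp
    obtain ⟨z, hz⟩ : ∃ z : Fin n → ℤ, m = ∑ i, z i • b i := ⟨fun i => b.repr m i,
      (b.sum_repr m).symm⟩
    have hlt : ∀ i, (z i % (p : ℤ)).toNat < p := by
      intro i
      have h1 := Int.emod_lt_of_pos (z i) hp0
      have h2 := Int.emod_nonneg (z i) hp0.ne'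
      omega
    refine ⟨fun i => ⟨(z i % (p : ℤ)).toNat, hlt i⟩, ?_⟩
    refine (Submodule.Quotient.eq _).2 ?_
    refine ⟨-∑ i, (z i / (p : ℤ)) • b i, ?_⟩
    rw [LinearMap.lsmul_apply, hz, smul_neg, Finset.smul_sum, ← Finset.sum_neg_distrib,
      ← Finset.sum_sub_distrib]
    refine Finset.sum_congr rfl fun i _ => ?_
    have h2 : (((z i % (p : ℤ)).toNat : ℕ) : ℤ) = z i % (p : ℤ) :=
      Int.toNat_of_nonneg (Int.emod_nonneg (z i) hp0.ne')
    have h3 := Int.emod_add_mul_ediv (z i) (p : ℤ)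
    rw [smul_smul, ← neg_smul, ← sub_smul]
    congr 1
    simp only
    rw [h2]
    linarith
  have hfin := Finite.of_surjective f hf
  refine ⟨hfin, ?_⟩
  calc Nat.card (M ⧸ LinearMap.range (LinearMap.lsmul ℤ M (p : ℤ)))
      ≤ Nat.card (Fin n → Fin p) := Nat.card_le_card_of_surjective f hf
    _ = p ^ n := by simp

end NFH
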