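import Pool.Agent.Lib.NFH.Uni

/-!
MP_44a56e_nt (second proof), module Multi: polynomials all of whose jets of order `< k` vanish
modulo `p`.
-/

set_option autoImplicit false

open MvPolynomial Module

namespace NFH

/-- The polynomial `∑ H_β(X 0) ∏ U_j ^ (β j)`. -/
private noncomputable def mPhi {r : ℕ} (q : Fin r → Polynomial ℤ) :
    MvPolynomial (Fin r) (Polynomial ℤ) →+* PZ (r + 1) :=
  eval₂Hom (Polynomial.aeval (X 0 : PZ (r + 1)) : Polynomial ℤ →ₐ[ℤ] PZ (r + 1)).toRingHom
    fun j : Fin r => (X j.succ : PZ (r + 1)) - Polynomial.aeval (X 0 : PZ (r + 1)) (q j)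

private theorem mPhi_C {r : ℕ} (q : Fin r → Polynomial ℤ) (g : Polynomial ℤ) :
    mPhi q (C g) = Polynomial.aeval (X 0 : PZ (r + 1)) g := by
  simp [mPhi]

private theorem mPhi_X {r : ℕ} (q : Fin r → Polynomial ℤ) (j : Fin r) :
    mPhi q (X j) = (X j.succ : PZ (r + 1)) - Polynomial.aeval (X 0 : PZ (r + 1)) (q j) := by
  simp [mPhi]

private theorem mPhi_surj {r : ℕ} (q : Fin r → Polynomial ℤ) (F : PZ (r + 1)) :
    ∃ H, mPhi q H = F := by
  induction F using MvPolynomial.induction_on with
  | C a =>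
    refine ⟨C (Polynomial.C a), ?_⟩
    rw [mPhi_C, Polynomial.aeval_C]
    rfl
  | add f g hf hg =>
    obtain ⟨H1, h1⟩ := hf
    obtain ⟨H2, h2⟩ := hg
    exact ⟨H1 + H2, by rw [map_add, h1, h2]⟩
  | mul_X f i hf =>
    obtain ⟨H1, h1⟩ := hf
    refine Fin.cases ?_ (fun j => ?_) i
    · exact ⟨H1 * C Polynomial.X, by rw [map_mul, h1, mPhi_C, Polynomial.aeval_X]⟩
    · refine ⟨H1 * (X j + C (q j)), ?_⟩
      rw [map_mul, h1, map_add, mPhi_C, mPhi_X, sub_add_cancel]

/-- The change of variables. -/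
private noncomputable def mThe {A : Type*} [CommRing A] {r : ℕ} (x : Fin (r + 1) → A)
    (q : Fin r → Polynomial ℤ) :
    MvPolynomial (Fin (r + 1)) A →ₐ[A] MvPolynomial (Fin (r + 1)) A :=
  aeval (Fin.cons (X 0) fun j : Fin r => X j.succ +
    (Polynomial.aeval (C (x 0) + X 0 : MvPolynomial (Fin (r + 1)) A) (q j) -
      C (Polynomial.aeval (x 0) (q j))))

/-- The composition. -/
private noncomputable def mPsi {A : Type*} [CommRing A] {r : ℕ} (y : A) :
    MvPolynomial (Fin r) (Polynomial ℤ) →+* MvPolynomial (Fin (r + 1)) A :=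
  eval₂Hom (Polynomial.aeval (C y + X 0 : MvPolynomial (Fin (r + 1)) A) :
    Polynomial ℤ →ₐ[ℤ] MvPolynomial (Fin (r + 1)) A).toRingHom fun j : Fin r => X j.succ

private theorem mThe_mem {A : Type*} [CommRing A] {r : ℕ} (x : Fin (r + 1) → A)
    (q : Fin r → Polynomial ℤ) (k : ℕ) (G : MvPolynomial (Fin (r + 1)) A)
    (hG : G ∈ idealOfVars (Fin (r + 1)) A ^ k) :
    mThe x q G ∈ idealOfVars (Fin (r + 1)) A ^ k := by
  have h1 : (idealOfVars (Fin (r + 1)) A).map (mThe x q).toRingHom ≤
      idealOfVars (Fin (r + 1)) A := by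
    rw [idealOfVars, Ideal.map_span, Ideal.span_le]
    rintro _ ⟨_, ⟨i, rfl⟩, rfl⟩
    have hX : ∀ i : Fin (r + 1), (X i : MvPolynomial (Fin (r + 1)) A) ∈
        Ideal.span (Set.range (X : Fin (r + 1) → MvPolynomial (Fin (r + 1)) A)) :=
      fun i => Ideal.subset_span ⟨i, rfl⟩
    refine Fin.cases ?_ (fun j => ?_) i
    · have : (mThe x q).toRingHom (X 0) = X 0 := by simp [mThe]
      rw [this]
      exact hX 0
    · have : (mThe x q).toRingHom (X j.succ) = X j.succ +
          (Polynomial.aeval (C (x 0) + X 0 : MvPolynomial (Fin (r + 1)) A) (q j) -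
            C (Polynomial.aeval (x 0) (q j))) := by simp [mThe]
      rw [this]
      refine Ideal.add_mem _ (hX _) ?_
      have h2 := Polynomial.sub_dvd_eval_sub (C (x 0) + X 0 : MvPolynomial (Fin (r + 1)) A)
        (C (x 0)) ((q j).map (algebraMap ℤ (MvPolynomial (Fin (r + 1)) A)))
      rw [Polynomial.eval_map_algebraMap, Polynomial.eval_map_algebraMap, add_sub_cancel_left]
        at h2
      have h3 : Polynomial.aeval (C (x 0) : MvPolynomial (Fin (r + 1)) A) (q j) =
          C (Polynomial.aeval (x 0) (q j)) := by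
        have h4 := Polynomial.aeval_algHom_apply
          ((Algebra.ofId A (MvPolynomial (Fin (r + 1)) A)).restrictScalars ℤ) (x 0) (q j)
        exact h4
      rw [h3] at h2
      obtain ⟨w, hw⟩ := h2
      rw [hw]
      exact Ideal.mul_mem_right _ _ (hX 0)
  have h2 : mThe x q G ∈ (idealOfVars (Fin (r + 1)) A ^ k).map (mThe x q).toRingHom :=
    Ideal.mem_map_of_mem _ hG
  rw [Ideal.map_pow] at h2
  exact Ideal.pow_right_mono h1 k h2

private theorem mPsi_eq {A : Type*} [CommRing A] {r : ℕ} (x : Fin (r + 1) → A)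
    (q : Fin r → Polynomial ℤ) (hq : ∀ j : Fin r, x j.succ = Polynomial.aeval (x 0) (q j))
    (H : MvPolynomial (Fin r) (Polynomial ℤ)) :
    mThe x q (tay x (mPhi q H)) = mPsi (x 0) H := by
  have h0 : mThe x q (tay x (X 0)) = C (x 0) + X 0 := by
    simp [mThe, tay]
  have hg : ∀ g : Polynomial ℤ, mThe x q (tay x (Polynomial.aeval (X 0 : PZ (r + 1)) g)) =
      Polynomial.aeval (C (x 0) + X 0 : MvPolynomial (Fin (r + 1)) A) g := by
    intro g
    rw [← h0]
    have h1 := Polynomial.aeval_algHom_apply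
      (((mThe x q).restrictScalars ℤ).comp (tay x)) (X 0) g
    exact h1.symm
  induction H using MvPolynomial.induction_on with
  | C g =>
    rw [mPhi_C, hg]
    simp [mPsi]
  | add f g hf hg =>
    rw [map_add (mPhi q), map_add (tay x), map_add (mThe x q), map_add (mPsi (x 0)), hf, hg]
  | mul_X f j hf =>
    have e1 : mThe x q (tay x (X j.succ)) = C (x j.succ) + (X j.succ +
        (Polynomial.aeval (C (x 0) + X 0 : MvPolynomial (Fin (r + 1)) A) (q j) -
          C (Polynomial.aeval (x 0) (q j)))) := by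
      simp [mThe, tay]
    have e2 : mPsi (x 0) (X j) = (X j.succ : MvPolynomial (Fin (r + 1)) A) := by
      simp [mPsi]
    have e3 : mThe x q (tay x (mPhi q (X j))) = X j.succ := by
      rw [mPhi_X, map_sub (tay x), map_sub (mThe x q), hg, e1, hq j]
      ring
    rw [map_mul (mPhi q), map_mul (tay x), map_mul (mThe x q), map_mul (mPsi (x 0)), hf, e3, e2]

private theorem mPsi_coeff {A : Type*} [CommRing A] {r : ℕ} (y : A)
    (H : MvPolynomial (Fin r) (Polynomial ℤ)) (β : Fin r →₀ ℕ) (i : ℕ) :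
    coeff (β.cons i) (mPsi y H) =
      (Polynomial.aeval (Polynomial.C y + Polynomial.X : Polynomial A) (coeff β H)).coeff i := by
  classical
  induction H using MvPolynomial.induction_on' with
  | add f g hf hg => rw [map_add, coeff_add, coeff_add, map_add, Polynomial.coeff_add, hf, hg]
  | monomial u g =>
    have h1 : finSuccEquiv A r (mPsi y (monomial u g)) =
        Polynomial.map C (Polynomial.aeval (Polynomial.C y + Polynomial.X : Polynomial A) g) *
          Polynomial.C (monomial u 1) := by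
      have h2 : mPsi y (monomial u g) =
          Polynomial.aeval (C y + X 0 : MvPolynomial (Fin (r + 1)) A) g *
            u.prod fun j e => X j.succ ^ e := by
        simp [mPsi, eval₂_monomial]
      rw [h2, map_mul]
      congr 1
      · have h3 := Polynomial.aeval_algHom_apply
          ((finSuccEquiv A r).toAlgHom.restrictScalars ℤ) (C y + X 0) g
        have h4 := Polynomial.aeval_algHom_apply
          ((Polynomial.mapAlgHom (Algebra.ofId A (MvPolynomial (Fin r) A))).restrictScalars ℤ)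
          (Polynomial.C y + Polynomial.X) g
        have h5 : ((finSuccEquiv A r).toAlgHom.restrictScalars ℤ) (C y + X 0) =
            ((Polynomial.mapAlgHom (Algebra.ofId A (MvPolynomial (Fin r) A))).restrictScalars ℤ)
              (Polynomial.C y + Polynomial.X) := by
          simp [finSuccEquiv_apply]
        rw [h5] at h3
        have h6 := h3.symm.trans h4
        exact h6
      · rw [monomial_eq, C_1, one_mul, Finsupp.prod, Finsupp.prod, map_prod, map_prod]
        refine Finset.prod_congr rfl fun j _ => ?_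
        rw [map_pow, finSuccEquiv_X_succ, map_pow]
    rw [← finSuccEquiv_coeff_coeff, h1, Polynomial.coeff_mul_C, Polynomial.coeff_map, coeff_C_mul,
      coeff_monomial, coeff_monomial]
    split_ifs with h
    · rw [mul_one]
    · simp

theorem multi {A : Type*} [CommRing A] {r : ℕ} (p n : ℕ) (hp : (p : A) = 0) (f : Polynomial ℤ)
    (hf : f.Monic) (hn : f.natDegree = n) (x : Fin (r + 1) → A)
    (h0 : Polynomial.aeval (x 0) f = 0)
    (hu : IsUnit (Polynomial.aeval (x 0) (Polynomial.derivative f)))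
    (hinj : ∀ ρ : Polynomial ℤ, ρ.degree < n → Polynomial.aeval (x 0) ρ = 0 →
      Polynomial.C (p : ℤ) ∣ ρ) (q : Fin r → Polynomial ℤ)
    (hq : ∀ j : Fin r, x j.succ = Polynomial.aeval (x 0) (q j)) (k : ℕ) (F : PZ (r + 1))
    (hF : ∀ α : Fin (r + 1) →₀ ℕ, α.degree < k → coeff α (tay x F) = 0) :
    F ∈ clsI p f q ^ k ⊔ Ideal.span {(p : PZ (r + 1))} := by
  classical
  obtain ⟨H, rfl⟩ := mPhi_surj q F
  have h1 : tay x (mPhi q H) ∈ idealOfVars (Fin (r + 1)) A ^ k :=
    (mem_pow_idealOfVars_iff' k _).2 hF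
  have h2 := mThe_mem x q k _ h1
  rw [mPsi_eq x q hq H, mem_pow_idealOfVars_iff'] at h2
  -- the coefficients
  have h3 : ∀ β : Fin r →₀ ℕ, coeff β H ∈
      Ideal.span ({Polynomial.C (p : ℤ), f ^ (k - β.degree)} : Set (Polynomial ℤ)) := by
    intro β
    refine uni p n hp f hf hn (x 0) h0 hu hinj (k - β.degree) (coeff β H) ?_
    rw [Polynomial.X_pow_dvd_iff]
    intro i hi
    rw [← mPsi_coeff]
    refine h2 _ ?_
    have h4 : (β.cons i).degree = i + β.degree := by
      rw [Finsupp.degree_eq_sum, Finsupp.degree_eq_sum, Fin.sum_univ_succ]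
      simp
    omega
  rw [H.as_sum, map_sum]
  refine Ideal.sum_mem _ fun β _ => ?_
  have h4 : mPhi q (monomial β (coeff β H)) =
      Polynomial.aeval (X 0 : PZ (r + 1)) (coeff β H) *
        β.prod fun j e => ((X j.succ : PZ (r + 1)) -
          Polynomial.aeval (X 0 : PZ (r + 1)) (q j)) ^ e := by
    simp [mPhi, eval₂_monomial]
  rw [h4]
  obtain ⟨a, b, hab⟩ := Ideal.mem_span_pair.1 (h3 β)
  rw [← hab, map_add, map_mul, map_mul, add_mul, map_pow]
  have h5 : Polynomial.aeval (X 0 : PZ (r + 1)) (Polynomial.C (p : ℤ)) = (p : PZ (r + 1)) := by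
    rw [Polynomial.aeval_C]; simp
  rw [h5]
  refine Ideal.add_mem _ ?_ ?_
  · refine Ideal.mem_sup_right ?_
    refine Ideal.mul_mem_right _ _ (Ideal.mul_mem_left _ _ (Ideal.mem_span_singleton_self _))
  · refine Ideal.mem_sup_left ?_
    have h6 : Polynomial.aeval (X 0 : PZ (r + 1)) f ∈ clsI p f q :=
      Ideal.subset_span (Or.inl (Or.inr rfl))
    have h7 : (β.prod fun j e => ((X j.succ : PZ (r + 1)) -
        Polynomial.aeval (X 0 : PZ (r + 1)) (q j)) ^ e) ∈ clsI p f q ^ β.degree := by
      have h8 : ∀ j : Fin r, (X j.succ : PZ (r + 1)) -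
          Polynomial.aeval (X 0 : PZ (r + 1)) (q j) ∈ clsI p f q :=
        fun j => Ideal.subset_span (Or.inr ⟨j, rfl⟩)
      rw [Finsupp.prod, Finsupp.degree_apply, ← Finset.prod_pow_eq_pow_sum]
      exact Ideal.prod_mem_prod fun j _ => Ideal.pow_mem_pow (h8 j) _
    have h9 := Ideal.mul_mem_mul (Ideal.pow_mem_pow h6 (k - β.degree)) h7
    rw [← pow_add] at h9
    rw [mul_assoc]
    exact Ideal.mul_mem_left _ _ (Ideal.pow_le_pow_right (by omega) h9)

end NFH
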