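import Pool.Agent.Lib.NFH.Basis
import Pool.Agent.Lib.NFH.Grid
import Pool.Agent.Lib.NFH.GramDet
import Pool.Agent.Lib.NFH.GramL
import Pool.Agent.Lib.NFH.JetB

/-!
MP_44a56e_nt (second proof), module Tuple (about 250 lines): the tuple `x`.

PROOF of `tuple`. `(v, b)` from `grid n m (r+1) k`, `C0` from `red_basis n`. Work in `MvPolynomial (Fin (r+1) × Fin n) ℂ` (variables `c_jl`). For `K`: basis `β_l` of `𝓞 K` with `|φ β_l| ≤ C0 D^(1/n)`, `σ : Fin n ≃ (K →+* ℂ)` (`NumberField.Embeddings.card`).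
Linear forms `A_{t,j} = ∑_l σ_t(β_l) c_jl`. `G1 = det (coeff α ((tay over ℂ[c] at A_t) (monomial (b j) 1)))_{(t,α), j}` = `det (jet (A_t) α (b j))` (`jet` makes sense over the commutative ring `ℂ[c]`), `G2 = ∏_{s<t} (A_{s,0} - A_{t,0})`. Their degrees are bounded by a number
`L` depending on `n, m, r, k` only (each entry has degree `≤ |b j| ≤ (r+1)(m-1) + m k`: `jet x α β = ∏ choose(β_j, α_j) x_j^(β_j - α_j)`; prove this formula or bound the degree in `c` otherwise). `G1 ≠ 0`: the matrix `(σ_t β_l)` is invertible (`discr K ≠ 0`), so there is `c ∈ ℂ` with `A_t(c) = v_t` for all `t`,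
where the value is the image in `ℂ` of the nonzero integer determinant of `grid`. `G2 ≠ 0`: rows `s ≠ t` of an invertible matrix are different, so each factor is a nonzero linear form. So `G1 G2 ≠ 0` has a nonvanishing point in `{0..L}^(..)` (`MvPolynomial.eq_zero_of_eval_zero_at_prod_finset` in
Combinatorics/Nullstellensatz, or Schwartz-Zippel). `x_j = ∑_l c_jl β_l`, `|φ x_j| ≤ n L C0 D^(1/n)`. `gram_det_ne` (GramL) with `u (t, α) = (σ t, α)`, `jet_map` (JetB) gives the second statement, `vander` the third one.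
`C = n L C0 + 1`.
-/

set_option autoImplicit false

open MvPolynomial Module NumberField

namespace NFH

private theorem tup_jetdeg {r : ℕ} {τ : Type*} (A : Fin r → MvPolynomial τ ℂ)
    (hA : ∀ j, (A j).totalDegree ≤ 1) (α β : Fin r →₀ ℕ) :
    (jet A α β).totalDegree ≤ β.degree := by
  rw [jet_eq, Finsupp.degree_eq_sum]
  refine (totalDegree_finsetProd _ _).trans (Finset.sum_le_sum fun j _ => ?_)
  refine (totalDegree_mul _ _).trans ?_
  have h1 : (((β j).choose (α j) : ℕ) : MvPolynomial τ ℂ).totalDegree = 0 := by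
    rw [← map_natCast (C : ℂ →+* MvPolynomial τ ℂ), totalDegree_C]
  rw [h1, zero_add]
  refine (totalDegree_pow _ _).trans ?_
  calc (β j - α j) * (A j).totalDegree ≤ (β j - α j) * 1 := Nat.mul_le_mul_left _ (hA j)
    _ ≤ β j := by omega

private theorem tup_detdeg {ι τ : Type*} [Fintype ι] [DecidableEq ι]
    (M : Matrix ι ι (MvPolynomial τ ℂ)) (D : ℕ) (hM : ∀ i j, (M i j).totalDegree ≤ D) :
    M.det.totalDegree ≤ Fintype.card ι * D := by
  rw [Matrix.det_apply]
  refine totalDegree_finsetSum_le fun σ _ => ?_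
  have h1 : (Equiv.Perm.sign σ • ∏ i, M (σ i) i).totalDegree ≤
      (∏ i, M (σ i) i).totalDegree := by
    rcases Int.units_eq_one_or (Equiv.Perm.sign σ) with h | h
    · rw [h, one_smul]
    · rw [h, Units.neg_smul, one_smul, totalDegree_neg]
  refine h1.trans ((totalDegree_finsetProd _ _).trans ?_)
  refine (Finset.sum_le_sum fun i _ => hM (σ i) i).trans ?_
  rw [Finset.sum_const, smul_eq_mul, Finset.card_univ]

/-- the embedding matrix of a basis is invertible -/
private theorem tup_inv (K : Type) [Field K] [NumberField K] (n : ℕ)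
    (β : Basis (Fin n) ℤ (𝓞 K)) (σ : Fin n ≃ (K →+* ℂ)) :
    (Matrix.of fun t l : Fin n => σ t (β l : K)).det ≠ 0 := by
  let e : Fin n ≃ (K →ₐ[ℚ] ℂ) := σ.trans (RingHom.equivRatAlgHom K ℂ)
  let b : Basis (Fin n) ℚ K := β.localizationLocalization ℚ (nonZeroDivisors ℤ) K
  have hb : ∀ l, b l = (β l : K) := fun l =>
    Basis.localizationLocalization_apply ℚ (nonZeroDivisors ℤ) K β l
  have h1 := Algebra.discr_eq_det_embeddingsMatrixReindex_pow_two ℚ ℂ b e
  have h2 : Algebra.discr ℚ b ≠ 0 := Algebra.discr_not_zero_of_basis ℚ b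
  have h3 : (Algebra.embeddingsMatrixReindex ℚ ℂ b e).det ≠ 0 := by
    intro h0
    rw [h0, zero_pow two_ne_zero] at h1
    exact h2 ((algebraMap ℚ ℂ).injective (h1.trans (map_zero _).symm))
  have h4 : Algebra.embeddingsMatrixReindex ℚ ℂ b e =
      (Matrix.of fun t l : Fin n => σ t (β l : K)).transpose := by
    ext i j
    change e j (b i) = σ j (β i : K)
    rw [hb]
    rfl
  rw [h4, Matrix.det_transpose] at h3
  exact h3

/-- the linear forms -/
private noncomputable def tup_A {K : Type} [Field K] [NumberField K] {n r : ℕ}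
    (β : Fin n → 𝓞 K) (φ : K →+* ℂ) (j : Fin r) : MvPolynomial (Fin r × Fin n) ℂ :=
  ∑ l, C (φ (β l : K)) * X (j, l)

private theorem tup_Adeg {K : Type} [Field K] [NumberField K] {n r : ℕ}
    (β : Fin n → 𝓞 K) (φ : K →+* ℂ) (j : Fin r) : (tup_A β φ j).totalDegree ≤ 1 := by
  refine totalDegree_finsetSum_le fun l _ => ?_
  refine (totalDegree_mul _ _).trans ?_
  rw [totalDegree_C, zero_add, totalDegree_X]

private theorem tup_Aev {K : Type} [Field K] [NumberField K] {n r : ℕ}
    (β : Fin n → 𝓞 K) (φ : K →+* ℂ) (j : Fin r) (c : Fin r × Fin n → ℂ) :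
    eval c (tup_A β φ j) = ∑ l, φ (β l : K) * c (j, l) := by
  rw [tup_A, map_sum]
  refine Finset.sum_congr rfl fun l _ => ?_
  rw [map_mul, eval_C, eval_X]

theorem tuple (n m r k : ℕ) (hn : 1 ≤ n) (hm : 1 ≤ m) (h : n ≤ m ^ (r + 1)) :
    ∃ (C : ℝ) (b : Fin n × mon (r + 1) k → (Fin (r + 1) →₀ ℕ)), 1 ≤ C ∧
      (∀ i, (b i).degree ≤ (r + 1) * (m - 1) + m * k) ∧
      ∀ (K : Type) [Field K] [NumberField K], finrank ℚ K = n →
        ∃ x : Fin (r + 1) → 𝓞 K,
          (∀ (φ : K →+* ℂ) (j : Fin (r + 1)),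
            ‖φ (x j : K)‖ ≤ C * |(discr K : ℝ)| ^ ((1 : ℝ) / n)) ∧
          (gramT K (fun (i : Fin n × mon (r + 1) k) (α : mon (r + 1) k) =>
            jet x α.1 (b i))).det ≠ 0 ∧
          (gramT K (fun (i : Fin n) (_ : Unit) => x 0 ^ (i : ℕ))).det ≠ 0 := by
  classical
  obtain ⟨v, b, -, hbdeg, hdet⟩ := grid n m (r + 1) k hm h
  obtain ⟨C0, hC0, hred⟩ := red_basis n hn
  set D0 := (r + 1) * (m - 1) + m * k with hD0
  set L := Fintype.card (Fin n × mon (r + 1) k) * D0 + n * n with hL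
  refine ⟨n * L * C0 + 1, b, ?_, hbdeg, fun K _ _ hK => ?_⟩
  · have : (0 : ℝ) ≤ n * L * C0 := by positivity
    linarith
  obtain ⟨β, hβ⟩ := hred K hK
  have hcard : Fintype.card (K →+* ℂ) = n := by rw [Embeddings.card, hK]
  let σ : Fin n ≃ (K →+* ℂ) := (Fintype.equivFinOfCardEq hcard).symm
  have hinv := tup_inv K n β σ
  set M : Matrix (Fin n) (Fin n) ℂ := Matrix.of fun t l : Fin n => σ t (β l : K) with hM
  let A : Fin n → Fin (r + 1) → MvPolynomial (Fin (r + 1) × Fin n) ℂ := fun t j =>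
    tup_A β (σ t) j
  let G1 : MvPolynomial (Fin (r + 1) × Fin n) ℂ :=
    (Matrix.of fun i j : Fin n × mon (r + 1) k => jet (A i.1) i.2.1 (b j)).det
  let G2 : MvPolynomial (Fin (r + 1) × Fin n) ℂ :=
    ∏ p ∈ (Finset.univ : Finset (Fin n × Fin n)).filter (fun p => p.1 ≠ p.2),
      (A p.1 0 - A p.2 0)
  have hG1deg : G1.totalDegree ≤ Fintype.card (Fin n × mon (r + 1) k) * D0 := by
    refine tup_detdeg _ D0 fun i j => ?_
    exact (tup_jetdeg _ (tup_Adeg _ _) _ _).trans (hbdeg j)
  have hG2deg : G2.totalDegree ≤ n * n := by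
    refine (totalDegree_finsetProd _ _).trans ?_
    refine (Finset.sum_le_sum (g := fun _ => 1) fun p _ => ?_).trans ?_
    · refine (totalDegree_sub _ _).trans (max_le (tup_Adeg _ _ _) (tup_Adeg _ _ _))
    · rw [Finset.sum_const, smul_eq_mul, mul_one]
      refine (Finset.card_filter_le _ _).trans ?_
      rw [Finset.card_univ, Fintype.card_prod, Fintype.card_fin]
  have hev1 : ∀ c : Fin (r + 1) × Fin n → ℂ, eval c G1 =
      (Matrix.of fun i j : Fin n × mon (r + 1) k =>
        jet (fun a => eval c (A i.1 a)) i.2.1 (b j)).det := by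
    intro c
    change eval c (Matrix.det _) = _
    rw [RingHom.map_det]
    congr 1
    ext i j
    change eval c (jet (A i.1) i.2.1 (b j)) = _
    rw [jet_map]
    rfl
  have hG1 : G1 ≠ 0 := by
    intro h0
    let c : Fin (r + 1) × Fin n → ℂ := fun p => (M⁻¹.mulVec fun t => ((v t p.1 : ℤ) : ℂ)) p.2
    have hc : ∀ t a, eval c (A t a) = ((v t a : ℤ) : ℂ) := by
      intro t a
      change eval c (tup_A β (σ t) a) = _
      rw [tup_Aev]
      change (M.mulVec (M⁻¹.mulVec fun t => ((v t a : ℤ) : ℂ))) t = _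
      rw [Matrix.mulVec_mulVec, Matrix.mul_nonsing_inv _ (isUnit_iff_ne_zero.2 hinv),
        Matrix.one_mulVec]
    have h1 := hev1 c
    rw [h0, map_zero] at h1
    apply hdet
    have h2 : (((Matrix.of fun i j : Fin n × mon (r + 1) k =>
        (jet (v i.1) i.2.1 (b j) : ℤ)).det : ℤ) : ℂ) = 0 := by
      rw [h1]
      change (Int.castRingHom ℂ) (Matrix.det _) = _
      rw [RingHom.map_det]
      congr 1
      ext i j
      change (Int.castRingHom ℂ) (jet (v i.1) i.2.1 (b j)) = jet _ _ _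
      rw [jet_map]
      congr 1
      funext a
      rw [hc]
      rfl
    exact_mod_cast h2
  have hG2 : G2 ≠ 0 := by
    refine Finset.prod_ne_zero_iff.2 fun p hp h0 => ?_
    have hne := (Finset.mem_filter.1 hp).2
    apply hinv
    refine Matrix.det_zero_of_row_eq hne ?_
    funext l
    have h1 := congrArg (eval (Pi.single ((0 : Fin (r + 1)), l) (1 : ℂ))) h0
    rw [map_sub, map_zero] at h1
    change eval _ (tup_A β (σ p.1) 0) - eval _ (tup_A β (σ p.2) 0) = 0 at h1
    rw [tup_Aev, tup_Aev, Finset.sum_eq_single l, Finset.sum_eq_single l] at h1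
    · rw [Pi.single_eq_same, mul_one, mul_one] at h1
      exact sub_eq_zero.1 h1
    · intro l' _ hl'
      rw [Pi.single_eq_of_ne, mul_zero]
      intro h2
      exact hl' (congrArg Prod.snd h2)
    · intro h2
      exact absurd (Finset.mem_univ _) h2
    · intro l' _ hl'
      rw [Pi.single_eq_of_ne, mul_zero]
      intro h2
      exact hl' (congrArg Prod.snd h2)
    · intro h2
      exact absurd (Finset.mem_univ _) h2
  -- a point in the grid
  have hpt : ∃ c : Fin (r + 1) × Fin n → ℕ, (∀ p, c p ≤ L) ∧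
      eval (fun p => (c p : ℂ)) (G1 * G2) ≠ 0 := by
    by_contra hno
    push Not at hno
    refine mul_ne_zero hG1 hG2 ?_
    let S : Finset ℂ := (Finset.range (L + 1)).image (fun t : ℕ => (t : ℂ))
    have hS : S.card = L + 1 := by
      rw [Finset.card_image_of_injective _ Nat.cast_injective, Finset.card_range]
    refine eq_zero_of_eval_zero_at_prod_finset (G1 * G2) (fun _ => S) (fun i => ?_)
      (fun y hy => ?_)
    · rw [hS]
      refine Nat.lt_succ_of_le ((degreeOf_le_totalDegree _ _).trans ?_)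
      exact (totalDegree_mul _ _).trans (add_le_add hG1deg hG2deg)
    · have h1 : ∀ p, ∃ t : ℕ, t ≤ L ∧ (t : ℂ) = y p := by
        intro p
        obtain ⟨t, ht, ht2⟩ := Finset.mem_image.1 (hy p)
        exact ⟨t, Nat.lt_succ_iff.1 (Finset.mem_range.1 ht), ht2⟩
      choose c hc hc2 using h1
      have h2 := hno c hc
      have h3 : (fun p => (c p : ℂ)) = y := funext hc2
      rw [h3] at h2
      exact h2
  obtain ⟨c, hcL, hc⟩ := hpt
  rw [map_mul] at hc
  have hc1 := left_ne_zero_of_mul hc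
  have hc2 := right_ne_zero_of_mul hc
  let x : Fin (r + 1) → 𝓞 K := fun j => ∑ l, (c (j, l) : 𝓞 K) * β l
  have hx : ∀ (φ : K →+* ℂ) (j : Fin (r + 1)), φ (x j : K) =
      eval (fun p => (c p : ℂ)) (tup_A β φ j) := by
    intro φ j
    rw [tup_Aev]
    change (φ.comp (algebraMap (𝓞 K) K)) (x j) = _
    rw [map_sum]
    refine Finset.sum_congr rfl fun l _ => ?_
    rw [map_mul, map_natCast, mul_comm]
    rfl
  refine ⟨x, ?_, ?_, ?_⟩
  · intro φ j
    rw [hx, tup_Aev]
    refine (norm_sum_le _ _).trans ?_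
    have hDn : (0 : ℝ) ≤ |(discr K : ℝ)| ^ ((1 : ℝ) / n) := Real.rpow_nonneg (abs_nonneg _) _
    refine (Finset.sum_le_sum (g := fun _ => (C0 * |(discr K : ℝ)| ^ ((1 : ℝ) / n)) * L)
      fun l _ => ?_).trans ?_
    · rw [norm_mul]
      refine mul_le_mul (hβ l φ) ?_ (norm_nonneg _) (by positivity)
      rw [Complex.norm_natCast]
      exact_mod_cast hcL _
    · rw [Finset.sum_const, Finset.card_univ, Fintype.card_fin, nsmul_eq_mul]
      nlinarith
  · refine gram_det_ne
      (fun (i : Fin n × mon (r + 1) k) (α : mon (r + 1) k) => jet x α.1 (b i))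
      (σ.prodCongr (Equiv.refl _)) fun h0 => ?_
    apply hc1
    rw [hev1, ← h0]
    congr 1
    ext i j
    change jet (fun a => eval (fun p => (c p : ℂ)) (A i.1 a)) i.2.1 (b j) =
      ((σ i.1).comp (algebraMap (𝓞 K) K)) (jet x i.2.1 (b j))
    rw [jet_map]
    congr 1
    funext a
    exact (hx (σ i.1) a).symm
  · refine vander K n σ (x 0) fun s t hst => ?_
    by_contra hne
    apply hc2
    rw [map_prod]
    refine Finset.prod_eq_zero (i := (s, t))
      (Finset.mem_filter.2 ⟨Finset.mem_univ _, hne⟩) ?_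
    rw [map_sub]
    change eval _ (tup_A β (σ s) 0) - eval _ (tup_A β (σ t) 0) = 0
    rw [← hx, ← hx]
    exact sub_eq_zero.2 hst

end NFH
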