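import Pool.Agent.Lib.NFH.Defs

/-!
MP_44a56e_nt (second proof), module Uni (about 130 lines): polynomials in one variable with a zero of high order modulo `p`.

PROOF of `uni` by induction on `k`. `k = 0`: `f ^ 0 = 1`. Step `k → k+1`: `g = f * g1 + ρ`, `ρ = g %ₘ f`, `degree ρ < degree f = n` (`Polynomial.modByMonic_add_div`,
`degree_modByMonic_lt`). `aeval (C x + X) g` evaluated at `X = 0` is `aeval x g = 0` (as `X ∣ ..`), so `aeval x ρ = 0` and `C p ∣ ρ` by `hinj`; so `aeval (C x + X) ρ = 0`
(`p = 0` in `A`) and `aeval (C x + X) g = f(x + X) * g1(x + X)`. `f(x+X) = X * u` with `u` a polynomial with constant coefficient `aeval x f.derivative` (coefficient of `X`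
in the Taylor expansion, `Polynomial.taylor`, `Polynomial.taylor_coeff_one`), a unit of `A`. From `X^(k+1) ∣ X * u * g1(x+X)` we get `X^k ∣ u * g1(x+X)`
(`X` is a nonzero divisor) and `X^k ∣ g1(x+X)` because the constant coefficient of `u` is a unit (compare coefficients: the lowest coefficient; or `u` is a unit of
`PowerSeries A`; or by induction on `i < k` the coefficient `i` of `g1(x+X)` vanishes). Induction: `g1 ∈ (C p, f^k)`, so `g = f g1 + ρ ∈ (C p, f^(k+1))`.
-/

set_option autoImplicit false

open Module

namespace NFH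

private theorem phi_eq {A : Type*} [CommRing A] (x : A) (g : Polynomial ℤ) :
    Polynomial.aeval (Polynomial.C x + Polynomial.X : Polynomial A) g =
      Polynomial.taylor x (g.map (Int.castRingHom A)) := by
  rw [Polynomial.taylor_apply, Polynomial.aeval_def, Polynomial.comp, Polynomial.eval₂_map,
    add_comm (Polynomial.C x) Polynomial.X]
  congr 1

private theorem phi_coeff_zero {A : Type*} [CommRing A] (x : A) (g : Polynomial ℤ) :
    (Polynomial.aeval (Polynomial.C x + Polynomial.X : Polynomial A) g).coeff 0 =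
      Polynomial.aeval x g := by
  rw [phi_eq, Polynomial.taylor_coeff_zero, Polynomial.eval_map, Polynomial.aeval_def]
  congr 1

private theorem phi_coeff_one {A : Type*} [CommRing A] (x : A) (g : Polynomial ℤ) :
    (Polynomial.aeval (Polynomial.C x + Polynomial.X : Polynomial A) g).coeff 1 =
      Polynomial.aeval x (Polynomial.derivative g) := by
  rw [phi_eq, Polynomial.taylor_coeff_one, Polynomial.derivative_map, Polynomial.eval_map,
    Polynomial.aeval_def]
  congr 1

private theorem coprime_X {A : Type*} [CommRing A] (u : Polynomial A) (h : IsUnit (u.coeff 0)) :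
    IsCoprime (Polynomial.X : Polynomial A) u := by
  obtain ⟨w, hw⟩ := h.exists_left_inv
  refine ⟨-(Polynomial.C w) * u.divX, Polynomial.C w, ?_⟩
  have h1 := Polynomial.divX_mul_X_add u
  calc -(Polynomial.C w) * u.divX * Polynomial.X + Polynomial.C w * u
      = -(Polynomial.C w) * u.divX * Polynomial.X
        + Polynomial.C w * (u.divX * Polynomial.X + Polynomial.C (u.coeff 0)) := by rw [h1]
    _ = Polynomial.C w * Polynomial.C (u.coeff 0) := by ring
    _ = 1 := by rw [← Polynomial.C_mul, hw, Polynomial.C_1]

theorem uni {A : Type*} [CommRing A] (p n : ℕ) (hp : (p : A) = 0) (f : Polynomial ℤ)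
    (hf : f.Monic) (hn : f.natDegree = n) (x : A) (h0 : Polynomial.aeval x f = 0)
    (hu : IsUnit (Polynomial.aeval x (Polynomial.derivative f)))
    (hinj : ∀ ρ : Polynomial ℤ, ρ.degree < n → Polynomial.aeval x ρ = 0 →
      Polynomial.C (p : ℤ) ∣ ρ) (k : ℕ) (g : Polynomial ℤ)
    (hg : (Polynomial.X : Polynomial A) ^ k ∣
      Polynomial.aeval (Polynomial.C x + Polynomial.X : Polynomial A) g) :
    g ∈ Ideal.span ({Polynomial.C (p : ℤ), f ^ k} : Set (Polynomial ℤ)) := by
  induction k generalizing g with
  | zero =>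
    rw [Ideal.mem_span_pair]
    exact ⟨0, g, by simp⟩
  | succ k ih =>
    have hdiv : g %ₘ f + f * (g /ₘ f) = g := Polynomial.modByMonic_add_div g f
    set g1 : Polynomial ℤ := g /ₘ f with hg1
    set ρ : Polynomial ℤ := g %ₘ f with hρ
    have hg0 : Polynomial.aeval x g = 0 := by
      rw [← phi_coeff_zero]
      exact (Polynomial.X_pow_dvd_iff.mp hg) 0 (Nat.succ_pos k)
    have hρ0 : Polynomial.aeval x ρ = 0 := by
      rw [← hdiv, map_add, map_mul, h0, zero_mul, add_zero] at hg0
      exact hg0
    have hρd : ρ.degree < n := by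
      have h1 := Polynomial.degree_modByMonic_lt g hf
      rw [Polynomial.degree_eq_natDegree hf.ne_zero, hn] at h1
      exact h1
    obtain ⟨ρ', hρ'⟩ := hinj ρ hρd hρ0
    have hphiρ : Polynomial.aeval (Polynomial.C x + Polynomial.X : Polynomial A) ρ = 0 := by
      rw [hρ', map_mul]
      have h2 : Polynomial.aeval (Polynomial.C x + Polynomial.X : Polynomial A)
          (Polynomial.C (p : ℤ)) = 0 := by
        rw [Polynomial.aeval_C]
        have h3 : (algebraMap ℤ (Polynomial A)) (p : ℤ) = Polynomial.C ((p : ℕ) : A) := by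
          simp
        rw [h3, hp, Polynomial.C_0]
      rw [h2, zero_mul]
    have hphig : Polynomial.aeval (Polynomial.C x + Polynomial.X : Polynomial A) g =
        Polynomial.aeval (Polynomial.C x + Polynomial.X : Polynomial A) f *
        Polynomial.aeval (Polynomial.C x + Polynomial.X : Polynomial A) g1 := by
      conv_lhs => rw [← hdiv]
      rw [map_add, map_mul, hphiρ, zero_add]
    have hF0 : (Polynomial.aeval (Polynomial.C x + Polynomial.X : Polynomial A) f).coeff 0 = 0 := by
      rw [phi_coeff_zero, h0]
    obtain ⟨u, hu'⟩ := Polynomial.X_dvd_iff.mpr hF0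
    have hu0 : IsUnit (u.coeff 0) := by
      have h4 : (Polynomial.aeval (Polynomial.C x + Polynomial.X : Polynomial A) f).coeff 1
          = u.coeff 0 := by
        rw [hu', Polynomial.coeff_X_mul]
      rw [← h4, phi_coeff_one]
      exact hu
    have hXk : (Polynomial.X : Polynomial A) ^ k ∣
        u * Polynomial.aeval (Polynomial.C x + Polynomial.X : Polynomial A) g1 := by
      rw [Polynomial.X_pow_dvd_iff]
      intro d hd
      have h5 := (Polynomial.X_pow_dvd_iff.mp hg) (d + 1) (Nat.succ_lt_succ hd)
      rw [hphig, hu', mul_assoc, Polynomial.coeff_X_mul] at h5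
      exact h5
    have hXk' : (Polynomial.X : Polynomial A) ^ k ∣
        Polynomial.aeval (Polynomial.C x + Polynomial.X : Polynomial A) g1 :=
      ((coprime_X u hu0).pow_left (m := k)).dvd_of_dvd_mul_left hXk
    have h6 := ih g1 hXk'
    rw [Ideal.mem_span_pair] at h6 ⊢
    obtain ⟨a, b, hab⟩ := h6
    refine ⟨ρ' + f * a, b, ?_⟩
    rw [← hdiv, hρ', ← hab]
    ring

end NFH
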